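import Pool.Agent.T6.H46.CZ.Stm

/-!
Project CZ, module C1L: arbitrarily large `n` with all `‖n Q α‖² ≤ |Q|^s ‖Q α‖`.
-/

set_option autoImplicit false

namespace Pool.Agent.T6.H46.CZ

lemma c1l_nd_nonneg (x : ℝ) : 0 ≤ nd x := abs_nonneg _

lemma c1l_nd_le_one (x : ℝ) : nd x ≤ 1 := by
  have := abs_sub_round x
  unfold nd
  linarith

lemma c1l_nd_mul (n : ℕ) (x : ℝ) : nd (n * x) ≤ n * nd x := by
  unfold nd
  calc |(n : ℝ) * x - round ((n : ℝ) * x)| ≤ |(n : ℝ) * x - (((n : ℤ) * round x : ℤ) : ℝ)| :=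
        round_le _ _
    _ = |(n : ℝ) * (x - round x)| := by
        push_cast
        congr 1
        ring
    _ = n * |x - round x| := by
        rw [abs_mul, Nat.abs_cast]

lemma c1l_norm_ge_one {d : ℕ} (Q : Fin d → ℤ) (hQ : Q ≠ 0) : 1 ≤ ‖Q‖ := by
  obtain ⟨i, hi⟩ := Function.ne_iff.1 hQ
  have h1 : ‖Q i‖ ≤ ‖Q‖ := norm_le_pi_norm Q i
  have h2 : (1 : ℝ) ≤ ‖Q i‖ := by
    rw [Int.norm_eq_abs]
    have h3 : 1 ≤ |Q i| := Int.one_le_abs hi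
    exact_mod_cast h3
  linarith

theorem mC1L (hDIR : StmDIR) (hGAP : StmGAP) : StmC1L := by
  intro d
  obtain ⟨B, X0, hG⟩ := hGAP d (6 * d + 4)
  refine ⟨d * (B + 2) + 2, fun α M => ?_⟩
  obtain ⟨X, hXM, hX0, hXd, hX2⟩ : ∃ X : ℕ, M ≤ X ∧ X0 ≤ X ∧ d ≤ X ∧ 2 ≤ X :=
    ⟨M + X0 + d + 2, by omega, by omega, by omega, by omega⟩
  obtain ⟨β, hβ1, hβB, hβ⟩ := hG α X hX0
  obtain ⟨n, hnX, hnN, hn⟩ := hDIR d α (X ^ (β + 2)) X (Nat.one_le_pow _ _ (by omega)) (by omega)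
  refine ⟨n, le_trans hXM hnX, fun Q hQ => ?_⟩
  have hX1 : (1 : ℝ) ≤ (X : ℝ) := by exact_mod_cast (by omega : 1 ≤ X)
  have hXpos : (0 : ℝ) < (X : ℝ) := by linarith
  have hQ1 : 1 ≤ ‖Q‖ := c1l_norm_ge_one Q hQ
  have ht0 := c1l_nd_nonneg (tf α Q)
  have hnt0 := c1l_nd_nonneg (n * tf α Q)
  have hnt1 := c1l_nd_le_one (n * tf α Q)
  have hnm := c1l_nd_mul n (tf α Q)
  have hQs : 1 ≤ ‖Q‖ ^ (d * (B + 2) + 2) := one_le_pow₀ hQ1
  have hnle : (n : ℝ) ≤ (X : ℝ) ^ (d * (β + 2) + 1) := by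
    have h1 : n ≤ X ^ (d * (β + 2) + 1) := by
      refine le_trans hnN (le_of_eq ?_)
      rw [← pow_mul, pow_succ, mul_comm (β + 2) d, mul_comm X]
    exact_mod_cast h1
  rcases le_or_gt ‖Q‖ (X : ℝ) with hle | hgt
  · have hsmall : nd (n * tf α Q) ≤ 1 / (X : ℝ) ^ β := by
      refine le_trans (hn Q) ?_
      have hdX : (d : ℝ) ≤ (X : ℝ) := by exact_mod_cast hXd
      have h1 : (d : ℝ) * ‖Q‖ ≤ (X : ℝ) * X :=
        mul_le_mul hdX hle (norm_nonneg _) hXpos.le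
      push_cast
      rw [div_le_div_iff₀ (by positivity) (by positivity)]
      calc (d : ℝ) * ‖Q‖ * (X : ℝ) ^ β ≤ (X : ℝ) * X * (X : ℝ) ^ β :=
            mul_le_mul_of_nonneg_right h1 (by positivity)
        _ = 1 * (X : ℝ) ^ (β + 2) := by ring
    rcases hβ Q hQ hle with h | h
    · have h1 : nd (n * tf α Q) ^ 2 ≤ nd (tf α Q) := by
        calc nd (n * tf α Q) ^ 2 ≤ nd (n * tf α Q) := by nlinarith
          _ ≤ 1 / (X : ℝ) ^ β := hsmall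
          _ ≤ nd (tf α Q) := h
      calc nd (n * tf α Q) ^ 2 ≤ 1 * nd (tf α Q) := by rw [one_mul]; exact h1
        _ ≤ ‖Q‖ ^ (d * (B + 2) + 2) * nd (tf α Q) := mul_le_mul_of_nonneg_right hQs ht0
    · have h2 : (n : ℝ) ^ 2 * nd (tf α Q) ≤ 1 := by
        have h3 : (n : ℝ) ^ 2 ≤ (X : ℝ) ^ ((6 * d + 4) * β) := by
          calc (n : ℝ) ^ 2 ≤ ((X : ℝ) ^ (d * (β + 2) + 1)) ^ 2 :=
                pow_le_pow_left₀ (Nat.cast_nonneg n) hnle 2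
            _ = (X : ℝ) ^ ((d * (β + 2) + 1) * 2) := by rw [← pow_mul]
            _ ≤ (X : ℝ) ^ ((6 * d + 4) * β) := by
                apply pow_le_pow_right₀ hX1
                nlinarith [Nat.mul_le_mul_left d hβ1]
        calc (n : ℝ) ^ 2 * nd (tf α Q) ≤ (X : ℝ) ^ ((6 * d + 4) * β) *
              (1 / (X : ℝ) ^ ((6 * d + 4) * β)) :=
              mul_le_mul h3 h ht0 (by positivity)
          _ = 1 := by
              rw [mul_one_div, div_self (by positivity)]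
      calc nd (n * tf α Q) ^ 2 ≤ (n * nd (tf α Q)) ^ 2 := pow_le_pow_left₀ hnt0 hnm 2
        _ = ((n : ℝ) ^ 2 * nd (tf α Q)) * nd (tf α Q) := by ring
        _ ≤ 1 * nd (tf α Q) := mul_le_mul_of_nonneg_right h2 ht0
        _ ≤ ‖Q‖ ^ (d * (B + 2) + 2) * nd (tf α Q) := mul_le_mul_of_nonneg_right hQs ht0
  · have h1 : (n : ℝ) ≤ ‖Q‖ ^ (d * (B + 2) + 2) := by
      calc (n : ℝ) ≤ (X : ℝ) ^ (d * (β + 2) + 1) := hnle
        _ ≤ (X : ℝ) ^ (d * (B + 2) + 2) := by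
            apply pow_le_pow_right₀ hX1
            have := Nat.mul_le_mul_left d (Nat.add_le_add_right hβB 2)
            omega
        _ ≤ ‖Q‖ ^ (d * (B + 2) + 2) := pow_le_pow_left₀ hXpos.le hgt.le _
    calc nd (n * tf α Q) ^ 2 ≤ nd (n * tf α Q) := by nlinarith
      _ ≤ n * nd (tf α Q) := hnm
      _ ≤ ‖Q‖ ^ (d * (B + 2) + 2) * nd (tf α Q) := mul_le_mul_of_nonneg_right h1 ht0

end Pool.Agent.T6.H46.CZ
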