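import Pool.Agent.T6.H46.CZ.Stm

/-! Project CZ (MP_3d11e1_an): module CO1. -/

set_option autoImplicit false

namespace Pool.Agent.T6.H46.CZ

open Finset Filter

namespace ModCO1

theorem e_add (x y : ℝ) : e (x + y) = e x * e y := by
  unfold e
  rw [← Complex.exp_add]
  congr 1
  push_cast
  ring

theorem e_zero : e 0 = 1 := by simp [e]

theorem norm_e (x : ℝ) : ‖e x‖ = 1 := by
  unfold e
  have h : 2 * (Real.pi : ℂ) * Complex.I * (x : ℂ) = ((2 * Real.pi * x : ℝ) : ℂ) * Complex.I := by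
    push_cast; ring
  rw [h, Complex.norm_exp_ofReal_mul_I]

/-- `e (x) - e (-x) = 2 i sin (2 π x)` -/
theorem e_sub (x : ℝ) : e x - e (-x) = 2 * Complex.I * (Real.sin (2 * Real.pi * x) : ℂ) := by
  unfold e
  have h1 : 2 * (Real.pi : ℂ) * Complex.I * (x : ℂ) = ((2 * Real.pi * x : ℝ) : ℂ) * Complex.I := by
    push_cast; ring
  have h2 : 2 * (Real.pi : ℂ) * Complex.I * ((-x : ℝ) : ℂ) =
      -(((2 * Real.pi * x : ℝ) : ℂ)) * Complex.I := by
    push_cast; ring
  rw [h1, h2, Complex.ofReal_sin, Complex.sin]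
  linear_combination (Complex.exp (((2 * Real.pi * x : ℝ) : ℂ) * Complex.I) -
    Complex.exp (-(((2 * Real.pi * x : ℝ) : ℂ)) * Complex.I)) * (Complex.I_sq)

theorem norm_e_sub_one (x : ℝ) : ‖e x - 1‖ = 2 * |Real.sin (Real.pi * x)| := by
  have h1 : e x - 1 = e (x / 2) * (e (x / 2) - e (-(x / 2))) := by
    rw [mul_sub, ← e_add, ← e_add]
    have e1 : x / 2 + x / 2 = x := by ring
    have e2 : x / 2 + -(x / 2) = 0 := by ring
    rw [e1, e2, e_zero]
  rw [h1, norm_mul, norm_e, one_mul, e_sub]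
  have e3 : 2 * Real.pi * (x / 2) = Real.pi * x := by ring
  rw [e3, norm_mul, norm_mul, Complex.norm_I, Complex.norm_real, Real.norm_eq_abs]
  simp

theorem norm_second (x : ℝ) : ‖e x + e (-x) - 2‖ = 4 * Real.sin (Real.pi * x) ^ 2 := by
  have h1 : e x + e (-x) - 2 = (e (x / 2) - e (-(x / 2))) ^ 2 := by
    have e1 : e x = e (x / 2) * e (x / 2) := by rw [← e_add]; congr 1; ring
    have e2 : e (-x) = e (-(x / 2)) * e (-(x / 2)) := by rw [← e_add]; congr 1; ring
    have e3 : e (x / 2) * e (-(x / 2)) = 1 := by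
      rw [← e_add, ← e_zero]; congr 1; ring
    rw [e1, e2]
    linear_combination 2 * e3
  rw [h1, norm_pow, e_sub]
  have e3 : 2 * Real.pi * (x / 2) = Real.pi * x := by ring
  rw [e3, norm_mul, norm_mul, Complex.norm_I, Complex.norm_real, Real.norm_eq_abs, mul_pow,
    sq_abs]
  simp
  norm_num

theorem nd_nonneg (x : ℝ) : 0 ≤ nd x := abs_nonneg _

theorem abs_sin (x : ℝ) : |Real.sin (Real.pi * x)| = |Real.sin (Real.pi * (x - round x))| := by
  have h : Real.pi * (x - round x) = Real.pi * x - (round x : ℤ) * Real.pi := by ring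
  rw [h, Real.sin_sub_int_mul_pi, abs_mul]
  simp

theorem sin_le (x : ℝ) : |Real.sin (Real.pi * x)| ≤ Real.pi * nd x := by
  rw [abs_sin]
  refine Real.abs_sin_le_abs.trans ?_
  rw [abs_mul, abs_of_pos Real.pi_pos]
  rfl

theorem le_sin (x : ℝ) : 2 * nd x ≤ |Real.sin (Real.pi * x)| := by
  rw [abs_sin]
  have h1 : |x - round x| ≤ 1 / 2 := abs_sub_round x
  have h2 : |Real.sin (Real.pi * (x - round x))| = Real.sin (Real.pi * |x - round x|) := by
    rcases abs_cases (x - round x) with ⟨h3, h4⟩ | ⟨h3, h4⟩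
    · rw [h3, abs_of_nonneg]
      refine Real.sin_nonneg_of_nonneg_of_le_pi (by positivity) ?_
      rw [h3] at h1
      nlinarith [Real.pi_pos]
    · rw [h3, mul_neg, Real.sin_neg, abs_of_nonpos]
      refine Real.sin_nonpos_of_nonpos_of_neg_pi_le ?_ ?_
      · nlinarith [Real.pi_pos]
      · rw [h3] at h1
        nlinarith [Real.pi_pos]
  rw [h2]
  have h3 := Real.mul_le_sin (x := Real.pi * |x - round x|) (by positivity)
    (by nlinarith [Real.pi_pos])
  have h4 : 2 / Real.pi * (Real.pi * |x - round x|) = 2 * |x - round x| := by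
    have := Real.pi_ne_zero
    field_simp
  rw [h4] at h3
  exact h3

/-- the kernel -/
noncomputable def W (t : ℝ) (n : ℕ) : ℂ := ∑ k ∈ range n, (e (k * t) - e (-((k : ℝ) + 1) * t))

theorem W_mul (t : ℝ) (n : ℕ) : W t n * (e t - 1) = e (n * t) + e (-(n * t)) - 2 := by
  induction n with
  | zero => simp [W, e_zero]; norm_num
  | succ n ih =>
    have h1 : W t (n + 1) = W t n + (e (n * t) - e (-((n : ℝ) + 1) * t)) := by
      unfold W; rw [sum_range_succ]
    rw [h1, add_mul, ih]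
    have e1 : e (((n + 1 : ℕ) : ℝ) * t) = e (n * t) * e t := by
      rw [← e_add]; congr 1; push_cast; ring
    have e2 : e (-(n * t)) = e (-((n : ℝ) + 1) * t) * e t := by
      rw [← e_add]; congr 1; ring
    have e3 : e (-(((n + 1 : ℕ) : ℝ) * t)) = e (-((n : ℝ) + 1) * t) := by
      congr 1; push_cast; ring
    rw [e1, e2, e3]
    ring

theorem W_bound (t : ℝ) (n : ℕ) (B : ℝ) (ht : 0 < nd t) (h : nd (n * t) ^ 2 ≤ B * nd t) :
    ‖W t n‖ ≤ Real.pi ^ 2 * B := by
  have h1 := congrArg norm (W_mul t n)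
  rw [norm_mul, norm_e_sub_one, norm_second] at h1
  have h2 := le_sin t
  have h3 := sin_le (n * t)
  have h4 : Real.sin (Real.pi * (n * t)) ^ 2 ≤ (Real.pi * nd (n * t)) ^ 2 := by
    rw [← sq_abs]
    exact pow_le_pow_left₀ (abs_nonneg _) h3 2
  have h5 : ‖W t n‖ * (4 * nd t) ≤ 4 * (Real.pi ^ 2 * (B * nd t)) := by
    calc ‖W t n‖ * (4 * nd t) ≤ ‖W t n‖ * (2 * |Real.sin (Real.pi * t)|) := by
          refine mul_le_mul_of_nonneg_left ?_ (norm_nonneg _)
          linarith
      _ = 4 * Real.sin (Real.pi * (n * t)) ^ 2 := h1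
      _ ≤ 4 * (Real.pi * nd (n * t)) ^ 2 := by linarith
      _ = 4 * (Real.pi ^ 2 * nd (n * t) ^ 2) := by ring
      _ ≤ 4 * (Real.pi ^ 2 * (B * nd t)) := by
          have : Real.pi ^ 2 * nd (n * t) ^ 2 ≤ Real.pi ^ 2 * (B * nd t) :=
            mul_le_mul_of_nonneg_left h (by positivity)
          linarith
  have h6 : ‖W t n‖ * (4 * nd t) ≤ (Real.pi ^ 2 * B) * (4 * nd t) := by
    calc _ ≤ _ := h5
      _ = _ := by ring
  exact le_of_mul_le_mul_right h6 (by positivity)

theorem norm_W_le (t : ℝ) (n : ℕ) : ‖W t n‖ ≤ 2 * n := by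
  unfold W
  refine (norm_sum_le _ _).trans ?_
  have h : ∀ k ∈ range n, ‖e (k * t) - e (-((k : ℝ) + 1) * t)‖ ≤ 2 := by
    intro k _
    refine (norm_sub_le _ _).trans ?_
    rw [norm_e, norm_e]; norm_num
  refine (sum_le_sum h).trans ?_
  rw [sum_const, card_range, nsmul_eq_mul]
  exact (mul_comm _ _).le

end ModCO1

open ModCO1

theorem mCO1 (hC1L : StmC1L) : StmCO1 := by
  intro d α a hirr ha0 hsum S hS hlim
  obtain ⟨s, hs⟩ := hC1L d
  have hsa : Summable fun Q => ‖a Q‖ := by simpa using hsum 0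
  -- the sums
  have hterm : ∀ c : (Fin d → ℤ) → ℝ, Summable fun Q => a Q * e (c Q) := by
    intro c
    refine Summable.of_norm ?_
    simpa [norm_mul, norm_e] using hsa
  have hformula : ∀ n : ℕ, ((S n + S (-(n : ℤ)) - 2 * S 0 : ℝ) : ℂ) =
      ∑' Q, a Q * W (tf α Q) n := by
    intro n
    induction n with
    | zero =>
      simp only [W, range_zero, sum_empty, mul_zero, tsum_zero]
      push_cast
      simp
      ring
    | succ n ih =>
      have h1 := hS (n : ℤ)
      have h2 := hS (-((n : ℤ) + 1))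
      have e1 : -((n : ℤ) + 1) + 1 = -(n : ℤ) := by ring
      rw [e1] at h2
      have e2 : ((n + 1 : ℕ) : ℤ) = (n : ℤ) + 1 := by push_cast; ring
      have hsumW : Summable fun Q => a Q * W (tf α Q) n := by
        refine Summable.of_norm_bounded (g := fun Q => ‖a Q‖ * (2 * n)) (hsa.mul_right _) ?_
        intro Q
        rw [norm_mul]
        exact mul_le_mul_of_nonneg_left (norm_W_le _ _) (norm_nonneg _)
      have hs1 := hterm (fun Q => ((n : ℤ) : ℝ) * tf α Q)
      have hs2 := hterm (fun Q => ((-((n : ℤ) + 1) : ℤ) : ℝ) * tf α Q)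
      have hW : ∀ Q, a Q * W (tf α Q) (n + 1) = a Q * W (tf α Q) n +
          (a Q * e (((n : ℤ) : ℝ) * tf α Q) - a Q * e (((-((n : ℤ) + 1) : ℤ) : ℝ) * tf α Q)) := by
        intro Q
        unfold W
        rw [sum_range_succ]
        push_cast
        ring
      rw [tsum_congr hW, hsumW.tsum_add (hs1.sub hs2), hs1.tsum_sub hs2, ← ih, ← h1, ← h2, e2]
      push_cast
      ring
  -- the bound
  set B : ℝ := ∑' Q, ‖a Q‖ * (Real.pi ^ 2 * ‖Q‖ ^ s) with hB
  have hsB : Summable fun Q => ‖a Q‖ * (Real.pi ^ 2 * ‖Q‖ ^ s) := by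
    have := (hsum s).mul_left (Real.pi ^ 2)
    refine this.congr fun Q => ?_
    ring
  rw [tendsto_atTop] at hlim
  obtain ⟨M, hM⟩ := eventually_atTop.1 (hlim (2 * S 0 + B + 1))
  obtain ⟨n, hn, hQ⟩ := hs α M
  have h1 := hM n hn
  have h2 : ‖((S n + S (-(n : ℤ)) - 2 * S 0 : ℝ) : ℂ)‖ ≤ B := by
    rw [hformula n]
    refine tsum_of_norm_bounded hsB.hasSum ?_
    intro Q
    rw [norm_mul]
    by_cases hQ0 : Q = 0
    · rw [hQ0, ha0, norm_zero, zero_mul, zero_mul]
    · refine mul_le_mul_of_nonneg_left ?_ (norm_nonneg _)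
      refine W_bound _ _ _ ?_ (hQ Q hQ0)
      unfold nd
      rw [abs_pos, sub_ne_zero]
      exact hirr Q hQ0 (round (tf α Q))
  rw [Complex.norm_real, Real.norm_eq_abs] at h2
  have h3 := (le_abs_self _).trans h2
  linarith

end Pool.Agent.T6.H46.CZ
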