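import Pool.Agent.T6.H46.CZ.Stm

/-!
# Project CZ, module CNT
-/

set_option autoImplicit false

namespace Pool.Agent.T6.H46.CZ

open Finset Filter

theorem cnt_chain {ι : Type} [DecidableEq ι] (f s : ι → ℝ) (hs : ∀ Q, |s Q| = f Q) :
    ∀ S : Finset ι, (∀ Q ∈ S, 0 < f Q) → ∃ L : Finset ι, L ⊆ S ∧
      (∀ Q ∈ S, ∃ P ∈ L, f P / 4 ≤ f Q ∧ f Q ≤ f P) ∧
      ∀ δ : ι → ℤ, (∀ Q, |δ Q| ≤ 1) →
        (∀ M : ℝ, 0 ≤ M → (∀ Q ∈ S, f Q ≤ M) → |∑ Q ∈ L, (δ Q : ℝ) * s Q| ≤ 4 / 3 * M) ∧
        ((∃ Q ∈ L, δ Q ≠ 0) → ∑ Q ∈ L, (δ Q : ℝ) * s Q ≠ 0) := by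
  intro S
  induction S using Finset.strongInduction with
  | H S ih =>
    intro hpos
    rcases S.eq_empty_or_nonempty with rfl | hne
    · refine ⟨∅, Finset.Subset.refl _, by simp, ?_⟩
      intro δ _
      refine ⟨?_, by simp⟩
      intro M hM _
      simp only [Finset.sum_empty, abs_zero]
      positivity
    · obtain ⟨P, hPS, hPmax⟩ := S.exists_max_image f hne
      set S' := S.filter (fun Q => f Q < f P / 4) with hS'
      have hfP : 0 < f P := hpos P hPS
      have hPS' : P ∉ S' := by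
        simp only [hS', Finset.mem_filter, not_and, not_lt]
        intro _; linarith
      have hss : S' ⊂ S := by
        refine Finset.ssubset_iff_subset_ne.mpr ⟨Finset.filter_subset _ _, ?_⟩
        intro h
        exact hPS' (h ▸ hPS)
      obtain ⟨L', hL'S, hcov, hδ⟩ := ih S' hss (fun Q hQ => hpos Q (hss.1 hQ))
      have hPL' : P ∉ L' := fun h => hPS' (hL'S h)
      refine ⟨insert P L', ?_, ?_, ?_⟩
      · intro x hx
        rcases Finset.mem_insert.mp hx with rfl | hx
        · exact hPS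
        · exact hss.1 (hL'S hx)
      · intro Q hQ
        by_cases h : f Q < f P / 4
        · obtain ⟨P', hP', h1, h2⟩ := hcov Q (by simp only [hS', Finset.mem_filter]; exact ⟨hQ, h⟩)
          exact ⟨P', Finset.mem_insert_of_mem hP', h1, h2⟩
        · exact ⟨P, Finset.mem_insert_self _ _, not_lt.mp h, hPmax Q hQ⟩
      · intro δ hδ1
        obtain ⟨h1, h2⟩ := hδ δ hδ1
        have hb : |∑ Q ∈ L', (δ Q : ℝ) * s Q| ≤ f P / 3 := by
          have := h1 (f P / 4) (by positivity) (by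
            intro Q hQ
            simp only [hS', Finset.mem_filter] at hQ
            exact hQ.2.le)
          linarith
        have hsum : ∑ Q ∈ insert P L', (δ Q : ℝ) * s Q =
            (δ P : ℝ) * s P + ∑ Q ∈ L', (δ Q : ℝ) * s Q := Finset.sum_insert hPL'
        have hδP : |(δ P : ℝ)| ≤ 1 := by
          have := hδ1 P
          exact_mod_cast this
        have hP1 : |(δ P : ℝ) * s P| ≤ f P := by
          rw [abs_mul, hs P]
          nlinarith
        constructor
        · intro M hM hSM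
          rw [hsum]
          have h3 := abs_add_le ((δ P : ℝ) * s P) (∑ Q ∈ L', (δ Q : ℝ) * s Q)
          have h4 := hSM P hPS
          linarith
        · rintro ⟨Q, hQ, hQ0⟩
          rw [hsum]
          by_cases hP0 : δ P = 0
          · rw [hP0]
            simp only [Int.cast_zero, zero_mul, zero_add]
            apply h2
            rcases Finset.mem_insert.mp hQ with rfl | hQ
            · exact absurd hP0 hQ0
            · exact ⟨Q, hQ, hQ0⟩
          · intro hz
            have h5 : |(δ P : ℝ)| = 1 := by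
              have h6 : 1 ≤ |δ P| := Int.one_le_abs hP0
              have h7 : |δ P| = 1 := le_antisymm (hδ1 P) h6
              exact_mod_cast h7
            have h8 : |(δ P : ℝ) * s P| = f P := by rw [abs_mul, hs P, h5, one_mul]
            have h9 : (δ P : ℝ) * s P = -∑ Q ∈ L', (δ Q : ℝ) * s Q := by linarith
            rw [h9, abs_neg] at h8
            linarith

theorem cnt_tf_sum {d : ℕ} (α : Fin d → ℝ) (A : Finset (Fin d → ℤ)) :
    tf α (∑ Q ∈ A, Q) = ∑ Q ∈ A, tf α Q := by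
  unfold tf
  rw [Finset.sum_comm]
  refine Finset.sum_congr rfl fun i _ => ?_
  rw [← Finset.sum_mul, Finset.sum_apply]
  push_cast
  rfl

theorem cnt_mu_eq {d : ℕ} (α : Fin d → ℝ) (Q : Fin d → ℤ) :
    mu α Q = Real.sin (Real.pi * nd (tf α Q)) ^ 2 := by
  unfold mu nd
  set t := tf α Q with ht
  have h1 : Real.pi * t = Real.pi * (t - round t) + (round t : ℤ) * Real.pi := by ring
  rw [h1, Real.sin_add_int_mul_pi, mul_pow]
  have h2 : (((-1 : ℝ) ^ (round t)) ^ 2) = 1 := by
    rcases Int.even_or_odd (round t) with h | h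
    · rw [h.neg_one_zpow]; norm_num
    · rw [h.neg_one_zpow]; norm_num
  rw [h2, one_mul]
  rcases abs_choice (t - round t) with h | h
  · rw [h]
  · rw [h, mul_neg, Real.sin_neg, neg_sq]

theorem cnt_mu_bounds {d : ℕ} (α : Fin d → ℝ) (P Q : Fin d → ℤ)
    (h1 : nd (tf α P) / 4 ≤ nd (tf α Q)) (h2 : nd (tf α Q) ≤ nd (tf α P)) :
    mu α P / 64 ≤ mu α Q ∧ mu α Q ≤ mu α P := by
  have hP2 : nd (tf α P) ≤ 1 / 2 := abs_sub_round _
  have hP0 : 0 ≤ nd (tf α P) := abs_nonneg _
  have hQ0 : 0 ≤ nd (tf α Q) := abs_nonneg _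
  have hpi := Real.pi_pos
  rw [cnt_mu_eq, cnt_mu_eq]
  set x := nd (tf α P) with hx
  set y := nd (tf α Q) with hy
  have hxpi : Real.pi * x ≤ Real.pi / 2 := by nlinarith
  have hypi : Real.pi * y ≤ Real.pi / 2 := by nlinarith
  have hs1 : 0 ≤ Real.sin (Real.pi * y) :=
    Real.sin_nonneg_of_nonneg_of_le_pi (by positivity) (by linarith)
  have hs2 : 0 ≤ Real.sin (Real.pi * x) :=
    Real.sin_nonneg_of_nonneg_of_le_pi (by positivity) (by linarith)
  have hle : Real.sin (Real.pi * y) ≤ Real.sin (Real.pi * x) := by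
    apply Real.sin_le_sin_of_le_of_le_pi_div_two _ hxpi (by nlinarith)
    have : 0 ≤ Real.pi * y := by positivity
    linarith
  have hlow : 2 * y ≤ Real.sin (Real.pi * y) := by
    have h := Real.mul_le_sin (x := Real.pi * y) (by positivity) hypi
    have h' : 2 / Real.pi * (Real.pi * y) = 2 * y := by field_simp
    linarith
  have hup : Real.sin (Real.pi * x) ≤ 4 * x := by
    have h := Real.sin_le (x := Real.pi * x) (by positivity)
    have h' := Real.pi_le_four
    nlinarith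
  constructor
  · have h5 : Real.sin (Real.pi * x) ≤ 8 * Real.sin (Real.pi * y) := by linarith
    nlinarith
  · exact pow_le_pow_left₀ hs1 hle 2

theorem cnt_pow_bound (d : ℕ) : ∃ C : ℝ, 1 ≤ C ∧ ∀ k : ℕ, (k : ℝ) ^ (2 * d) ≤ C * 2 ^ k := by
  have h := tendsto_pow_const_div_const_pow_of_one_lt (2 * d) (r := (2 : ℝ)) (by norm_num)
  obtain ⟨C, hC⟩ := h.bddAbove_range
  refine ⟨max C 1, le_max_right _ _, fun k => ?_⟩
  have h1 : (k : ℝ) ^ (2 * d) / 2 ^ k ≤ C := hC ⟨k, rfl⟩
  have h2 : (0 : ℝ) < 2 ^ k := by positivity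
  rw [div_le_iff₀ h2] at h1
  exact h1.trans (mul_le_mul_of_nonneg_right (le_max_left _ _) h2.le)

theorem mCNT : StmCNT := by
  intro d
  obtain ⟨C0, hC0, hC0k⟩ := cnt_pow_bound d
  refine ⟨3 ^ (2 * d) * C0, by positivity, ?_⟩
  intro α hα R hR
  classical
  set N : ℕ := ⌊R⌋₊ with hN
  have hNR : (N : ℝ) ≤ R := Nat.floor_le (by linarith)
  set T : Finset (Fin d → ℤ) :=
    (Fintype.piFinset (fun _ : Fin d => Finset.Icc (-(N : ℤ)) N)).filter (fun Q => Q ≠ 0) with hT
  have hTpos : ∀ Q ∈ T, 0 < nd (tf α Q) := by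
    intro Q hQ
    have hQ0 : Q ≠ 0 := (Finset.mem_filter.mp hQ).2
    unfold nd
    rw [abs_pos, sub_ne_zero]
    exact hα Q hQ0 _
  obtain ⟨L, hLT, hcov, hδ⟩ := cnt_chain (fun Q => nd (tf α Q))
    (fun Q => tf α Q - round (tf α Q)) (fun Q => rfl) T hTpos
  set k := L.card with hk
  -- the subset sums are distinct
  have hinj : Set.InjOn (fun A : Finset (Fin d → ℤ) => ∑ Q ∈ A, Q) (L.powerset : Set _) := by
    intro A hA B hB hAB
    have hA' : A ⊆ L := Finset.mem_powerset.mp (Finset.mem_coe.mp hA)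
    have hB' : B ⊆ L := Finset.mem_powerset.mp (Finset.mem_coe.mp hB)
    by_contra hne
    set δ : (Fin d → ℤ) → ℤ := fun Q => (if Q ∈ A then 1 else 0) - (if Q ∈ B then 1 else 0) with hδd
    have hδ1 : ∀ Q, |δ Q| ≤ 1 := by
      intro Q
      simp only [hδd]
      split_ifs <;> norm_num
    obtain ⟨h1, h2⟩ := hδ δ hδ1
    have hex : ∃ Q ∈ L, δ Q ≠ 0 := by
      by_contra hno
      push Not at hno
      apply hne
      ext Q
      constructor
      · intro hQ
        have := hno Q (hA' hQ)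
        simp only [hδd, hQ, if_true] at this
        by_contra hQB
        simp only [hQB, if_false] at this
        omega
      · intro hQ
        have := hno Q (hB' hQ)
        simp only [hδd, hQ, if_true] at this
        by_contra hQA
        simp only [hQA, if_false] at this
        omega
    have h3 := h2 hex
    have h4 := h1 (1 / 2) (by norm_num) (fun Q _ => abs_sub_round _)
    have key : ∀ g : (Fin d → ℤ) → ℝ, ∑ Q ∈ L, (δ Q : ℝ) * g Q = ∑ Q ∈ A, g Q - ∑ Q ∈ B, g Q := by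
      intro g
      have e1 : ∀ A' : Finset (Fin d → ℤ), A' ⊆ L →
          ∑ Q ∈ A', g Q = ∑ Q ∈ L, (if Q ∈ A' then g Q else 0) := by
        intro A' hA'
        rw [← Finset.sum_filter]
        congr 1
        ext x
        simp only [Finset.mem_filter]
        exact ⟨fun h => ⟨hA' h, h⟩, fun h => h.2⟩
      rw [e1 A hA', e1 B hB', ← Finset.sum_sub_distrib]
      refine Finset.sum_congr rfl fun Q _ => ?_
      simp only [hδd]
      split_ifs <;> simp
    have h5 : ∑ Q ∈ L, (δ Q : ℝ) * (tf α Q - round (tf α Q)) =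
        -(((∑ Q ∈ A, round (tf α Q) - ∑ Q ∈ B, round (tf α Q) : ℤ)) : ℝ) := by
      rw [key, Finset.sum_sub_distrib, Finset.sum_sub_distrib, ← cnt_tf_sum, ← cnt_tf_sum]
      have : (∑ Q ∈ A, Q : Fin d → ℤ) = ∑ Q ∈ B, Q := hAB
      rw [this]
      push_cast
      ring
    rw [h5] at h3 h4
    rw [abs_neg] at h4
    have h6 : |(∑ Q ∈ A, round (tf α Q) - ∑ Q ∈ B, round (tf α Q) : ℤ)| < 1 := by
      have h7 : |(((∑ Q ∈ A, round (tf α Q) - ∑ Q ∈ B, round (tf α Q) : ℤ)) : ℝ)| < 1 := by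
        linarith
      exact_mod_cast h7
    have h8 := Int.abs_lt_one_iff.mp h6
    rw [h8] at h3
    simp at h3
  have hcard : 2 ^ k ≤ (2 * (k * N) + 1) ^ d := by
    have hmap : ∀ A ∈ L.powerset, (∑ Q ∈ A, Q) ∈
        Fintype.piFinset (fun _ : Fin d => Finset.Icc (-((k * N : ℕ) : ℤ)) ((k * N : ℕ) : ℤ)) := by
      intro A hA
      have hA' : A ⊆ L := Finset.mem_powerset.mp hA
      rw [Fintype.mem_piFinset]
      intro i
      rw [Finset.mem_Icc, ← abs_le, Finset.sum_apply]
      calc |∑ Q ∈ A, Q i| ≤ ∑ Q ∈ A, |Q i| := Finset.abs_sum_le_sum_abs _ _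
        _ ≤ ∑ _Q ∈ A, (N : ℤ) := by
            refine Finset.sum_le_sum fun Q hQ => ?_
            have h1 := (Finset.mem_filter.mp (hLT (hA' hQ))).1
            have h2 := Fintype.mem_piFinset.mp h1 i
            rw [Finset.mem_Icc, ← abs_le] at h2
            exact h2
        _ = (A.card : ℤ) * N := by rw [Finset.sum_const, nsmul_eq_mul]
        _ ≤ (k : ℤ) * N := by
            have : A.card ≤ k := Finset.card_le_card hA'
            exact mul_le_mul_of_nonneg_right (by exact_mod_cast this) (by positivity)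
        _ = ((k * N : ℕ) : ℤ) := by push_cast; ring
    have h1 := Finset.card_le_card_of_injOn (fun A : Finset (Fin d → ℤ) => ∑ Q ∈ A, Q) hmap hinj
    rw [Finset.card_powerset, Fintype.card_piFinset] at h1
    simp only [Int.card_Icc, Finset.prod_const, Finset.card_univ, Fintype.card_fin] at h1
    have h2 : (((k * N : ℕ) : ℤ) + 1 - -((k * N : ℕ) : ℤ)).toNat = 2 * (k * N) + 1 := by omega
    rw [h2] at h1
    exact h1
  have hmain : (2 : ℝ) ^ k ≤ 3 ^ (2 * d) * C0 * R ^ (2 * d) := by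
    rcases Nat.eq_zero_or_pos k with h0 | hkpos
    · rw [h0, pow_zero]
      have a1 : (1 : ℝ) ≤ 3 ^ (2 * d) := one_le_pow₀ (by norm_num)
      have a2 : (1 : ℝ) ≤ R ^ (2 * d) := one_le_pow₀ hR
      have a3 : (1 : ℝ) ≤ 3 ^ (2 * d) * C0 := by nlinarith
      nlinarith
    · have hk1 : (1 : ℝ) ≤ k := by exact_mod_cast hkpos
      have b1 : (2 : ℝ) ^ k ≤ (2 * (k * N) + 1) ^ d := by exact_mod_cast hcard
      have b2 : (2 * ((k : ℝ) * N) + 1) ^ d ≤ (3 * k * R) ^ d := by
        apply pow_le_pow_left₀ (by positivity)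
        have : (k : ℝ) * N ≤ k * R := mul_le_mul_of_nonneg_left hNR (by positivity)
        nlinarith
      have b3 : (2 : ℝ) ^ k ≤ (3 * k * R) ^ d := b1.trans b2
      have b4 : ((2 : ℝ) ^ k) ^ 2 ≤ ((3 * k * R) ^ d) ^ 2 := pow_le_pow_left₀ (by positivity) b3 2
      have b5 : ((3 * (k : ℝ) * R) ^ d) ^ 2 = 3 ^ (2 * d) * (k : ℝ) ^ (2 * d) * R ^ (2 * d) := by
        rw [← pow_mul, mul_comm d 2, mul_pow, mul_pow]
      have b6 : ((2 : ℝ) ^ k) ^ 2 ≤ (3 ^ (2 * d) * C0 * R ^ (2 * d)) * 2 ^ k := by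
        rw [b5] at b4
        refine b4.trans ?_
        have := hC0k k
        have c1 : (0 : ℝ) ≤ 3 ^ (2 * d) := by positivity
        have c2 : (0 : ℝ) ≤ R ^ (2 * d) := by positivity
        calc (3 : ℝ) ^ (2 * d) * (k : ℝ) ^ (2 * d) * R ^ (2 * d)
            ≤ 3 ^ (2 * d) * (C0 * 2 ^ k) * R ^ (2 * d) :=
              mul_le_mul_of_nonneg_right (mul_le_mul_of_nonneg_left this c1) c2
          _ = (3 ^ (2 * d) * C0 * R ^ (2 * d)) * 2 ^ k := by ring
      have b7 : (0 : ℝ) < 2 ^ k := by positivity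
      rw [pow_two] at b6
      exact le_of_mul_le_mul_right b6 b7
  refine ⟨L.image (mu α), ?_, ?_, ?_⟩
  · intro θ hθ
    obtain ⟨P, hP, rfl⟩ := Finset.mem_image.mp hθ
    have hp := hTpos P (hLT hP)
    constructor
    · have h1 := cnt_mu_eq α P
      have hP2 : nd (tf α P) ≤ 1 / 2 := abs_sub_round _
      have hpi := Real.pi_pos
      rw [h1]
      apply pow_pos
      exact Real.sin_pos_of_pos_of_lt_pi (by positivity) (by nlinarith)
    · unfold mu
      exact Real.sin_sq_le_one _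
  · calc (2 : ℝ) ^ (L.image (mu α)).card ≤ 2 ^ k :=
          pow_le_pow_right₀ (by norm_num) Finset.card_image_le
      _ ≤ _ := hmain
  · intro Q hQ0 hQR
    have hQT : Q ∈ T := by
      rw [hT, Finset.mem_filter]
      refine ⟨?_, hQ0⟩
      rw [Fintype.mem_piFinset]
      intro i
      rw [Finset.mem_Icc, ← abs_le]
      have h1 : ‖Q i‖ ≤ R := (norm_le_pi_norm Q i).trans hQR
      rw [Int.norm_eq_abs] at h1
      have h2 : ((Q i).natAbs : ℝ) ≤ R := by
        rw [Nat.cast_natAbs]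
        push_cast
        exact h1
      have h3 : (Q i).natAbs ≤ N := Nat.le_floor h2
      rw [Int.abs_eq_natAbs]
      exact_mod_cast h3
    obtain ⟨P, hP, h1, h2⟩ := hcov Q hQT
    exact ⟨mu α P, Finset.mem_image_of_mem _ hP, cnt_mu_bounds α P Q h1 h2⟩

end Pool.Agent.T6.H46.CZ
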