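import Pool.Agent.T6.H46.CZ.Stm2
import Pool.Agent.T6.H46.CZ.CNT

/-!
# Project CZ, module CT2: chains of linear forms of rapidly decreasing size are short
-/

set_option autoImplicit false

namespace Pool.Agent.T6.H46.CZ

open Finset Filter

theorem mCT2 : StmCT2 := by
  intro d
  obtain ⟨C0, hC0, hC0k⟩ := cnt_pow_bound d
  refine ⟨3 ^ (2 * d) * C0, by positivity, ?_⟩
  intro α hα R hR k q hq hdec
  classical
  set N : ℕ := ⌊R⌋₊ with hN
  have hNR : (N : ℝ) ≤ R := Nat.floor_le (by linarith)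
  have hnd0 : ∀ x : ℝ, 0 ≤ nd x := fun x => abs_nonneg _
  have hnd : ∀ j i : ℕ, i < j → j < k → 4 * nd (tf α (q j)) < nd (tf α (q i)) := by
    intro j
    induction j with
    | zero => intro i hi _; omega
    | succ j ih =>
      intro i hi hj
      have h1 := hdec j hj
      rcases Nat.lt_or_ge i j with h | h
      · have h2 := ih i h (by omega)
        have h3 := hnd0 (tf α (q j))
        linarith
      · have : i = j := by omega
        rw [this]
        exact h1
  have hinjq : Set.InjOn q (Finset.range k : Set ℕ) := by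
    intro i hi j hj hij
    have hi' : i < k := Finset.mem_range.mp (Finset.mem_coe.mp hi)
    have hj' : j < k := Finset.mem_range.mp (Finset.mem_coe.mp hj)
    rcases lt_trichotomy i j with h | h | h
    · have h1 := hnd j i h hj'
      rw [hij] at h1
      have := hnd0 (tf α (q j))
      linarith
    · exact h
    · have h1 := hnd i j h hi'
      rw [hij] at h1
      have := hnd0 (tf α (q j))
      linarith
  set L : Finset (Fin d → ℤ) := (Finset.range k).image q with hL
  have hLk : L.card = k := by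
    rw [hL, Finset.card_image_of_injOn hinjq, Finset.card_range]
  set T : Finset (Fin d → ℤ) :=
    (Fintype.piFinset (fun _ : Fin d => Finset.Icc (-(N : ℤ)) N)).filter (fun Q => Q ≠ 0) with hT
  have hLT : L ⊆ T := by
    intro Q hQ
    obtain ⟨i, hi, rfl⟩ := Finset.mem_image.mp hQ
    obtain ⟨hQ0, hQR⟩ := hq i (Finset.mem_range.mp hi)
    rw [hT, Finset.mem_filter]
    refine ⟨?_, hQ0⟩
    rw [Fintype.mem_piFinset]
    intro l
    rw [Finset.mem_Icc, ← abs_le]
    have h1 : ‖(q i) l‖ ≤ R := (norm_le_pi_norm (q i) l).trans hQR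
    rw [Int.norm_eq_abs] at h1
    have h2 : (((q i) l).natAbs : ℝ) ≤ R := by
      rw [Nat.cast_natAbs]
      push_cast
      exact h1
    have h3 : ((q i) l).natAbs ≤ N := Nat.le_floor h2
    rw [Int.abs_eq_natAbs]
    exact_mod_cast h3
  have hpos : ∀ Q ∈ L, 0 < nd (tf α Q) := by
    intro Q hQ
    have hQ0 : Q ≠ 0 := (Finset.mem_filter.mp (hLT hQ)).2
    unfold nd
    rw [abs_pos, sub_ne_zero]
    exact hα Q hQ0 _
  obtain ⟨L', hL'L, hcov, hδ⟩ := cnt_chain (fun Q => nd (tf α Q))
    (fun Q => tf α Q - round (tf α Q)) (fun Q => rfl) L hpos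
  have hLL : L' = L := by
    apply Finset.Subset.antisymm hL'L
    intro Q hQ
    obtain ⟨P, hP, h1, h2⟩ := hcov Q hQ
    obtain ⟨i, hi, hiQ⟩ := Finset.mem_image.mp hQ
    obtain ⟨j, hj, hjP⟩ := Finset.mem_image.mp (hL'L hP)
    rw [Finset.mem_range] at hi hj
    have h0 := hpos Q hQ
    rcases lt_trichotomy i j with h | h | h
    · have h3 := hnd j i h hj
      rw [hiQ, hjP] at h3
      have h4 : nd (tf α Q) ≤ nd (tf α P) := h2
      linarith
    · have : Q = P := by rw [← hiQ, ← hjP, h]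
      rw [this]
      exact hP
    · have h3 := hnd i j h hi
      rw [hiQ, hjP] at h3
      have h4 : nd (tf α P) / 4 ≤ nd (tf α Q) := h1
      linarith
  rw [hLL] at hδ
  -- the subset sums are distinct
  have hinj : Set.InjOn (fun A : Finset (Fin d → ℤ) => ∑ Q ∈ A, Q) (L.powerset : Set _) := by
    intro A hA B hB hAB
    have hA' : A ⊆ L := Finset.mem_powerset.mp (Finset.mem_coe.mp hA)
    have hB' : B ⊆ L := Finset.mem_powerset.mp (Finset.mem_coe.mp hB)
    by_contra hne
    set δ : (Fin d → ℤ) → ℤ := fun Q => (if Q ∈ A then 1 else 0) - (if Q ∈ B then 1 else 0) with hδd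
    have hδ1 : ∀ Q, |δ Q| ≤ 1 := by
      intro Q
      simp only [hδd]
      split_ifs <;> norm_num
    obtain ⟨h1, h2⟩ := hδ δ hδ1
    have hex : ∃ Q ∈ L, δ Q ≠ 0 := by
      by_contra hno
      push Not at hno
      apply hne
      ext Q
      constructor
      · intro hQ
        have := hno Q (hA' hQ)
        simp only [hδd, hQ, if_true] at this
        by_contra hQB
        simp only [hQB, if_false] at this
        omega
      · intro hQ
        have := hno Q (hB' hQ)
        simp only [hδd, hQ, if_true] at this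
        by_contra hQA
        simp only [hQA, if_false] at this
        omega
    have h3 := h2 hex
    have h4 := h1 (1 / 2) (by norm_num) (fun Q _ => abs_sub_round _)
    have key : ∀ g : (Fin d → ℤ) → ℝ, ∑ Q ∈ L, (δ Q : ℝ) * g Q = ∑ Q ∈ A, g Q - ∑ Q ∈ B, g Q := by
      intro g
      have e1 : ∀ A' : Finset (Fin d → ℤ), A' ⊆ L →
          ∑ Q ∈ A', g Q = ∑ Q ∈ L, (if Q ∈ A' then g Q else 0) := by
        intro A' hA'
        rw [← Finset.sum_filter]
        congr 1
        ext x
        simp only [Finset.mem_filter]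
        exact ⟨fun h => ⟨hA' h, h⟩, fun h => h.2⟩
      rw [e1 A hA', e1 B hB', ← Finset.sum_sub_distrib]
      refine Finset.sum_congr rfl fun Q _ => ?_
      simp only [hδd]
      split_ifs <;> simp
    have h5 : ∑ Q ∈ L, (δ Q : ℝ) * (tf α Q - round (tf α Q)) =
        -(((∑ Q ∈ A, round (tf α Q) - ∑ Q ∈ B, round (tf α Q) : ℤ)) : ℝ) := by
      rw [key, Finset.sum_sub_distrib, Finset.sum_sub_distrib, ← cnt_tf_sum, ← cnt_tf_sum]
      have : (∑ Q ∈ A, Q : Fin d → ℤ) = ∑ Q ∈ B, Q := hAB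
      rw [this]
      push_cast
      ring
    rw [h5] at h3 h4
    rw [abs_neg] at h4
    have h6 : |(∑ Q ∈ A, round (tf α Q) - ∑ Q ∈ B, round (tf α Q) : ℤ)| < 1 := by
      have h7 : |(((∑ Q ∈ A, round (tf α Q) - ∑ Q ∈ B, round (tf α Q) : ℤ)) : ℝ)| < 1 := by
        linarith
      exact_mod_cast h7
    have h8 := Int.abs_lt_one_iff.mp h6
    rw [h8] at h3
    simp at h3
  have hcard : 2 ^ k ≤ (2 * (k * N) + 1) ^ d := by
    have hmap : ∀ A ∈ L.powerset, (∑ Q ∈ A, Q) ∈
        Fintype.piFinset (fun _ : Fin d => Finset.Icc (-((k * N : ℕ) : ℤ)) ((k * N : ℕ) : ℤ)) := by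
      intro A hA
      have hA' : A ⊆ L := Finset.mem_powerset.mp hA
      rw [Fintype.mem_piFinset]
      intro i
      rw [Finset.mem_Icc, ← abs_le, Finset.sum_apply]
      calc |∑ Q ∈ A, Q i| ≤ ∑ Q ∈ A, |Q i| := Finset.abs_sum_le_sum_abs _ _
        _ ≤ ∑ _Q ∈ A, (N : ℤ) := by
            refine Finset.sum_le_sum fun Q hQ => ?_
            have h1 := (Finset.mem_filter.mp (hLT (hA' hQ))).1
            have h2 := Fintype.mem_piFinset.mp h1 i
            rw [Finset.mem_Icc, ← abs_le] at h2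
            exact h2
        _ = (A.card : ℤ) * N := by rw [Finset.sum_const, nsmul_eq_mul]
        _ ≤ (k : ℤ) * N := by
            have : A.card ≤ k := (Finset.card_le_card hA').trans hLk.le
            exact mul_le_mul_of_nonneg_right (by exact_mod_cast this) (by positivity)
        _ = ((k * N : ℕ) : ℤ) := by push_cast; ring
    have h1 := Finset.card_le_card_of_injOn (fun A : Finset (Fin d → ℤ) => ∑ Q ∈ A, Q) hmap hinj
    rw [Finset.card_powerset, Fintype.card_piFinset, hLk] at h1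
    simp only [Int.card_Icc, Finset.prod_const, Finset.card_univ, Fintype.card_fin] at h1
    have h2 : (((k * N : ℕ) : ℤ) + 1 - -((k * N : ℕ) : ℤ)).toNat = 2 * (k * N) + 1 := by omega
    rw [h2] at h1
    exact h1
  have hmain : (2 : ℝ) ^ k ≤ 3 ^ (2 * d) * C0 * R ^ (2 * d) := by
    rcases Nat.eq_zero_or_pos k with h0 | hkpos
    · rw [h0, pow_zero]
      have a1 : (1 : ℝ) ≤ 3 ^ (2 * d) := one_le_pow₀ (by norm_num)
      have a2 : (1 : ℝ) ≤ R ^ (2 * d) := one_le_pow₀ hR
      have a3 : (1 : ℝ) ≤ 3 ^ (2 * d) * C0 := by nlinarith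
      nlinarith
    · have hk1 : (1 : ℝ) ≤ k := by exact_mod_cast hkpos
      have b1 : (2 : ℝ) ^ k ≤ (2 * (k * N) + 1) ^ d := by exact_mod_cast hcard
      have b2 : (2 * ((k : ℝ) * N) + 1) ^ d ≤ (3 * k * R) ^ d := by
        apply pow_le_pow_left₀ (by positivity)
        have : (k : ℝ) * N ≤ k * R := mul_le_mul_of_nonneg_left hNR (by positivity)
        nlinarith
      have b3 : (2 : ℝ) ^ k ≤ (3 * k * R) ^ d := b1.trans b2
      have b4 : ((2 : ℝ) ^ k) ^ 2 ≤ ((3 * k * R) ^ d) ^ 2 := pow_le_pow_left₀ (by positivity) b3 2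
      have b5 : ((3 * (k : ℝ) * R) ^ d) ^ 2 = 3 ^ (2 * d) * (k : ℝ) ^ (2 * d) * R ^ (2 * d) := by
        rw [← pow_mul, mul_comm d 2, mul_pow, mul_pow]
      have b6 : ((2 : ℝ) ^ k) ^ 2 ≤ (3 ^ (2 * d) * C0 * R ^ (2 * d)) * 2 ^ k := by
        rw [b5] at b4
        refine b4.trans ?_
        have := hC0k k
        have c1 : (0 : ℝ) ≤ 3 ^ (2 * d) := by positivity
        have c2 : (0 : ℝ) ≤ R ^ (2 * d) := by positivity
        calc (3 : ℝ) ^ (2 * d) * (k : ℝ) ^ (2 * d) * R ^ (2 * d)
            ≤ 3 ^ (2 * d) * (C0 * 2 ^ k) * R ^ (2 * d) :=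
              mul_le_mul_of_nonneg_right (mul_le_mul_of_nonneg_left this c1) c2
          _ = (3 ^ (2 * d) * C0 * R ^ (2 * d)) * 2 ^ k := by ring
      have b7 : (0 : ℝ) < 2 ^ k := by positivity
      rw [pow_two] at b6
      exact le_of_mul_le_mul_right b6 b7
  exact hmain

end Pool.Agent.T6.H46.CZ
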