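import Pool.Agent.T6.H46.CZ.Stm

/-! Project CZ (helper46), module DIR: simultaneous Dirichlet approximation. -/

set_option autoImplicit false

namespace Pool.Agent.T6.H46.CZ

open Finset

namespace DIR

theorem near {a b : ℝ} {N : ℕ} (hN : 1 ≤ N) (ha : 0 ≤ a) (hb : 0 ≤ b)
    (h : ⌊a * N⌋₊ = ⌊b * N⌋₊) : |a - b| ≤ 1 / N := by
  have hN' : (0 : ℝ) < N := by exact_mod_cast hN
  have h1 := Nat.floor_le (mul_nonneg ha hN'.le)
  have h2 := Nat.lt_floor_add_one (a * N)
  have h3 := Nat.floor_le (mul_nonneg hb hN'.le)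
  have h4 := Nat.lt_floor_add_one (b * N)
  rw [← h] at h3 h4
  rw [le_div_iff₀ hN']
  have e : |a - b| * N = |a * N - b * N| := by
    rw [← sub_mul, abs_mul, abs_of_pos hN']
  rw [e, abs_le]
  constructor <;> linarith

theorem nd_le (x : ℝ) (k : ℤ) : nd x ≤ |x - k| := round_le x k

end DIR

open DIR in
theorem mDIR : StmDIR := by
  classical
  intro d α N M hN hM
  have hN' : (0 : ℝ) < N := by exact_mod_cast hN
  let g : ℕ → (Fin d → ℕ) := fun j i => ⌊Int.fract ((j : ℝ) * M * α i) * N⌋₊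
  have hmaps : ∀ j ∈ range (N ^ d + 1), g j ∈ Fintype.piFinset (fun _ : Fin d => range N) := by
    intro j _
    rw [Fintype.mem_piFinset]
    intro i
    rw [mem_range]
    have h0 := Int.fract_nonneg ((j : ℝ) * M * α i)
    have h1 := Int.fract_lt_one ((j : ℝ) * M * α i)
    rw [Nat.floor_lt (mul_nonneg h0 hN'.le)]
    nlinarith
  have hcard : #(Fintype.piFinset (fun _ : Fin d => range N)) < #(range (N ^ d + 1)) := by
    rw [Fintype.card_piFinset]
    simp
  obtain ⟨j1, hj1, j2, hj2, hne, heq⟩ :=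
    Finset.exists_ne_map_eq_of_card_lt_of_maps_to hcard hmaps
  -- order them
  obtain ⟨a, b, hab, hb, hg⟩ : ∃ a b : ℕ, a < b ∧ b ≤ N ^ d ∧ g a = g b := by
    rw [mem_range] at hj1 hj2
    rcases lt_or_gt_of_ne hne with h | h
    · exact ⟨j1, j2, h, by omega, heq⟩
    · exact ⟨j2, j1, h, by omega, heq.symm⟩
  refine ⟨M * (b - a), ?_, ?_, ?_⟩
  · exact Nat.le_mul_of_pos_right _ (by omega)
  · exact Nat.mul_le_mul_left _ (by omega)
  · intro Q
    -- the integers
    let z : Fin d → ℤ := fun i => ⌊(b : ℝ) * M * α i⌋ - ⌊(a : ℝ) * M * α i⌋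
    have hz : ∀ i, |((M * (b - a) : ℕ) : ℝ) * α i - z i| ≤ 1 / N := by
      intro i
      have h1 := congrFun hg i
      have h2 := near hN (Int.fract_nonneg ((b : ℝ) * M * α i))
        (Int.fract_nonneg ((a : ℝ) * M * α i)) h1.symm
      have e : ((M * (b - a) : ℕ) : ℝ) * α i - z i =
          Int.fract ((b : ℝ) * M * α i) - Int.fract ((a : ℝ) * M * α i) := by
        simp only [z, Int.fract]
        rw [Nat.cast_mul, Nat.cast_sub hab.le]
        push_cast
        ring
      rw [e]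
      exact h2
    have h3 := nd_le (((M * (b - a) : ℕ) : ℝ) * tf α Q) (∑ i, Q i * z i)
    refine h3.trans ?_
    have e : ((M * (b - a) : ℕ) : ℝ) * tf α Q - ((∑ i, Q i * z i : ℤ) : ℝ) =
        ∑ i, (Q i : ℝ) * (((M * (b - a) : ℕ) : ℝ) * α i - z i) := by
      unfold tf
      rw [Int.cast_sum, Finset.mul_sum, ← Finset.sum_sub_distrib]
      refine Finset.sum_congr rfl fun i _ => ?_
      rw [Int.cast_mul]
      ring
    rw [e]
    calc |∑ i, (Q i : ℝ) * (((M * (b - a) : ℕ) : ℝ) * α i - z i)|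
        ≤ ∑ i, |(Q i : ℝ) * (((M * (b - a) : ℕ) : ℝ) * α i - z i)| :=
          Finset.abs_sum_le_sum_abs _ _
      _ ≤ ∑ _i : Fin d, ‖Q‖ * (1 / N) := by
          refine Finset.sum_le_sum fun i _ => ?_
          rw [abs_mul]
          have hQ : |(Q i : ℝ)| ≤ ‖Q‖ := by
            have := norm_le_pi_norm Q i
            rwa [Int.norm_eq_abs] at this
          exact mul_le_mul hQ (hz i) (abs_nonneg _) (norm_nonneg _)
      _ = d * ‖Q‖ / N := by
          rw [Finset.sum_const, Finset.card_univ, Fintype.card_fin, nsmul_eq_mul]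
          ring

end Pool.Agent.T6.H46.CZ
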