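import Pool.Agent.T6.H46.CZ.Stm

/-! Project CZ (helper46), module FOS: Fourier expansion of a smooth function on the torus. -/

set_option autoImplicit false

namespace Pool.Agent.T6.H46.CZ

open Finset

namespace FOS

/-! ### summability -/

theorem summable_one : Summable (fun n : ℤ => ((1 + |(n : ℝ)|) ^ 2)⁻¹) := by
  have h1 : Summable (fun n : ℤ => 1 / (n : ℝ) ^ 2) :=
    Real.summable_one_div_int_pow.2 (by norm_num)
  have h2 : Summable (fun n : ℤ => if n = 0 then (1 : ℝ) else 0) :=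
    (hasSum_ite_eq (0 : ℤ) (1 : ℝ)).summable
  refine Summable.of_nonneg_of_le (fun n => by positivity) (fun n => ?_) (h1.add h2)
  by_cases hn : n = 0
  · subst hn
    simp
  · rw [if_neg hn, add_zero, one_div]
    have hn' : 0 < |(n : ℝ)| := abs_pos.2 (by exact_mod_cast hn)
    have e : (n : ℝ) ^ 2 = |(n : ℝ)| ^ 2 := (sq_abs _).symm
    rw [e]
    apply inv_anti₀ (by positivity)
    apply pow_le_pow_left₀ hn'.le
    linarith

theorem summable_prod (d : ℕ) :
    Summable (fun Q : Fin d → ℤ => ∏ i, ((1 + |(Q i : ℝ)|) ^ 2)⁻¹) := by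
  induction d with
  | zero => exact Summable.of_finite
  | succ d ih =>
    have h := Summable.mul_of_nonneg summable_one ih (fun n => by positivity)
      (fun Q => Finset.prod_nonneg fun i _ => by positivity)
    have h2 := (Fin.consEquiv (fun _ : Fin (d + 1) => ℤ)).summable_iff
      (f := fun Q : Fin (d + 1) → ℤ => ∏ i, ((1 + |(Q i : ℝ)|) ^ 2)⁻¹)
    rw [← h2]
    refine h.congr fun x => ?_
    simp only [Function.comp_apply, Fin.consEquiv, Equiv.coe_fn_mk]
    rw [Fin.prod_univ_succ]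
    simp

theorem summable_of_decay (d s : ℕ) (a : (Fin d → ℤ) → ℂ) (B : ℝ)
    (hB : ∀ Q, Q ≠ 0 → ‖a Q‖ * ‖Q‖ ^ (s + 2 * d) ≤ B) :
    Summable fun Q => ‖a Q‖ * ‖Q‖ ^ s := by
  refine Summable.of_nonneg_of_le (fun Q => by positivity) (fun Q => ?_)
    ((summable_prod d).mul_left (4 ^ d * |B| + ‖a 0‖))
  have hp : 0 < ∏ i, (1 + |(Q i : ℝ)|) ^ 2 := Finset.prod_pos fun i _ => by positivity
  rw [Finset.prod_inv_distrib, ← div_eq_mul_inv, le_div_iff₀ hp]
  have hle : ∏ i, (1 + |(Q i : ℝ)|) ^ 2 ≤ (1 + ‖Q‖) ^ (2 * d) := by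
    calc ∏ i, (1 + |(Q i : ℝ)|) ^ 2 ≤ ∏ _i : Fin d, (1 + ‖Q‖) ^ 2 := by
          refine Finset.prod_le_prod (fun i _ => by positivity) fun i _ => ?_
          have := norm_le_pi_norm Q i
          rw [Int.norm_eq_abs] at this
          apply pow_le_pow_left₀ (by positivity)
          linarith
      _ = (1 + ‖Q‖) ^ (2 * d) := by
          rw [Finset.prod_const, Finset.card_univ, Fintype.card_fin, ← pow_mul]
  by_cases hQ : Q = 0
  · subst hQ
    have h1 : ‖a 0‖ * ‖(0 : Fin d → ℤ)‖ ^ s ≤ ‖a 0‖ := by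
      rw [norm_zero]
      have : (0 : ℝ) ^ s ≤ 1 := pow_le_one₀ le_rfl zero_le_one
      nlinarith [norm_nonneg (a 0)]
    have h2 : ∏ i : Fin d, (1 + |(((0 : Fin d → ℤ) i : ℤ) : ℝ)|) ^ 2 = 1 := by simp
    rw [h2, mul_one]
    have : 0 ≤ 4 ^ d * |B| := by positivity
    linarith
  · have hQ1 : 1 ≤ ‖Q‖ := by
      obtain ⟨i, hi⟩ : ∃ i, Q i ≠ 0 := by
        by_contra h
        push Not at h
        exact hQ (funext h)
      have h1 := norm_le_pi_norm Q i
      rw [Int.norm_eq_abs] at h1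
      have h2 : (1 : ℝ) ≤ |(Q i : ℝ)| := by
        exact_mod_cast Int.one_le_abs hi
      linarith
    have h4 : (1 + ‖Q‖) ^ (2 * d) ≤ 4 ^ d * ‖Q‖ ^ (2 * d) := by
      calc (1 + ‖Q‖) ^ (2 * d) ≤ (2 * ‖Q‖) ^ (2 * d) := by
            apply pow_le_pow_left₀ (by positivity)
            linarith
        _ = 4 ^ d * ‖Q‖ ^ (2 * d) := by
            rw [mul_pow, pow_mul]
            norm_num
    calc ‖a Q‖ * ‖Q‖ ^ s * ∏ i, (1 + |(Q i : ℝ)|) ^ 2
        ≤ ‖a Q‖ * ‖Q‖ ^ s * (4 ^ d * ‖Q‖ ^ (2 * d)) := by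
          have := hle.trans h4
          gcongr
      _ = 4 ^ d * (‖a Q‖ * ‖Q‖ ^ (s + 2 * d)) := by rw [pow_add]; ring
      _ ≤ 4 ^ d * |B| := by
          have := (hB Q hQ).trans (le_abs_self B)
          gcongr
      _ ≤ 4 ^ d * |B| + ‖a 0‖ := by
          have := norm_nonneg (a 0)
          linarith

/-! ### bounds for the derivatives -/

theorem coe_int_zero (z : ℤ) : ((z : ℝ) : UnitAddCircle) = 0 := by
  rw [AddCircle.coe_eq_zero_iff]
  exact ⟨z, by simp⟩

theorem deriv_bound (d : ℕ) (F : (Fin d → ℝ) → ℝ) (hF : ContDiff ℝ ((⊤ : ℕ∞) : WithTop ℕ∞) F)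
    (hper : ∀ (x : Fin d → ℝ) (z : Fin d → ℤ), F (x + fun i => (z i : ℝ)) = F x) (k : ℕ) :
    ∃ B : ℝ, 0 ≤ B ∧ ∀ (i : Fin d) (x : Fin d → ℝ),
      |iteratedDeriv k (fun s : ℝ => F (x + s • (Pi.single i (1 : ℝ) : Fin d → ℝ))) 0| ≤ B := by
  have hk : ((k : ℕ) : WithTop ℕ∞) ≤ ((⊤ : ℕ∞) : WithTop ℕ∞) := by exact_mod_cast le_top
  have hcont : Continuous fun x => iteratedFDeriv ℝ k F x := hF.continuous_iteratedFDeriv hk
  obtain ⟨C, hC⟩ := (isCompact_Icc (a := (0 : Fin d → ℝ)) (b := 1)).exists_bound_of_continuousOn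
    hcont.continuousOn
  have hall : ∀ x, ‖iteratedFDeriv ℝ k F x‖ ≤ C := by
    intro x
    have hy : (fun i => Int.fract (x i)) ∈ Set.Icc (0 : Fin d → ℝ) 1 :=
      ⟨fun i => Int.fract_nonneg _, fun i => (Int.fract_lt_one _).le⟩
    have h1 := hC _ hy
    have e : iteratedFDeriv ℝ k F x = iteratedFDeriv ℝ k F (fun i => Int.fract (x i)) := by
      have h2 := iteratedFDeriv_comp_add_right (𝕜 := ℝ) (f := F) k
        (fun i => ((⌊x i⌋ : ℤ) : ℝ)) (fun i => Int.fract (x i))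
      have h3 : (fun z => F (z + fun i => ((⌊x i⌋ : ℤ) : ℝ))) = F :=
        funext fun z => hper z _
      rw [h3] at h2
      rw [h2]
      congr 1
      funext i
      simp [Int.fract_add_floor]
    rw [e]
    exact h1
  have hC0 : 0 ≤ C := (norm_nonneg _).trans (hall 0)
  refine ⟨C, hC0, fun i x => ?_⟩
  set v : Fin d → ℝ := Pi.single i 1 with hv
  have hvn : ‖v‖ ≤ 1 := by
    rw [pi_norm_le_iff_of_nonneg zero_le_one]
    intro j
    rw [hv]
    by_cases hj : j = i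
    · subst hj
      simp
    · simp [Pi.single_eq_of_ne hj]
  let L : ℝ →L[ℝ] (Fin d → ℝ) := ContinuousLinearMap.toSpanSingleton ℝ v
  have hL : ‖L‖ ≤ 1 := by
    rw [ContinuousLinearMap.norm_toSpanSingleton]
    exact hvn
  have e1 : (fun s : ℝ => F (x + s • v)) = (fun y => F (x + y)) ∘ L := by
    funext s
    simp [L]
  rw [← Real.norm_eq_abs, ← norm_iteratedFDeriv_eq_norm_iteratedDeriv, e1]
  have hF2 : ContDiff ℝ ((⊤ : ℕ∞) : WithTop ℕ∞) (fun y => F (x + y)) :=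
    hF.comp (contDiff_const.add contDiff_id)
  rw [L.iteratedFDeriv_comp_right hF2 0 hk]
  refine (ContinuousMultilinearMap.norm_compContinuousLinearMap_le _ _).trans ?_
  rw [iteratedFDeriv_comp_add_left]
  have h5 : ∏ _i : Fin k, ‖L‖ ≤ 1 := by
    rw [Finset.prod_const]
    exact pow_le_one₀ (norm_nonneg _) hL
  calc ‖iteratedFDeriv ℝ k F (x + L 0)‖ * ∏ _i : Fin k, ‖L‖ ≤ C * 1 :=
        mul_le_mul (hall _) h5 (Finset.prod_nonneg fun _ _ => norm_nonneg _) hC0
    _ = C := mul_one C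

end FOS

open FOS in
theorem mFOS (hIBP : StmIBP) : StmFOS := by
  intro d φ hφ
  obtain ⟨a, h1, h2⟩ := hIBP d φ hφ
  have hper : ∀ (x : Fin d → ℝ) (z : Fin d → ℤ),
      (fun x : Fin d → ℝ => φ (fun i => (x i : UnitAddCircle))) (x + fun i => (z i : ℝ)) =
        (fun x : Fin d → ℝ => φ (fun i => (x i : UnitAddCircle))) x := by
    intro x z
    have e : (fun i => (((x + fun i => (z i : ℝ)) i : ℝ) : UnitAddCircle)) =
        fun i => ((x i : ℝ) : UnitAddCircle) := by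
      funext i
      rw [Pi.add_apply, AddCircle.coe_add, coe_int_zero, add_zero]
    change φ _ = φ _
    rw [e]
  have hsum : ∀ s : ℕ, Summable fun Q => ‖a Q‖ * ‖Q‖ ^ s := by
    intro s
    obtain ⟨B, hB0, hB⟩ := deriv_bound d _ hφ hper (s + 2 * d)
    refine summable_of_decay d s a B ?_
    intro Q hQ
    -- the largest coordinate
    obtain ⟨i, hi⟩ : ∃ i, ‖Q‖ ≤ |(Q i : ℝ)| := by
      have hne : Nonempty (Fin d) := by
        by_contra h
        rw [not_nonempty_iff] at h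
        exact hQ (Subsingleton.elim _ _)
      obtain ⟨i, hi⟩ := Finite.exists_max (fun i => ‖Q i‖)
      refine ⟨i, ?_⟩
      rw [← Int.norm_eq_abs]
      exact (pi_norm_le_iff_of_nonneg (norm_nonneg _)).2 hi
    have h3 := h1 Q i (s + 2 * d) B (fun x => hB i x)
    refine le_trans ?_ h3
    have hpi : (1 : ℝ) ≤ 2 * Real.pi := by
      have := Real.pi_gt_three
      linarith
    have h4 : ‖Q‖ ≤ 2 * Real.pi * |(Q i : ℝ)| := by
      have := abs_nonneg (Q i : ℝ)
      nlinarith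
    gcongr
  refine ⟨a, hsum, h2 ?_⟩
  simpa using hsum 0

end Pool.Agent.T6.H46.CZ
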