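import Pool.Agent.T6.H46.CZ.Stm

/-! Project CZ, module FRQ (helper87): the averages in terms of the frequencies. -/

set_option autoImplicit false

namespace Pool.Agent.T6.H46.CZ

open Finset Filter

namespace ModFRQ

lemma e_add (x y : ℝ) : e (x + y) = e x * e y := by
  unfold e
  rw [← Complex.exp_add]
  congr 1
  push_cast
  ring

lemma e_zero : e 0 = 1 := by
  unfold e
  simp

lemma norm_e (x : ℝ) : ‖e x‖ = 1 := by
  unfold e
  have h : 2 * Real.pi * Complex.I * (x : ℂ) = ((2 * Real.pi * x : ℝ) : ℂ) * Complex.I := by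
    push_cast; ring
  rw [h, Complex.norm_exp_ofReal_mul_I]

lemma e_nat_mul (k : ℕ) (x : ℝ) : e (k * x) = e x ^ k := by
  unfold e
  rw [← Complex.exp_nat_mul]
  congr 1
  push_cast
  ring

lemma one_add_e (t : ℝ) : 1 + e t = 2 * (Real.cos (Real.pi * t) : ℂ) * e (t / 2) := by
  rw [Complex.ofReal_cos]
  unfold e
  rw [Complex.cos]
  have h1 : Complex.exp (((Real.pi * t : ℝ) : ℂ) * Complex.I) *
      Complex.exp (2 * Real.pi * Complex.I * ((t / 2 : ℝ) : ℂ)) =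
      Complex.exp (2 * Real.pi * Complex.I * (t : ℂ)) := by
    rw [← Complex.exp_add]
    congr 1
    push_cast
    ring
  have h2 : Complex.exp (-((Real.pi * t : ℝ) : ℂ) * Complex.I) *
      Complex.exp (2 * Real.pi * Complex.I * ((t / 2 : ℝ) : ℂ)) = 1 := by
    rw [← Complex.exp_add]
    have : -((Real.pi * t : ℝ) : ℂ) * Complex.I + 2 * Real.pi * Complex.I * ((t / 2 : ℝ) : ℂ) = 0 := by
      push_cast
      ring
    rw [this, Complex.exp_zero]
  linear_combination -h1 - h2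

lemma tele_aux (f : ℕ → ℝ) (a b : ℕ) (h : a ≤ b) :
    ∑ n ∈ Ico a b, (f n - f (n + 1)) = f a - f b := by
  induction b, h using Nat.le_induction with
  | base => simp
  | succ b hb ih =>
    rw [sum_Ico_succ_top hb, ih]
    ring

lemma tele (m i : ℕ) (hi : i ≤ m) :
    ∑ n ∈ Ico (i + 1) (m + 2), bal m n = ((2 * m + 1).choose (m + 1 + i) : ℝ) / 2 ^ (2 * m + 1) := by
  have h1 : ∀ n, bal m n = (fun n : ℕ => ((2 * m + 1).choose (m + n) : ℝ) / 2 ^ (2 * m + 1)) n -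
      (fun n : ℕ => ((2 * m + 1).choose (m + n) : ℝ) / 2 ^ (2 * m + 1)) (n + 1) := by
    intro n
    show bal m n = ((2 * m + 1).choose (m + n) : ℝ) / 2 ^ (2 * m + 1) -
      ((2 * m + 1).choose (m + (n + 1)) : ℝ) / 2 ^ (2 * m + 1)
    unfold bal
    rw [← add_assoc]
    ring
  rw [sum_congr rfl fun n _ => h1 n, tele_aux _ _ _ (by omega)]
  show ((2 * m + 1).choose (m + (i + 1)) : ℝ) / 2 ^ (2 * m + 1) -
    ((2 * m + 1).choose (m + (m + 2)) : ℝ) / 2 ^ (2 * m + 1) = _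
  rw [Nat.choose_eq_zero_of_lt (show 2 * m + 1 < m + (m + 2) by omega),
    show m + (i + 1) = m + 1 + i by omega]
  simp

lemma swap (m : ℕ) (g : ℕ → ℂ) :
    ∑ n ∈ range (m + 2), (bal m n : ℂ) * ∑ i ∈ range n, g i =
      ∑ i ∈ range (m + 1), (((2 * m + 1).choose (m + 1 + i) : ℝ) / 2 ^ (2 * m + 1) : ℝ) * g i := by
  have h1 : ∑ n ∈ range (m + 2), (bal m n : ℂ) * ∑ i ∈ range n, g i =
      ∑ n ∈ Ico 0 (m + 2), ∑ i ∈ Ico 0 n, (bal m n : ℂ) * g i := by
    rw [range_eq_Ico]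
    refine sum_congr rfl fun n _ => ?_
    rw [mul_sum, range_eq_Ico]
  rw [h1, ← sum_Ico_Ico_comm' 0 (m + 2) (fun i n => (bal m n : ℂ) * g i), ← range_eq_Ico,
    sum_range_succ]
  rw [show Ico (m + 1 + 1) (m + 2) = ∅ by simp, sum_empty, add_zero]
  refine sum_congr rfl fun i hi => ?_
  rw [← sum_mul, ← Complex.ofReal_sum, tele m i (by have := mem_range.1 hi; omega)]

lemma trig (m : ℕ) (t : ℝ) :
    ∑ n ∈ range (m + 2), (bal m n : ℂ) * ∑ i ∈ range n, (e (i * t) + e (-((i : ℝ) + 1) * t)) =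
      e (-t / 2) * (Real.cos (Real.pi * t) : ℂ) * ((Real.cos (Real.pi * t) : ℂ) ^ 2) ^ m := by
  rw [swap m (fun i => e (i * t) + e (-((i : ℝ) + 1) * t))]
  have hb : (1 + e t) ^ (2 * m + 1) = ∑ k ∈ range (2 * m + 1 + 1),
      ((2 * m + 1).choose k : ℂ) * e (k * t) := by
    rw [add_comm, add_pow]
    refine sum_congr rfl fun k _ => ?_
    rw [one_pow, mul_one, e_nat_mul, mul_comm]
  have hsplit : e (-((m : ℝ) + 1) * t) * (1 + e t) ^ (2 * m + 1) =
      ∑ i ∈ range (m + 1), ((2 * m + 1).choose (m + 1 + i) : ℂ) *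
        (e (i * t) + e (-((i : ℝ) + 1) * t)) := by
    rw [hb, mul_sum, show 2 * m + 1 + 1 = (m + 1) + (m + 1) by ring, sum_range_add,
      ← sum_range_reflect, ← sum_add_distrib]
    refine sum_congr rfl fun i hi => ?_
    have hi' : i ≤ m := by have := mem_range.1 hi; omega
    have e1 : e (-((m : ℝ) + 1) * t) * e (((m + 1 - 1 - i : ℕ) : ℝ) * t) = e (-((i : ℝ) + 1) * t) := by
      rw [← e_add]
      congr 1
      rw [show m + 1 - 1 - i = m - i by omega, Nat.cast_sub hi']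
      ring
    have e2 : e (-((m : ℝ) + 1) * t) * e (((m + 1 + i : ℕ) : ℝ) * t) = e (i * t) := by
      rw [← e_add]
      congr 1
      push_cast
      ring
    have e3 : (2 * m + 1).choose (m + 1 - 1 - i) = (2 * m + 1).choose (m + 1 + i) := by
      rw [← Nat.choose_symm (show m + 1 + i ≤ 2 * m + 1 by omega)]
      congr 1
      omega
    rw [e3]
    linear_combination ((2 * m + 1).choose (m + 1 + i) : ℂ) * e1 +
      ((2 * m + 1).choose (m + 1 + i) : ℂ) * e2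
  have h1 : (1 + e t) ^ (2 * m + 1) =
      2 ^ (2 * m + 1) * (Real.cos (Real.pi * t) : ℂ) ^ (2 * m + 1) * e ((2 * m + 1 : ℕ) * (t / 2)) := by
    rw [one_add_e, mul_pow, mul_pow, e_nat_mul]
  have h2 : e (-((m : ℝ) + 1) * t) * e ((2 * m + 1 : ℕ) * (t / 2)) = e (-t / 2) := by
    rw [← e_add]
    congr 1
    push_cast
    ring
  have h3 : (2 : ℂ) ^ (2 * m + 1) ≠ 0 := pow_ne_zero _ two_ne_zero
  have h4 : ∑ i ∈ range (m + 1),
      ((((2 * m + 1).choose (m + 1 + i) : ℝ) / 2 ^ (2 * m + 1) : ℝ) : ℂ) *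
        (e (i * t) + e (-((i : ℝ) + 1) * t)) =
      (∑ i ∈ range (m + 1), ((2 * m + 1).choose (m + 1 + i) : ℂ) *
        (e (i * t) + e (-((i : ℝ) + 1) * t))) / 2 ^ (2 * m + 1) := by
    rw [sum_div]
    refine sum_congr rfl fun i _ => ?_
    push_cast
    ring
  rw [h4, ← hsplit, h1, div_eq_iff h3]
  linear_combination 2 ^ (2 * m + 1) * (Real.cos (Real.pi * t) : ℂ) ^ (2 * m + 1) * h2

lemma sym_diff (S : ℤ → ℝ) (n : ℕ) : S n - S (-(n : ℤ)) =
    ∑ i ∈ range n, ((S ((i : ℤ) + 1) - S i) + (S (-((i : ℤ) + 1) + 1) - S (-((i : ℤ) + 1)))) := by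
  induction n with
  | zero => simp
  | succ n ih =>
    rw [sum_range_succ, ← ih]
    have h1 : -((n : ℤ) + 1) + 1 = -(n : ℤ) := by ring
    rw [h1]
    push_cast
    ring

end ModFRQ

open ModFRQ in
theorem mFRQ : StmFRQ := by
  intro d α a ha S hS m
  have hsum : ∀ n : ℤ, HasSum (fun Q => a Q * e (n * tf α Q)) ((S (n + 1) - S n : ℝ) : ℂ) := by
    intro n
    rw [hS n]
    refine Summable.hasSum ?_
    refine Summable.of_norm ?_
    refine ha.congr fun Q => ?_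
    rw [norm_mul, norm_e, mul_one]
  have h1 : HasSum (fun Q => ∑ n ∈ range (m + 2), (bal m n : ℂ) * ∑ i ∈ range n,
      (a Q * e (((i : ℤ) : ℝ) * tf α Q) + a Q * e (((-((i : ℤ) + 1) : ℤ) : ℝ) * tf α Q)))
      (∑ n ∈ range (m + 2), (bal m n : ℂ) * ∑ i ∈ range n,
        (((S ((i : ℤ) + 1) - S i : ℝ) : ℂ) +
          ((S (-((i : ℤ) + 1) + 1) - S (-((i : ℤ) + 1)) : ℝ) : ℂ))) := by
    refine hasSum_sum fun n _ => ?_
    refine HasSum.mul_left _ ?_
    refine hasSum_sum fun i _ => ?_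
    exact (hsum i).add (hsum (-((i : ℤ) + 1)))
  have h2 : ((∑ n ∈ range (m + 2), bal m n * (S n - S (-(n : ℤ))) : ℝ) : ℂ) =
      ∑ n ∈ range (m + 2), (bal m n : ℂ) * ∑ i ∈ range n,
        (((S ((i : ℤ) + 1) - S i : ℝ) : ℂ) +
          ((S (-((i : ℤ) + 1) + 1) - S (-((i : ℤ) + 1)) : ℝ) : ℂ)) := by
    rw [Complex.ofReal_sum]
    refine sum_congr rfl fun n _ => ?_
    rw [Complex.ofReal_mul, sym_diff S n, Complex.ofReal_sum]
    congr 1
    refine sum_congr rfl fun i _ => ?_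
    rw [Complex.ofReal_add]
  rw [h2, ← h1.tsum_eq]
  refine tsum_congr fun Q => ?_
  have h3 := trig m (tf α Q)
  have h4 : (((1 - mu α Q : ℝ)) : ℂ) = (Real.cos (Real.pi * tf α Q) : ℂ) ^ 2 := by
    have : (1 - mu α Q : ℝ) = Real.cos (Real.pi * tf α Q) ^ 2 := by
      unfold mu
      have := Real.sin_sq_add_cos_sq (Real.pi * tf α Q)
      linarith
    rw [this]
    push_cast
    ring
  rw [h4]
  have h5 : ∑ n ∈ range (m + 2), (bal m n : ℂ) * ∑ i ∈ range n,
      (a Q * e (((i : ℤ) : ℝ) * tf α Q) + a Q * e (((-((i : ℤ) + 1) : ℤ) : ℝ) * tf α Q)) =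
      a Q * ∑ n ∈ range (m + 2), (bal m n : ℂ) * ∑ i ∈ range n,
        (e (i * tf α Q) + e (-((i : ℝ) + 1) * tf α Q)) := by
    rw [mul_sum]
    refine sum_congr rfl fun n _ => ?_
    rw [mul_left_comm]
    congr 1
    rw [mul_sum]
    refine sum_congr rfl fun i _ => ?_
    push_cast
    ring
  rw [h5, h3]
  ring

end Pool.Agent.T6.H46.CZ
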