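import Pool.Agent.T6.H46.CZ.Stm2
import Pool.Agent.T6.H46.CZ.CO1
import Pool.Agent.T6.H46.CZ.FRQ

/-! Project CZ, module FR2 (helper60): the averages with the weights `ww` in terms of the
frequencies. -/

set_option autoImplicit false

namespace Pool.Agent.T6.H46.CZ

open Finset Filter

namespace ModFR2

open ModCO1 (e_add e_zero norm_e e_sub le_sin abs_sin)

theorem e_int (m : ℤ) : e (m : ℝ) = 1 := by
  unfold e
  rw [Complex.exp_eq_one_iff]
  exact ⟨m, by push_cast; ring⟩

/-- the kernel -/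
noncomputable def V (t : ℝ) (n : ℕ) : ℂ := ∑ i ∈ range n, (e (i * t) + e (-((i : ℝ) + 1) * t))

theorem V_round (t : ℝ) (n : ℕ) : V t n = V (t - round t) n := by
  unfold V
  refine sum_congr rfl fun i _ => ?_
  have h1 : e (i * t) = e (i * (t - round t)) := by
    have : (i : ℝ) * t = i * (t - round t) + (((i : ℤ) * round t : ℤ) : ℝ) := by
      push_cast
      ring
    rw [this, e_add, e_int, mul_one]
  have h2 : e (-((i : ℝ) + 1) * t) = e (-((i : ℝ) + 1) * (t - round t)) := by
    have : -((i : ℝ) + 1) * t = -((i : ℝ) + 1) * (t - round t) +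
        ((-((i : ℤ) + 1) * round t : ℤ) : ℝ) := by
      push_cast
      ring
    rw [this, e_add, e_int, mul_one]
  rw [h1, h2]

theorem V_mul (r : ℝ) (n : ℕ) : V r n * (e r - 1) = e (n * r) - e (-(n * r)) := by
  induction n with
  | zero => simp [V]
  | succ n ih =>
    have h1 : V r (n + 1) = V r n + (e (n * r) + e (-((n : ℝ) + 1) * r)) := by
      unfold V; rw [sum_range_succ]
    rw [h1, add_mul, ih]
    have e1 : e (((n + 1 : ℕ) : ℝ) * r) = e (n * r) * e r := by
      rw [← e_add]; congr 1; push_cast; ring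
    have e2 : e (-(n * r)) = e (-((n : ℝ) + 1) * r) * e r := by
      rw [← e_add]; congr 1; ring
    have e3 : e (-(((n + 1 : ℕ) : ℝ) * r)) = e (-((n : ℝ) + 1) * r) := by
      congr 1; push_cast; ring
    rw [e1, e2, e3]
    ring

theorem V_sin (r : ℝ) (n : ℕ) (hr : Real.sin (Real.pi * r) ≠ 0) :
    V r n = e (-(r / 2)) * (Real.sin (2 * Real.pi * n * r) : ℂ) / (Real.sin (Real.pi * r) : ℂ) := by
  have h := V_mul r n
  rw [e_sub] at h
  have h1 : e r - 1 = e (r / 2) * (2 * Complex.I * (Real.sin (Real.pi * r) : ℂ)) := by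
    have h2 := e_sub (r / 2)
    have e3 : 2 * Real.pi * (r / 2) = Real.pi * r := by ring
    rw [e3] at h2
    rw [← h2, mul_sub, ← e_add, ← e_add]
    have e1 : r / 2 + r / 2 = r := by ring
    have e2 : r / 2 + -(r / 2) = 0 := by ring
    rw [e1, e2, e_zero]
  rw [h1] at h
  have hI : (2 : ℂ) * Complex.I ≠ 0 := mul_ne_zero two_ne_zero Complex.I_ne_zero
  have h3 : V r n * e (r / 2) * (Real.sin (Real.pi * r) : ℂ) =
      (Real.sin (2 * Real.pi * n * r) : ℂ) := by
    apply mul_left_cancel₀ hI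
    have e4 : 2 * Real.pi * (n * r) = 2 * Real.pi * n * r := by ring
    rw [e4] at h
    linear_combination h
  have hs : (Real.sin (Real.pi * r) : ℂ) ≠ 0 := by exact_mod_cast hr
  rw [eq_div_iff hs, ← h3]
  have h4 : e (-(r / 2)) * e (r / 2) = 1 := by
    rw [← e_add, ← e_zero]; congr 1; ring
  linear_combination (-(V r n * (Real.sin (Real.pi * r) : ℂ))) * h4

theorem norm_V_le (t : ℝ) (n : ℕ) : ‖V t n‖ ≤ 2 * n := by
  unfold V
  refine (norm_sum_le _ _).trans ?_
  have h : ∀ k ∈ range n, ‖e (k * t) + e (-((k : ℝ) + 1) * t)‖ ≤ 2 := by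
    intro k _
    refine (norm_add_le _ _).trans ?_
    rw [norm_e, norm_e]
    norm_num
  refine (sum_le_sum h).trans ?_
  simp
  linarith

theorem ww_nonneg (N n : ℕ) : 0 ≤ ww N n := by
  unfold ww
  have : (0 : ℝ) ≤ Real.sinc (Real.pi * n / N) ^ 4 := by positivity
  positivity

theorem ww_bound (N n : ℕ) (hN : 0 < N) : ww N n * (2 * n) ≤ 2 * (N : ℝ) ^ 4 / Real.pi ^ 4 * (1 / (n : ℝ) ^ 2) := by
  rcases Nat.eq_zero_or_pos n with hn | hn
  · subst hn
    simp [ww]
  · have hn' : (0 : ℝ) < n := by exact_mod_cast hn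
    have hN' : (0 : ℝ) < N := by exact_mod_cast hN
    have hx : (0 : ℝ) < Real.pi * n / N := by positivity
    have hs : Real.sinc (Real.pi * n / N) ^ 4 ≤ (N / (Real.pi * n)) ^ 4 := by
      rw [Real.sinc_of_ne_zero hx.ne']
      have h1 : |Real.sin (Real.pi * n / N) / (Real.pi * n / N)| ≤ N / (Real.pi * n) := by
        rw [abs_div, abs_of_pos hx, div_le_iff₀ hx]
        have h2 : (N : ℝ) / (Real.pi * n) * (Real.pi * n / N) = 1 := by
          field_simp
        rw [h2]
        exact Real.abs_sin_le_one _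
      have h3 : (Real.sin (Real.pi * n / N) / (Real.pi * n / N)) ^ 4 =
          |Real.sin (Real.pi * n / N) / (Real.pi * n / N)| ^ 4 := by
        rw [← abs_pow, abs_of_nonneg (by positivity)]
      rw [h3]
      exact pow_le_pow_left₀ (abs_nonneg _) h1 4
    unfold ww
    calc (n : ℝ) * Real.sinc (Real.pi * n / N) ^ 4 * (2 * n)
        ≤ n * (N / (Real.pi * n)) ^ 4 * (2 * n) := by gcongr
      _ = 2 * (N : ℝ) ^ 4 / Real.pi ^ 4 * (1 / (n : ℝ) ^ 2) := by
          have := Real.pi_ne_zero
          field_simp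

theorem ww_summable (N : ℕ) (hN : 0 < N) : Summable fun n : ℕ => ww N n * (2 * n) := by
  refine Summable.of_nonneg_of_le (fun n => mul_nonneg (ww_nonneg N n) (by positivity))
    (fun n => ww_bound N n hN) ?_
  exact (Real.summable_one_div_nat_pow.2 one_lt_two).mul_left _

theorem mm_eq (s : ℝ) : mm s = s * gg |s| := by
  unfold mm gg
  by_cases h1 : |s| ≤ 1
  · simp only [h1, if_true]
    ring
  · by_cases h2 : |s| ≤ 2
    · simp only [h1, h2, if_true, if_false]
      push Not at h1
      rcases lt_or_ge 0 s with h3 | h3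
      · simp only [h3, if_true, abs_of_pos h3]
        field_simp
      · have h4 : ¬ 0 < s := not_lt.2 h3
        have h5 : s ≠ 0 := by
          rintro rfl
          norm_num at h1
        simp only [h4, if_false, abs_of_nonpos h3]
        field_simp
    · simp only [h1, h2, if_false, mul_zero]

end ModFR2

open ModFR2 in
theorem mFR2 (hKER : StmKER) : StmFR2 := by
  intro d α a hα ha0 ha S hS
  classical
  set r : (Fin d → ℤ) → ℝ := fun Q => tf α Q - round (tf α Q) with hr
  set b : (Fin d → ℤ) → ℂ := fun Q => if Q = 0 then 0 else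
    a Q * (e (-(r Q / 2)) * ((r Q / (4 * Real.pi * Real.sin (Real.pi * r Q)) : ℝ) : ℂ)) with hb
  have hr0 : ∀ Q, Q ≠ 0 → r Q ≠ 0 := by
    intro Q hQ h
    exact hα Q hQ (round (tf α Q)) (sub_eq_zero.1 h)
  have hrabs : ∀ Q, |r Q| = nd (tf α Q) := fun Q => rfl
  have hsin : ∀ Q, 2 * |r Q| ≤ |Real.sin (Real.pi * r Q)| := by
    intro Q
    have h1 := ModCO1.le_sin (tf α Q)
    rw [ModCO1.abs_sin] at h1
    exact h1
  have hsin0 : ∀ Q, Q ≠ 0 → Real.sin (Real.pi * r Q) ≠ 0 := by
    intro Q hQ h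
    have h1 := hsin Q
    rw [h, abs_zero] at h1
    have h2 := abs_pos.2 (hr0 Q hQ)
    linarith
  refine ⟨b, by simp [hb], ?_, ?_⟩
  · intro Q
    by_cases hQ : Q = 0
    · simp only [hb, hQ, if_true, norm_zero]
      exact norm_nonneg _
    · simp only [hb, hQ, if_false]
      rw [norm_mul, norm_mul, ModCO1.norm_e, one_mul, Complex.norm_real, Real.norm_eq_abs]
      have h1 : |r Q / (4 * Real.pi * Real.sin (Real.pi * r Q))| ≤ 1 := by
        have h2 := abs_pos.2 (hsin0 Q hQ)
        rw [abs_div, abs_mul, abs_of_pos (by positivity : (0 : ℝ) < 4 * Real.pi),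
          div_le_one (by positivity)]
        have h3 := hsin Q
        have h4 := Real.pi_gt_three
        nlinarith
      calc ‖a Q‖ * |r Q / (4 * Real.pi * Real.sin (Real.pi * r Q))| ≤ ‖a Q‖ * 1 :=
            mul_le_mul_of_nonneg_left h1 (norm_nonneg _)
        _ = ‖a Q‖ := mul_one _
  · intro N hN
    have hN0 : 0 < N := by omega
    have hN' : (0 : ℝ) < N := by exact_mod_cast hN0
    -- the Birkhoff differences
    have hsum : ∀ n : ℤ, HasSum (fun Q => a Q * e (n * tf α Q)) ((S (n + 1) - S n : ℝ) : ℂ) := by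
      intro n
      rw [hS n]
      refine Summable.hasSum ?_
      refine Summable.of_norm ?_
      refine ha.congr fun Q => ?_
      rw [norm_mul, ModCO1.norm_e, mul_one]
    have hV : ∀ n : ℕ, HasSum (fun Q => a Q * V (tf α Q) n) ((S n - S (-(n : ℤ)) : ℝ) : ℂ) := by
      intro n
      have h1 : HasSum (fun Q => ∑ i ∈ range n,
          (a Q * e (((i : ℤ) : ℝ) * tf α Q) + a Q * e (((-((i : ℤ) + 1) : ℤ) : ℝ) * tf α Q)))
          (∑ i ∈ range n, (((S ((i : ℤ) + 1) - S i : ℝ) : ℂ) +
          ((S (-((i : ℤ) + 1) + 1) - S (-((i : ℤ) + 1)) : ℝ) : ℂ))) := by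
        refine hasSum_sum fun i _ => ?_
        exact (hsum i).add (hsum (-((i : ℤ) + 1)))
      have h2 : ((S n - S (-(n : ℤ)) : ℝ) : ℂ) =
          ∑ i ∈ range n, (((S ((i : ℤ) + 1) - S i : ℝ) : ℂ) +
          ((S (-((i : ℤ) + 1) + 1) - S (-((i : ℤ) + 1)) : ℝ) : ℂ)) := by
        rw [ModFRQ.sym_diff S n, Complex.ofReal_sum]
        refine sum_congr rfl fun i _ => ?_
        rw [Complex.ofReal_add]
      rw [h2]
      refine h1.congr_fun ?_
      intro Q
      unfold V
      rw [mul_sum]
      refine sum_congr rfl fun i _ => ?_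
      push_cast
      ring
    -- the double family
    set F : ℕ × (Fin d → ℤ) → ℂ := fun p => (ww N p.1 : ℂ) * (a p.2 * V (tf α p.2) p.1) with hF
    have hFs : Summable F := by
      have h1 : Summable fun p : ℕ × (Fin d → ℤ) => (ww N p.1 * (2 * p.1)) * ‖a p.2‖ :=
        (ww_summable N hN0).mul_of_nonneg ha
          (fun n => mul_nonneg (ww_nonneg N n) (by positivity)) (fun Q => norm_nonneg _)
      refine Summable.of_norm_bounded h1 ?_
      rintro ⟨n, Q⟩
      simp only [hF]
      rw [norm_mul, norm_mul, Complex.norm_real, Real.norm_eq_abs, abs_of_nonneg (ww_nonneg N n)]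
      calc ww N n * (‖a Q‖ * ‖V (tf α Q) n‖) ≤ ww N n * (‖a Q‖ * (2 * n)) := by
            have := norm_V_le (tf α Q) n
            have := ww_nonneg N n
            gcongr
        _ = ww N n * (2 * n) * ‖a Q‖ := by ring
    have hA : HasSum (fun n : ℕ => ((ww N n * (S n - S (-(n : ℤ))) : ℝ) : ℂ)) (∑' p, F p) := by
      refine hFs.hasSum.prod_fiberwise ?_
      intro n
      have := (hV n).mul_left (ww N n : ℂ)
      rw [Complex.ofReal_mul]
      exact this
    have hB : HasSum (fun Q => b Q * ((gg (N * nd (tf α Q)) : ℝ) : ℂ) * (N : ℂ) ^ 3)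
        (∑' p, F p) := by
      have hsw : HasSum (F ∘ Prod.swap) (∑' p, F p) :=
        (Equiv.prodComm (Fin d → ℤ) ℕ).hasSum_iff.2 hFs.hasSum
      refine hsw.prod_fiberwise ?_
      intro Q
      simp only [hF, Function.comp, Prod.swap]
      by_cases hQ : Q = 0
      · subst hQ
        simp only [ha0, zero_mul, mul_zero, hb, if_true]
        exact hasSum_zero
      · have hrb : |r Q| ≤ 1 / 2 := abs_sub_round _
        have h1 := hKER N hN (r Q) hrb
        have h2 : HasSum (fun n : ℕ => ((ww N n * Real.sin (2 * Real.pi * n * r Q) : ℝ) : ℂ))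
            (((N : ℝ) ^ 2 * mm (N * r Q) / (4 * Real.pi) : ℝ) : ℂ) := Complex.hasSum_ofReal.2 h1
        have h3 := h2.mul_left (a Q * (e (-(r Q / 2)) / (Real.sin (Real.pi * r Q) : ℂ)))
        have hs : (Real.sin (Real.pi * r Q) : ℂ) ≠ 0 := by exact_mod_cast hsin0 Q hQ
        have hval : a Q * (e (-(r Q / 2)) / (Real.sin (Real.pi * r Q) : ℂ)) *
            (((N : ℝ) ^ 2 * mm (N * r Q) / (4 * Real.pi) : ℝ) : ℂ) =
            b Q * ((gg (N * nd (tf α Q)) : ℝ) : ℂ) * (N : ℂ) ^ 3 := by
          have h4 : mm (N * r Q) = N * r Q * gg (N * nd (tf α Q)) := by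
            rw [mm_eq, abs_mul, abs_of_pos hN', hrabs]
          rw [h4]
          simp only [hb, hQ, if_false]
          have hpi : (Real.pi : ℂ) ≠ 0 := by exact_mod_cast Real.pi_ne_zero
          push_cast at hs ⊢
          field_simp
        rw [← hval]
        refine h3.congr_fun ?_
        intro n
        rw [V_round, V_sin _ _ (hsin0 Q hQ)]
        push_cast at hs ⊢
        field_simp
    constructor
    · have := hA.summable
      exact Complex.summable_ofReal.1 this
    · have h1 : ((∑' n : ℕ, ww N n * (S n - S (-(n : ℤ))) : ℝ) : ℂ) = ∑' p, F p := by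
        rw [Complex.ofReal_tsum]
        exact hA.tsum_eq
      have hNc : (N : ℂ) ≠ 0 := by exact_mod_cast hN0.ne'
      rw [Complex.ofReal_div, h1, ← hB.tsum_eq, tsum_mul_right]
      push_cast
      field_simp

end Pool.Agent.T6.H46.CZ
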