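import Pool.Agent.T6.H46.CZ.Stm

/-!
# A gap in the sizes of the linear forms (module GAP)
-/

set_option autoImplicit false

namespace Pool.Agent.T6.H46.CZ

namespace GapAux

lemma nd_nonneg (x : ℝ) : 0 ≤ nd x := abs_nonneg _

lemma nd_le (x : ℝ) (z : ℤ) : nd x ≤ |x - z| := round_le x z

lemma nd_sum {r : ℕ} (c : Fin r → ℤ) (x : Fin r → ℝ) :
    nd (∑ a, (c a : ℝ) * x a) ≤ ∑ a, |(c a : ℝ)| * nd (x a) := by
  refine (nd_le _ (∑ a, c a * round (x a))).trans ?_
  push_cast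
  rw [← Finset.sum_sub_distrib]
  refine (Finset.abs_sum_le_sum_abs _ _).trans (Finset.sum_le_sum fun a _ => ?_)
  rw [← mul_sub, abs_mul]
  rfl

lemma nd_mul_ge (D : ℤ) (t : ℝ) (hD : D ≠ 0) (h : |(D : ℝ)| * nd t < 1 / 2) :
    nd t ≤ nd (D * t) := by
  have h1 : |(D : ℝ) * t - D * round t| < 1 / 2 := by
    rw [← mul_sub, abs_mul]; exact h
  have h2 : |(D : ℝ) * t - round ((D : ℝ) * t)| ≤ 1 / 2 := abs_sub_round _
  have h3 : round ((D : ℝ) * t) = D * round t := by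
    by_contra hne
    have h4 : (1 : ℤ) ≤ |round ((D : ℝ) * t) - D * round t| :=
      Int.one_le_abs (sub_ne_zero.2 hne)
    have h5 : (1 : ℝ) ≤ |((round ((D : ℝ) * t) : ℤ) : ℝ) - (D : ℝ) * (round t : ℤ)| := by
      exact_mod_cast h4
    have h6 : |((round ((D : ℝ) * t) : ℤ) : ℝ) - (D : ℝ) * (round t : ℤ)| ≤
        |(D : ℝ) * t - D * round t| + |(D : ℝ) * t - round ((D : ℝ) * t)| := by
      rw [abs_sub_comm ((D : ℝ) * t) ((round ((D : ℝ) * t) : ℤ) : ℝ), add_comm]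
      exact abs_sub_le _ _ _
    linarith
  have h7 : nd (D * t) = |(D : ℝ)| * nd t := by
    unfold nd
    rw [h3, ← abs_mul, mul_sub]
    push_cast
    rfl
  have h8 : (1 : ℝ) ≤ |(D : ℝ)| := by
    have := Int.one_le_abs hD
    exact_mod_cast this
  rw [h7]
  nlinarith [nd_nonneg t]

lemma cram {d r : ℕ} (Q : Fin d → ℤ) (q : Fin r → Fin d → ℤ) (j : Fin r → Fin d)
    (hD : (Matrix.of fun a b => q a (j b)).det ≠ 0)
    (h0 : ∀ l, (Matrix.of fun a b : Fin (r + 1) => (Fin.cons Q q : Fin (r + 1) → Fin d → ℤ) a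
      ((Fin.cons l j : Fin (r + 1) → Fin d) b)).det = 0)
    (Y : ℤ) (hQ : ∀ l, |Q l| ≤ Y) (hq : ∀ a l, |q a l| ≤ Y) :
    ∃ (D : ℤ) (c : Fin r → ℤ), D ≠ 0 ∧ |D| ≤ r.factorial * Y ^ r ∧
      (∀ a, |c a| ≤ r.factorial * Y ^ r) ∧ ∀ l, D * Q l = ∑ a, c a * q a l := by
  set M : Fin (r + 1) → ℤ := fun i =>
    (Matrix.of fun a b : Fin r => (Fin.cons Q q : Fin (r + 1) → Fin d → ℤ) (i.succAbove a)
      (j b)).det with hM
  have hent : ∀ (i : Fin (r + 1)) (l : Fin d),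
      |(Fin.cons Q q : Fin (r + 1) → Fin d → ℤ) i l| ≤ Y := by
    intro i l
    refine Fin.cases ?_ (fun a => ?_) i
    · simpa using hQ l
    · simpa using hq a l
  have hMb : ∀ i, |M i| ≤ r.factorial * Y ^ r := by
    intro i
    have := Matrix.det_le (abv := (AbsoluteValue.abs : AbsoluteValue ℤ ℤ)) (x := Y)
      (A := Matrix.of fun a b : Fin r => (Fin.cons Q q : Fin (r + 1) → Fin d → ℤ)
        (i.succAbove a) (j b)) (fun a b => hent _ _)
    simpa using this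
  have hM0 : M 0 = (Matrix.of fun a b => q a (j b)).det := by
    simp [hM]
  have hexp : ∀ l, ∑ i : Fin (r + 1),
      (-1) ^ (i : ℕ) * (Fin.cons Q q : Fin (r + 1) → Fin d → ℤ) i l * M i = 0 := by
    intro l
    rw [← h0 l, Matrix.det_succ_column_zero]
    refine Finset.sum_congr rfl fun i _ => ?_
    rfl
  refine ⟨M 0, fun a => -((-1) ^ ((a : ℕ) + 1) * M a.succ), ?_, hMb 0, ?_, ?_⟩
  · rw [hM0]; exact hD
  · intro a
    rw [abs_neg, abs_mul, abs_pow]
    simpa using hMb a.succ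
  · intro l
    have := hexp l
    rw [Fin.sum_univ_succ] at this
    simp only [Fin.val_zero, pow_zero, one_mul, Fin.cons_zero, Fin.cons_succ, Fin.val_succ] at this
    have e : ∑ a : Fin r, -((-1) ^ ((a : ℕ) + 1) * M a.succ) * q a l =
        -∑ a : Fin r, (-1) ^ ((a : ℕ) + 1) * q a l * M a.succ := by
      rw [← Finset.sum_neg_distrib]
      refine Finset.sum_congr rfl fun a _ => ?_
      ring
    rw [e]
    linarith

/-- there are `r` elements of `G` with a nonzero `r × r` minor -/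
def P {d : ℕ} (G : Set (Fin d → ℤ)) (r : ℕ) : Prop :=
  ∃ q : Fin r → Fin d → ℤ, (∀ a, q a ∈ G) ∧ ∃ j : Fin r → Fin d,
    (Matrix.of fun a b => q a (j b)).det ≠ 0

lemma P_zero {d : ℕ} (G : Set (Fin d → ℤ)) : P G 0 :=
  ⟨fun a => a.elim0, fun a => a.elim0, fun a => a.elim0, by simp⟩

lemma P_le {d : ℕ} {G : Set (Fin d → ℤ)} {r : ℕ} (h : P G r) : r ≤ d := by
  obtain ⟨q, -, j, hd⟩ := h
  by_contra hlt
  push Not at hlt
  obtain ⟨a, b, hab, he⟩ := Fintype.exists_ne_map_eq_of_card_lt j (by simpa using hlt)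
  exact hd (Matrix.det_zero_of_column_eq hab fun i => by simp [he])

lemma pigeon {d : ℕ} (G : ℕ → Set (Fin d → ℤ)) :
    ∃ i ≤ d, ∃ r, P (G (i + 1)) r ∧ ¬ P (G i) (r + 1) := by
  by_contra h
  push Not at h
  have key : ∀ k ≤ d + 1, P (G (d + 1 - k)) k := by
    intro k
    induction k with
    | zero => intro _; exact P_zero _
    | succ k ih =>
      intro hk
      have h1 := ih (by omega)
      have h2 : d + 1 - k = (d + 1 - (k + 1)) + 1 := by omega
      rw [h2] at h1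
      exact h _ (by omega) _ h1
  have := P_le (key (d + 1) le_rfl)
  omega

/-- thresholds -/
def b (d K : ℕ) : ℕ → ℕ
  | 0 => 2 * d + 2
  | i + 1 => K * b d K i + 2 * d + 2

lemma b_ge (d K i : ℕ) : 2 * d + 2 ≤ b d K i := by
  cases i with
  | zero => simp [b]
  | succ i => simp only [b]; omega

lemma b_mono (d K i : ℕ) : b d K i ≤ b d K (i + 1) := by
  rcases Nat.eq_zero_or_pos K with hK | hK
  · subst hK
    cases i with
    | zero => simp [b]
    | succ i => simp [b]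
  · simp only [b]
    nlinarith

lemma b_le (d K : ℕ) {i : ℕ} (hi : i ≤ d) : b d K i ≤ b d K (d + 1) :=
  monotone_nat_of_le_succ (b_mono d K) (by omega)

end GapAux

open GapAux in
/-- **GAP** -/
theorem mGAP : StmGAP := by
  intro d K
  refine ⟨b d K (d + 1), 4 * (d + 1) * d.factorial, fun α X hX => ?_⟩
  have hf : 1 ≤ d.factorial := Nat.factorial_pos d
  have hX1 : 1 ≤ X := by nlinarith
  have hXr : (1 : ℝ) ≤ X := by exact_mod_cast hX1
  have hX0 : (0 : ℝ) < X := by linarith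
  have hXd : 4 * ((d : ℝ) + 1) * d.factorial ≤ X := by exact_mod_cast hX
  obtain ⟨i, hi, r, hP, hN⟩ := pigeon (d := d)
    (fun i => {Q : Fin d → ℤ | ‖Q‖ ≤ X ∧ nd (tf α Q) ≤ 1 / (X : ℝ) ^ b d K i})
  refine ⟨b d K i, by have := b_ge d K i; omega, b_le d K hi, fun Q hQ hQX => ?_⟩
  by_cases hs : 1 / (X : ℝ) ^ b d K i ≤ nd (tf α Q)
  · exact Or.inl hs
  right
  push Not at hs
  have hr := P_le hP
  obtain ⟨q, hq, j, hdet⟩ := hP
  have hsub : ∀ a, q a ∈ {Q : Fin d → ℤ | ‖Q‖ ≤ X ∧ nd (tf α Q) ≤ 1 / (X : ℝ) ^ b d K i} := by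
    intro a
    refine ⟨(hq a).1, (hq a).2.trans ?_⟩
    exact one_div_le_one_div_of_le (by positivity) (pow_le_pow_right₀ hXr (b_mono d K i))
  have hnorm : ∀ (R : Fin d → ℤ), ‖R‖ ≤ (X : ℝ) → ∀ l, |R l| ≤ (X : ℤ) := by
    intro R hR l
    have h1 := (norm_le_pi_norm R l).trans hR
    rw [Int.norm_eq_abs] at h1
    exact_mod_cast h1
  obtain ⟨D, c, hD0, hDb, hcb, hrel⟩ := cram Q q j hdet (fun l => by
      by_contra hne
      refine hN ⟨Fin.cons Q q, fun a => ?_, Fin.cons l j, hne⟩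
      refine Fin.cases ?_ (fun a => ?_) a
      · exact ⟨hQX, hs.le⟩
      · simpa using hsub a) (X : ℤ) (hnorm Q hQX) (fun a => hnorm _ (hq a).1)
  -- the bounds
  have hbound : ∀ z : ℤ, |z| ≤ r.factorial * (X : ℤ) ^ r → |(z : ℝ)| ≤ d.factorial * (X : ℝ) ^ d := by
    intro z hz
    have h1 : |(z : ℝ)| ≤ r.factorial * (X : ℝ) ^ r := by exact_mod_cast hz
    refine h1.trans ?_
    have h2 : (r.factorial : ℝ) ≤ d.factorial := by exact_mod_cast Nat.factorial_le hr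
    have h3 : (X : ℝ) ^ r ≤ (X : ℝ) ^ d := pow_le_pow_right₀ hXr hr
    exact mul_le_mul h2 h3 (by positivity) (by positivity)
  have htf : (D : ℝ) * tf α Q = ∑ a, (c a : ℝ) * tf α (q a) := by
    unfold tf
    rw [Finset.mul_sum]
    simp only [Finset.mul_sum]
    rw [Finset.sum_comm]
    refine Finset.sum_congr rfl fun l _ => ?_
    have h1 : ((D * Q l : ℤ) : ℝ) = ((∑ a, c a * q a l : ℤ) : ℝ) := by rw [hrel l]
    push_cast at h1
    rw [← mul_assoc, h1, Finset.sum_mul]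
    refine Finset.sum_congr rfl fun a _ => ?_
    ring
  have hbi : 2 * d + 2 ≤ b d K i := b_ge d K i
  have hsmall : |(D : ℝ)| * nd (tf α Q) < 1 / 2 := by
    have h1 := hbound D hDb
    have h2 : (X : ℝ) ^ (d + 1) ≤ (X : ℝ) ^ b d K i := pow_le_pow_right₀ hXr (by omega)
    have h3 : nd (tf α Q) ≤ 1 / (X : ℝ) ^ (d + 1) :=
      hs.le.trans (one_div_le_one_div_of_le (by positivity) h2)
    calc |(D : ℝ)| * nd (tf α Q) ≤ (d.factorial * (X : ℝ) ^ d) * (1 / (X : ℝ) ^ (d + 1)) :=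
          mul_le_mul h1 h3 (nd_nonneg _) (by positivity)
      _ = d.factorial / X := by
          rw [pow_succ]; field_simp
      _ < 1 / 2 := by
          rw [div_lt_iff₀ hX0]
          have : (0 : ℝ) < d.factorial := by positivity
          have hd : (0 : ℝ) ≤ d := by positivity
          nlinarith
  have hge := nd_mul_ge D (tf α Q) hD0 hsmall
  have hle : nd (D * tf α Q) ≤ d * (d.factorial * (X : ℝ) ^ d) * (1 / (X : ℝ) ^ b d K (i + 1)) := by
    rw [htf]
    refine (nd_sum c _).trans ?_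
    calc ∑ a, |(c a : ℝ)| * nd (tf α (q a))
        ≤ ∑ _a : Fin r, (d.factorial * (X : ℝ) ^ d) * (1 / (X : ℝ) ^ b d K (i + 1)) :=
          Finset.sum_le_sum fun a _ => mul_le_mul (hbound _ (hcb a)) (hq a).2 (nd_nonneg _)
            (by positivity)
      _ = r * ((d.factorial * (X : ℝ) ^ d) * (1 / (X : ℝ) ^ b d K (i + 1))) := by
          simp
      _ ≤ d * (d.factorial * (X : ℝ) ^ d) * (1 / (X : ℝ) ^ b d K (i + 1)) := by
          rw [mul_assoc (d : ℝ)]
          exact mul_le_mul_of_nonneg_right (by exact_mod_cast hr) (by positivity)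
  refine hge.trans (hle.trans ?_)
  have hb1 : b d K (i + 1) = K * b d K i + (2 * d + 2) := by simp only [b]; ring
  rw [hb1, pow_add]
  have hpos1 : (0 : ℝ) < (X : ℝ) ^ (K * b d K i) := by positivity
  have hkey : (d : ℝ) * (d.factorial * (X : ℝ) ^ d) ≤ (X : ℝ) ^ (2 * d + 2) := by
    have h1 : (d : ℝ) * d.factorial ≤ X := by
      have : (0 : ℝ) < d.factorial := by positivity
      have hd : (0 : ℝ) ≤ d := by positivity
      nlinarith
    calc (d : ℝ) * (d.factorial * (X : ℝ) ^ d) = (d * d.factorial) * (X : ℝ) ^ d := by ring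
      _ ≤ X * (X : ℝ) ^ d := mul_le_mul_of_nonneg_right h1 (by positivity)
      _ = (X : ℝ) ^ (d + 1) := by ring
      _ ≤ (X : ℝ) ^ (2 * d + 2) := pow_le_pow_right₀ hXr (by omega)
  rw [mul_one_div, div_le_div_iff₀ (by positivity) hpos1, one_mul]
  calc (d : ℝ) * (d.factorial * (X : ℝ) ^ d) * (X : ℝ) ^ (K * b d K i)
      ≤ (X : ℝ) ^ (2 * d + 2) * (X : ℝ) ^ (K * b d K i) :=
        mul_le_mul_of_nonneg_right hkey hpos1.le
    _ = (X : ℝ) ^ (K * b d K i) * (X : ℝ) ^ (2 * d + 2) := by ring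

end Pool.Agent.T6.H46.CZ

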