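import Pool.Agent.T6.H46.CZ.Stm

/-!
Project CZ (MP_3d11e1_an), module IBP (helper52): Fourier coefficients of a smooth function on the
torus.
-/

set_option autoImplicit false

namespace Pool.Agent.T6.H46.CZ

namespace ModIBP

open MeasureTheory Set Filter

lemma norm_e (x : ℝ) : ‖e x‖ = 1 := by
  unfold e
  rw [show 2 * (Real.pi : ℂ) * Complex.I * (x : ℂ) = ((2 * Real.pi * x : ℝ) : ℂ) * Complex.I by
    push_cast; ring]
  exact Complex.norm_exp_ofReal_mul_I _

lemma e_zero : e 0 = 1 := by simp [e]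

lemma e_int (m : ℤ) : e m = 1 := by
  unfold e
  rw [show 2 * (Real.pi : ℂ) * Complex.I * ((m : ℝ) : ℂ) = (m : ℂ) * (2 * Real.pi * Complex.I) by
    push_cast; ring]
  exact Complex.exp_int_mul_two_pi_mul_I m

lemma continuous_e : Continuous e := by
  unfold e
  fun_prop

/-- one integration by parts -/
lemma one (m : ℤ) (g g' : ℝ → ℝ) (hg : ∀ s, HasDerivAt g (g' s) s) (hc : Continuous g')
    (hper : g 1 = g 0) :
    (2 * Real.pi * Complex.I * m) * (∫ s in (0:ℝ)..1, e (-(m:ℝ) * s) * (g s : ℂ)) =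
      ∫ s in (0:ℝ)..1, e (-(m:ℝ) * s) * (g' s : ℂ) := by
  have hE : ∀ s : ℝ, HasDerivAt (fun s : ℝ => e (-(m:ℝ) * s))
      (-(2 * Real.pi * Complex.I * m) * e (-(m:ℝ)*s)) s := by
    intro s
    have h1 : HasDerivAt (fun s : ℝ => ((-(m:ℝ) * s : ℝ) : ℂ)) ((-(m:ℝ) : ℝ) : ℂ) s := by
      have := ((hasDerivAt_id s).const_mul (-(m:ℝ))).ofReal_comp
      simpa using this
    have h2 := (h1.const_mul (2 * Real.pi * Complex.I)).cexp
    have h3 : HasDerivAt (fun s : ℝ => e (-(m:ℝ) * s)) _ s := h2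
    convert h3 using 1
    simp only [e]
    push_cast
    ring
  have hgc : Continuous g := continuous_iff_continuousAt.2 fun s => (hg s).continuousAt
  have hec : Continuous fun s : ℝ => e (-(m:ℝ) * s) := continuous_e.comp (by fun_prop)
  have hc1 : Continuous fun s : ℝ => e (-(m:ℝ) * s) * (g s : ℂ) := by fun_prop
  have hc2 : Continuous fun s : ℝ => e (-(m:ℝ) * s) * (g' s : ℂ) := by fun_prop
  have hH : ∀ s : ℝ, HasDerivAt (fun s : ℝ => e (-(m:ℝ) * s) * (g s : ℂ))
      (-(2 * Real.pi * Complex.I * m) * (e (-(m:ℝ)*s) * (g s : ℂ)) +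
        e (-(m:ℝ)*s) * (g' s : ℂ)) s := by
    intro s
    have := (hE s).fun_mul (hg s).ofReal_comp
    refine this.congr_deriv ?_
    ring
  have hI := intervalIntegral.integral_eq_sub_of_hasDerivAt (a := (0:ℝ)) (b := 1)
    (fun s _ => hH s) (Continuous.intervalIntegrable (by fun_prop) _ _)
  rw [intervalIntegral.integral_add (Continuous.intervalIntegrable (by fun_prop) _ _)
    (Continuous.intervalIntegrable (by fun_prop) _ _), intervalIntegral.integral_const_mul,
    hper] at hI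
  have h1 : e (-(m:ℝ) * 1) = 1 := by
    have := e_int (-m)
    push_cast at this
    rw [mul_one]
    exact this
  have h0 : e (-(m:ℝ) * 0) = 1 := by rw [mul_zero]; exact e_zero
  rw [h1, h0, sub_self] at hI
  linear_combination -hI

lemma iter (m : ℤ) (g : ℝ → ℝ) (hg : ContDiff ℝ ((⊤ : ℕ∞) : WithTop ℕ∞) g)
    (hper : ∀ s, g (s + 1) = g s) (k : ℕ) :
    (2 * Real.pi * Complex.I * m) ^ k * (∫ s in (0:ℝ)..1, e (-(m:ℝ) * s) * (g s : ℂ)) =
      ∫ s in (0:ℝ)..1, e (-(m:ℝ) * s) * ((iteratedDeriv k g s : ℝ) : ℂ) := by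
  induction k with
  | zero => simp
  | succ k ih =>
    rw [pow_succ', mul_assoc, ih]
    have hk : (k : WithTop ℕ∞) < ((⊤ : ℕ∞) : WithTop ℕ∞) := by
      exact_mod_cast WithTop.coe_lt_top k
    refine one m _ _ (fun s => ?_) ?_ ?_
    · rw [iteratedDeriv_succ]
      exact ((hg.differentiable_iteratedDeriv k hk) s).hasDerivAt
    · exact hg.continuous_iteratedDeriv (k + 1) (by
        have : ((k + 1 : ℕ) : WithTop ℕ∞) ≤ ((⊤ : ℕ∞) : WithTop ℕ∞) := by
          exact_mod_cast (le_top : ((k + 1 : ℕ) : ℕ∞) ≤ ⊤)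
        exact this)
    · have h1 := iteratedDeriv_comp_add_const k g 1
      have h2 : (fun z => g (z + 1)) = g := funext hper
      rw [h2] at h1
      have := congrFun h1 0
      simp only [zero_add] at this
      exact this.symm

lemma bound (m : ℤ) (g : ℝ → ℝ) (hg : ContDiff ℝ ((⊤ : ℕ∞) : WithTop ℕ∞) g)
    (hper : ∀ s, g (s + 1) = g s) (k : ℕ) (B : ℝ) (hB : ∀ s, |iteratedDeriv k g s| ≤ B) :
    ‖∫ s in (0:ℝ)..1, e (-(m:ℝ) * s) * (g s : ℂ)‖ * (2 * Real.pi * |(m : ℝ)|) ^ k ≤ B := by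
  have h1 := iter m g hg hper k
  have h2 : ‖(2 * Real.pi * Complex.I * m : ℂ) ^ k‖ = (2 * Real.pi * |(m : ℝ)|) ^ k := by
    rw [norm_pow]
    congr 1
    simp only [norm_mul, Complex.norm_ofNat, Complex.norm_real, Complex.norm_I, mul_one,
      Real.norm_eq_abs, abs_of_pos Real.pi_pos]
    congr 1
    rw [Complex.norm_intCast]
  rw [mul_comm, ← h2, ← norm_mul, h1]
  have h3 := intervalIntegral.norm_integral_le_of_norm_le_const (a := (0:ℝ)) (b := 1) (C := B)
    (f := fun s => e (-(m:ℝ) * s) * ((iteratedDeriv k g s : ℝ) : ℂ)) (fun s _ => by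
      rw [norm_mul, norm_e, one_mul, Complex.norm_real, Real.norm_eq_abs]
      exact hB s)
  simpa using h3

section Main

lemma mF {d : ℕ} (Q : Fin d → ℤ) (x : Fin d → ℝ) :
    UnitAddTorus.mFourier Q (fun i => (x i : UnitAddCircle)) = e (tf x Q) := by
  simp only [UnitAddTorus.mFourier, ContinuousMap.coe_mk, fourier_coe_apply]
  rw [← Complex.exp_sum]
  unfold e tf
  congr 1
  push_cast
  rw [Finset.mul_sum]
  refine Finset.sum_congr rfl fun i _ => ?_
  simp only [div_one]
  ring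

lemma e_add (x y : ℝ) : e (x + y) = e x * e y := by
  unfold e
  rw [← Complex.exp_add]
  congr 1
  push_cast
  ring

lemma tf_line {d : ℕ} (Q : Fin d → ℤ) (i : Fin d) (x : Fin d → ℝ) (s : ℝ) :
    tf (x + s • (Pi.single i (1 : ℝ) : Fin d → ℝ)) Q = tf x Q + (Q i : ℝ) * s := by
  unfold tf
  simp only [Pi.add_apply, Pi.smul_apply, smul_eq_mul, mul_add, Finset.sum_add_distrib]
  congr 1
  rw [Finset.sum_eq_single i]
  · simp
  · intro j _ hj
    simp [Pi.single_eq_of_ne hj]
  · simp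

lemma cont_of {d : ℕ} (φ : (Fin d → UnitAddCircle) → ℝ)
    (h : Continuous (fun x : Fin d → ℝ => φ (fun i => (x i : UnitAddCircle)))) :
    Continuous φ := by
  have hq : IsOpenQuotientMap (Pi.map (fun (_ : Fin d) (y : ℝ) => (y : UnitAddCircle))) :=
    IsOpenQuotientMap.piMap fun _ => QuotientAddGroup.isOpenQuotientMap_mk
  exact hq.isQuotientMap.continuous_iff.2 h

/-- the coefficient is an integral over every translate of the unit cube -/
lemma coeff_shift {d : ℕ} (f : UnitAddTorus (Fin d) → ℂ) (Q : Fin d → ℤ) (v : Fin d → ℝ) :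
    UnitAddTorus.mFourierCoeff f Q =
      ∫ x in {x : Fin d → ℝ | ∀ i, x i ∈ Ioc (0:ℝ) (0 + 1)},
        UnitAddTorus.mFourier (-Q) (fun i => ((x + v) i : UnitAddCircle)) •
          f (fun i => ((x + v) i : UnitAddCircle)) := by
  rw [UnitAddTorus.mFourierCoeff_eq_integral f Q v]
  rw [← (measurePreserving_add_right (volume : Measure (Fin d → ℝ)) v).setIntegral_preimage_emb
    (measurableEmbedding_addRight v)]
  congr 2
  ext x
  simp only [mem_preimage, mem_ofPred_eq, Pi.add_apply, mem_Ioc]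
  refine forall_congr' fun i => ?_
  constructor
  · rintro ⟨h1, h2⟩
    exact ⟨by linarith, by linarith⟩
  · rintro ⟨h1, h2⟩
    exact ⟨by linarith, by linarith⟩

lemma vol_cube (d : ℕ) :
    volume {x : Fin d → ℝ | ∀ i, x i ∈ Ioc (0:ℝ) (0 + 1)} = 1 := by
  have : {x : Fin d → ℝ | ∀ i, x i ∈ Ioc (0:ℝ) (0 + 1)} =
      Set.pi univ (fun i : Fin d => Ioc ((fun _ => (0:ℝ)) i) ((fun _ => (0:ℝ) + 1) i)) := by
    ext x
    simp
  rw [this, Real.volume_pi_Ioc]
  simp

lemma main1 {d : ℕ} (φ : (Fin d → UnitAddCircle) → ℝ)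
    (hφ : ContDiff ℝ ((⊤ : ℕ∞) : WithTop ℕ∞)
      (fun x : Fin d → ℝ => φ (fun i => (x i : UnitAddCircle))))
    (Q : Fin d → ℤ) (i : Fin d) (k : ℕ) (B : ℝ)
    (hB : ∀ x : Fin d → ℝ, |iteratedDeriv k (fun s : ℝ =>
      φ (fun j => ((x + s • (Pi.single i (1 : ℝ) : Fin d → ℝ)) j : UnitAddCircle))) 0| ≤ B) :
    ‖UnitAddTorus.mFourierCoeff (fun t => (φ t : ℂ)) Q‖ * (2 * Real.pi * |(Q i : ℝ)|) ^ k ≤ B := by
  set w : Fin d → ℝ := Pi.single i 1 with hw
  set F : (Fin d → ℝ) → ℝ := fun x => φ (fun j => (x j : UnitAddCircle)) with hF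
  have hFc : Continuous F := hφ.continuous
  have hφc : Continuous φ := cont_of φ hFc
  obtain ⟨M, hM⟩ : ∃ M, ∀ t, ‖φ t‖ ≤ M := by
    obtain ⟨M, hM⟩ := isCompact_univ.exists_bound_of_continuousOn hφc.continuousOn
    exact ⟨M, fun t => hM t (mem_univ t)⟩
  set cube := {x : Fin d → ℝ | ∀ i, x i ∈ Ioc (0:ℝ) (0 + 1)} with hcube
  have hvol : volume cube = 1 := vol_cube d
  haveI : IsFiniteMeasure (volume.restrict cube) := ⟨by
    rw [Measure.restrict_apply_univ, hvol]; exact ENNReal.one_lt_top⟩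
  haveI : IsFiniteMeasure (volume.restrict (Ioc (0:ℝ) 1)) := ⟨by
    rw [Measure.restrict_apply_univ, Real.volume_Ioc]; exact ENNReal.ofReal_lt_top⟩
  set H : ℝ → (Fin d → ℝ) → ℂ := fun s x =>
    e (-(tf x Q)) * (e (-(Q i : ℝ) * s) * (F (x + s • w) : ℂ)) with hH
  have hshift : ∀ s : ℝ, UnitAddTorus.mFourierCoeff (fun t => (φ t : ℂ)) Q =
      ∫ x in cube, H s x := by
    intro s
    rw [coeff_shift _ Q (s • w)]
    refine integral_congr_ae (Eventually.of_forall fun x => ?_)
    simp only [hH]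
    rw [mF (-Q) (x + s • w), hw, tf_line (-Q) i x s, e_add, smul_eq_mul, mul_assoc]
    have h1 : tf x (-Q) = -(tf x Q) := by
      unfold tf
      rw [← Finset.sum_neg_distrib]
      refine Finset.sum_congr rfl fun j _ => ?_
      simp
    rw [h1]
    simp only [Pi.neg_apply, Int.cast_neg]
    rfl
  have htfc : Continuous fun x : Fin d → ℝ => tf x Q := by
    unfold tf
    fun_prop
  have hHc : Continuous (Function.uncurry H) := by
    simp only [hH, Function.uncurry]
    have h1 : Continuous fun p : ℝ × (Fin d → ℝ) => e (-(tf p.2 Q)) :=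
      continuous_e.comp ((htfc.comp continuous_snd).neg)
    have h2 : Continuous fun p : ℝ × (Fin d → ℝ) => e (-(Q i : ℝ) * p.1) :=
      continuous_e.comp (by fun_prop)
    have h3 : Continuous fun p : ℝ × (Fin d → ℝ) => (F (p.2 + p.1 • w) : ℂ) :=
      Complex.continuous_ofReal.comp (hFc.comp (by fun_prop))
    exact h1.mul (h2.mul h3)
  have hint : Integrable (Function.uncurry H)
      ((volume.restrict (Ioc (0:ℝ) 1)).prod (volume.restrict cube)) := by
    refine Integrable.of_bound hHc.aestronglyMeasurable M (Eventually.of_forall fun p => ?_)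
    simp only [hH, Function.uncurry, norm_mul, norm_e, one_mul, Complex.norm_real]
    exact hM _
  have hrep : UnitAddTorus.mFourierCoeff (fun t => (φ t : ℂ)) Q =
      ∫ x in cube, e (-(tf x Q)) * ∫ s in (0:ℝ)..1, e (-(Q i : ℝ) * s) * (F (x + s • w) : ℂ) := by
    calc UnitAddTorus.mFourierCoeff (fun t => (φ t : ℂ)) Q
        = ∫ s in Ioc (0:ℝ) 1, UnitAddTorus.mFourierCoeff (fun t => (φ t : ℂ)) Q := by simp
      _ = ∫ s in Ioc (0:ℝ) 1, ∫ x in cube, H s x :=
        integral_congr_ae (Eventually.of_forall fun s => hshift s)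
      _ = ∫ x in cube, ∫ s in Ioc (0:ℝ) 1, H s x := integral_integral_swap hint
      _ = _ := by
        refine integral_congr_ae (Eventually.of_forall fun x => ?_)
        simp only [hH]
        rw [integral_const_mul, intervalIntegral.integral_of_le zero_le_one]
  have hin : ∀ x : Fin d → ℝ,
      ‖∫ s in (0:ℝ)..1, e (-(Q i : ℝ) * s) * (F (x + s • w) : ℂ)‖ *
        (2 * Real.pi * |(Q i : ℝ)|) ^ k ≤ B := by
    intro x
    refine bound (Q i) (fun s => F (x + s • w)) ?_ ?_ k B ?_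
    · exact hφ.comp (by fun_prop)
    · intro s
      simp only [hF]
      congr 1
      funext j
      rcases eq_or_ne j i with h | h
      · subst h
        have h1 : (x + (s + 1) • w) j = (x + s • w) j + 1 := by
          simp only [hw, Pi.add_apply, Pi.smul_apply, Pi.single_eq_same, smul_eq_mul]
          ring
        rw [h1]
        exact AddCircle.coe_add_period 1 _
      · have h1 : (x + (s + 1) • w) j = (x + s • w) j := by
          simp [hw, Pi.single_eq_of_ne h]
        rw [h1]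
    · intro s
      have h1 := iteratedDeriv_comp_const_add k (fun s => F (x + s • w)) s
      have h2 := congrFun h1 0
      simp only [add_zero] at h2
      rw [← h2]
      have h3 : (fun z : ℝ => F (x + (s + z) • w)) = fun z : ℝ => F ((x + s • w) + z • w) := by
        funext z
        rw [add_smul, add_assoc]
      rw [h3]
      exact hB (x + s • w)
  set P : ℝ := (2 * Real.pi * |(Q i : ℝ)|) ^ k with hP
  have hP0 : 0 ≤ P := by positivity
  have h4 : ‖UnitAddTorus.mFourierCoeff (fun t => (φ t : ℂ)) Q‖ * P =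
      ‖∫ x in cube, (P : ℂ) * (e (-(tf x Q)) *
        ∫ s in (0:ℝ)..1, e (-(Q i : ℝ) * s) * (F (x + s • w) : ℂ))‖ := by
    rw [integral_const_mul, ← hrep, norm_mul, Complex.norm_real, Real.norm_eq_abs,
      abs_of_nonneg hP0, mul_comm]
  rw [h4]
  have h5 := norm_setIntegral_le_of_norm_le_const (μ := (volume : Measure (Fin d → ℝ)))
    (s := cube) (C := B)
    (f := fun x => (P : ℂ) * (e (-(tf x Q)) *
        ∫ s in (0:ℝ)..1, e (-(Q i : ℝ) * s) * (F (x + s • w) : ℂ)))
    (by rw [hvol]; exact ENNReal.one_lt_top) (fun x _ => by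
      rw [norm_mul, norm_mul, norm_e, one_mul, Complex.norm_real, Real.norm_eq_abs,
        abs_of_nonneg hP0, mul_comm]
      exact hin x)
  refine h5.trans (le_of_eq ?_)
  rw [measureReal_def, hvol]
  simp

end Main

end ModIBP

theorem mIBP : StmIBP := by
  intro d φ hφ
  have hφc : Continuous φ := ModIBP.cont_of φ hφ.continuous
  refine ⟨fun Q => UnitAddTorus.mFourierCoeff (fun t => (φ t : ℂ)) Q, ?_, ?_⟩
  · intro Q i k B hB
    exact ModIBP.main1 φ hφ Q i k B hB
  · intro hs x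
    set f : C(UnitAddTorus (Fin d), ℂ) := ⟨fun t => (φ t : ℂ),
      Complex.continuous_ofReal.comp hφc⟩ with hf
    have h1 : Summable (UnitAddTorus.mFourierCoeff f) := Summable.of_norm hs
    have h2 := UnitAddTorus.hasSum_mFourier_series_apply_of_summable h1
      (fun i => (x i : UnitAddCircle))
    have h3 := h2.tsum_eq
    have h4 : (f fun i => (x i : UnitAddCircle)) = (φ (fun i => (x i : UnitAddCircle)) : ℂ) := rfl
    rw [← h4, ← h3]
    refine tsum_congr fun Q => ?_
    rw [ModIBP.mF, smul_eq_mul]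
    rfl

end Pool.Agent.T6.H46.CZ
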