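import Pool.Agent.T6.H46.CZ.Stm

/-!
Project CZ (MP_3d11e1_an), second part: the one-sided case for smooth functions.
-/

set_option autoImplicit false

namespace Pool.Agent.T6.H46.CZ

open Finset Filter

/-- minus the derivative of the cubic B-spline -/
noncomputable def mm (s : ℝ) : ℝ :=
  if |s| ≤ 1 then 2 * s - 3 / 2 * s * |s|
  else if |s| ≤ 2 then (if 0 < s then 1 else -1) * (2 - |s|) ^ 2 / 2 else 0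

/-- the profile `mm s / s` for `s ≥ 0` -/
noncomputable def gg (s : ℝ) : ℝ :=
  if s ≤ 1 then 2 - 3 / 2 * s else if s ≤ 2 then (2 - s) ^ 2 / (2 * s) else 0

/-- the weights `n sinc(π n / N)^4` -/
noncomputable def ww (N n : ℕ) : ℝ := n * Real.sinc (Real.pi * n / N) ^ 4

/-- KER: the sine series of the weights. -/
def StmKER : Prop := ∀ N : ℕ, 4 ≤ N → ∀ t : ℝ, |t| ≤ 1 / 2 →
  HasSum (fun n : ℕ => ww N n * Real.sin (2 * Real.pi * n * t))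
    ((N : ℝ) ^ 2 * mm (N * t) / (4 * Real.pi))

/-- FR2: the averages with the weights `ww` in terms of the frequencies. -/
def StmFR2 : Prop := ∀ (d : ℕ) (α : Fin d → ℝ) (a : (Fin d → ℤ) → ℂ), Irr α → a 0 = 0 →
  (Summable fun Q => ‖a Q‖) →
  ∀ S : ℤ → ℝ, (∀ n : ℤ, ((S (n + 1) - S n : ℝ) : ℂ) = ∑' Q, a Q * e (n * tf α Q)) →
  ∃ b : (Fin d → ℤ) → ℂ, b 0 = 0 ∧ (∀ Q, ‖b Q‖ ≤ ‖a Q‖) ∧ ∀ N : ℕ, 4 ≤ N →
    Summable (fun n : ℕ => ww N n * (S n - S (-(n : ℤ)))) ∧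
    (((∑' n : ℕ, ww N n * (S n - S (-(n : ℤ)))) / (N : ℝ) ^ 3 : ℝ) : ℂ) =
      ∑' Q, b Q * ((gg (N * nd (tf α Q)) : ℝ) : ℂ)

/-- PS2: averages of a sequence tending to `+∞` with the weights `ww`. -/
def StmPS2 : Prop := ∀ O : ℕ → ℝ, Tendsto O atTop atTop →
  (∀ N : ℕ, 4 ≤ N → Summable fun n : ℕ => ww N n * O n) → ∃ N0 : ℕ, 4 ≤ N0 ∧ ∀ N : ℕ, N0 ≤ N →
  0 < ∑' n : ℕ, ww N n * O n ∧ ∑' n : ℕ, ww N n * O n ≤ 2 * ∑' n : ℕ, ww (2 * N) n * O n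

/-- CT2: chains of linear forms of rapidly decreasing size are short. -/
def StmCT2 : Prop := ∀ d : ℕ, ∃ C : ℝ, 0 < C ∧ ∀ α : Fin d → ℝ, Irr α → ∀ R : ℝ, 1 ≤ R →
  ∀ (k : ℕ) (q : ℕ → (Fin d → ℤ)), (∀ i, i < k → q i ≠ 0 ∧ ‖q i‖ ≤ R) →
  (∀ i, i + 1 < k → 4 * nd (tf α (q (i + 1))) < nd (tf α (q i))) →
  (2 : ℝ) ^ k ≤ C * R ^ (2 * d)

/-- RC2: the recursion over the scales. -/
def StmRC2 : Prop := ∀ (d : ℕ) (α : Fin d → ℝ) (b : (Fin d → ℤ) → ℂ), Irr α → b 0 = 0 →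
  (∀ s : ℕ, Summable fun Q => ‖b Q‖ * ‖Q‖ ^ s) → ∀ (B : ℕ → ℝ) (N0 : ℕ), 4 ≤ N0 →
  (∀ N : ℕ, N0 ≤ N → (B N : ℂ) = ∑' Q, b Q * ((gg (N * nd (tf α Q)) : ℝ) : ℂ)) →
  ¬ (∀ N : ℕ, N0 ≤ N → 0 < B N ∧ B N ≤ 16 * B (2 * N))

end Pool.Agent.T6.H46.CZ
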