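import Mathlib
import Pool.Agent.T6.H46.CZ.Stm2

/-!
Project CZ (MP_3d11e1_an), module KER: the sine series of the weights.
-/

set_option autoImplicit false

namespace Pool.Agent.T6.H46.CZ

open Finset Filter

namespace ModKER

/-- the third Bernoulli polynomial -/
theorem bern3 (x : ℝ) :
    (Polynomial.map (algebraMap ℚ ℝ) (Polynomial.bernoulli 3)).eval x
      = x ^ 3 - 3 / 2 * x ^ 2 + x / 2 := by
  rw [Polynomial.eval_map]
  simp_rw [Polynomial.bernoulli, Finset.sum_range_succ, Polynomial.eval₂_add,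
    Polynomial.eval₂_monomial]
  rw [Finset.sum_range_zero, Polynomial.eval₂_zero, zero_add, bernoulli_one]
  rw [bernoulli_eq_bernoulli'_of_ne_one zero_ne_one, bernoulli'_zero,
    bernoulli_eq_bernoulli'_of_ne_one (by decide : 2 ≠ 1), bernoulli'_two,
    bernoulli_eq_bernoulli'_of_ne_one (by decide : 3 ≠ 1), bernoulli'_three]
  norm_num
  ring

/-- the sine series, positive argument -/
theorem ser_pos {x : ℝ} (h0 : 0 ≤ x) (h1 : x ≤ 1) :
    HasSum (fun n : ℕ => 1 / (n : ℝ) ^ 3 * Real.sin (2 * Real.pi * n * x))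
      (2 * Real.pi ^ 3 / 3 * (x ^ 3 - 3 / 2 * x * |x| + x / 2)) := by
  have h := hasSum_one_div_nat_pow_mul_sin (k := 1) one_ne_zero (x := x) ⟨h0, h1⟩
  norm_num only at h
  rw [bern3] at h
  convert h using 1
  rw [abs_of_nonneg h0]
  norm_num [Nat.factorial]
  ring

/-- the sine series -/
theorem ser {x : ℝ} (h : |x| ≤ 1) :
    HasSum (fun n : ℕ => 1 / (n : ℝ) ^ 3 * Real.sin (2 * Real.pi * n * x))
      (2 * Real.pi ^ 3 / 3 * (x ^ 3 - 3 / 2 * x * |x| + x / 2)) := by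
  rcases le_total 0 x with h0 | h0
  · exact ser_pos h0 (by rwa [abs_of_nonneg h0] at h)
  · rw [abs_of_nonpos h0] at h
    have h1 := (ser_pos (x := -x) (by linarith) h).neg
    rw [abs_neg] at h1
    have e1 : (fun n : ℕ => 1 / (n : ℝ) ^ 3 * Real.sin (2 * Real.pi * n * x)) =
        fun n : ℕ => -(1 / (n : ℝ) ^ 3 * Real.sin (2 * Real.pi * n * -x)) := by
      ext n
      rw [show 2 * Real.pi * (n : ℝ) * -x = -(2 * Real.pi * n * x) by ring, Real.sin_neg]
      ring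
    have e2 : 2 * Real.pi ^ 3 / 3 * (x ^ 3 - 3 / 2 * x * |x| + x / 2) =
        -(2 * Real.pi ^ 3 / 3 * ((-x) ^ 3 - 3 / 2 * -x * |x| + -x / 2)) := by ring
    rw [e1, e2]
    exact h1

/-- trigonometric identity -/
theorem trig (A θ : ℝ) : Real.sin (A + 4 * θ) - 4 * Real.sin (A + 2 * θ) + 6 * Real.sin A
    - 4 * Real.sin (A - 2 * θ) + Real.sin (A - 4 * θ) = 16 * Real.sin θ ^ 4 * Real.sin A := by
  rw [Real.sin_add, Real.sin_add, Real.sin_sub, Real.sin_sub,
    show (4 : ℝ) * θ = 2 * (2 * θ) by ring, Real.cos_two_mul (2 * θ), Real.cos_two_mul θ]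
  have h := Real.sin_sq_add_cos_sq θ
  have h2 : Real.cos θ ^ 2 = 1 - Real.sin θ ^ 2 := by linarith
  rw [h2]
  ring

/-- the terms -/
theorem term (N : ℕ) (hN : 4 ≤ N) (n : ℕ) (t : ℝ) :
    ww N n * Real.sin (2 * Real.pi * n * t) =
      (N : ℝ) ^ 4 / (16 * Real.pi ^ 4) *
      (1 / (n : ℝ) ^ 3 * Real.sin (2 * Real.pi * n * (t + 2 / N))
       - 4 * (1 / (n : ℝ) ^ 3 * Real.sin (2 * Real.pi * n * (t + 1 / N)))
       + 6 * (1 / (n : ℝ) ^ 3 * Real.sin (2 * Real.pi * n * t))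
       - 4 * (1 / (n : ℝ) ^ 3 * Real.sin (2 * Real.pi * n * (t - 1 / N)))
       + 1 / (n : ℝ) ^ 3 * Real.sin (2 * Real.pi * n * (t - 2 / N))) := by
  have hN0 : (N : ℝ) ≠ 0 := by
    have : (4 : ℝ) ≤ N := by exact_mod_cast hN
    positivity
  rcases Nat.eq_zero_or_pos n with rfl | hn
  · simp [ww]
  have hn0 : (n : ℝ) ≠ 0 := by positivity
  have hpi : Real.pi ≠ 0 := Real.pi_ne_zero
  have h := trig (2 * Real.pi * n * t) (Real.pi * n / N)
  have e1 : 2 * Real.pi * n * (t + 2 / N) = 2 * Real.pi * n * t + 4 * (Real.pi * n / N) := by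
    field_simp
    ring
  have e2 : 2 * Real.pi * n * (t + 1 / N) = 2 * Real.pi * n * t + 2 * (Real.pi * n / N) := by
    field_simp
  have e3 : 2 * Real.pi * n * (t - 1 / N) = 2 * Real.pi * n * t - 2 * (Real.pi * n / N) := by
    field_simp
  have e4 : 2 * Real.pi * n * (t - 2 / N) = 2 * Real.pi * n * t - 4 * (Real.pi * n / N) := by
    field_simp
    ring
  rw [e1, e2, e3, e4]
  have h3 : (1 / (n : ℝ) ^ 3 * Real.sin (2 * Real.pi * n * t + 4 * (Real.pi * n / N))
       - 4 * (1 / (n : ℝ) ^ 3 * Real.sin (2 * Real.pi * n * t + 2 * (Real.pi * n / N)))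
       + 6 * (1 / (n : ℝ) ^ 3 * Real.sin (2 * Real.pi * n * t))
       - 4 * (1 / (n : ℝ) ^ 3 * Real.sin (2 * Real.pi * n * t - 2 * (Real.pi * n / N)))
       + 1 / (n : ℝ) ^ 3 * Real.sin (2 * Real.pi * n * t - 4 * (Real.pi * n / N))) =
      1 / (n : ℝ) ^ 3 * (16 * Real.sin (Real.pi * n / N) ^ 4 * Real.sin (2 * Real.pi * n * t)) := by
    rw [← h]
    ring
  rw [h3]
  unfold ww
  rw [Real.sinc_of_ne_zero (by positivity)]
  field_simp

/-- the profile as a difference -/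
theorem mm_eq (s : ℝ) : mm s = -(1 / 4) * ((s + 2) * |s + 2| - 4 * ((s + 1) * |s + 1|)
    + 6 * (s * |s|) - 4 * ((s - 1) * |s - 1|) + (s - 2) * |s - 2|) := by
  unfold mm
  rcases le_total 0 s with h0 | h0
  · rw [abs_of_nonneg h0, abs_of_nonneg (by linarith : 0 ≤ s + 2),
      abs_of_nonneg (by linarith : 0 ≤ s + 1)]
    rcases le_or_gt s 1 with h1 | h1
    · rw [if_pos h1, abs_of_nonpos (by linarith : s - 1 ≤ 0),
        abs_of_nonpos (by linarith : s - 2 ≤ 0)]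
      ring
    · rw [if_neg (not_le.2 h1), abs_of_nonneg (by linarith : 0 ≤ s - 1)]
      rcases le_or_gt s 2 with h2 | h2
      · rw [if_pos h2, if_pos (by linarith : 0 < s), abs_of_nonpos (by linarith : s - 2 ≤ 0)]
        ring
      · rw [if_neg (not_le.2 h2), abs_of_nonneg (by linarith : 0 ≤ s - 2)]
        ring
  · rw [abs_of_nonpos h0, abs_of_nonpos (by linarith : s - 2 ≤ 0),
      abs_of_nonpos (by linarith : s - 1 ≤ 0)]
    rcases le_or_gt (-s) 1 with h1 | h1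
    · rw [if_pos h1, abs_of_nonneg (by linarith : 0 ≤ s + 1),
        abs_of_nonneg (by linarith : 0 ≤ s + 2)]
      ring
    · rw [if_neg (not_le.2 h1), abs_of_nonpos (by linarith : s + 1 ≤ 0)]
      rcases le_or_gt (-s) 2 with h2 | h2
      · rw [if_pos h2, if_neg (by linarith : ¬ 0 < s), abs_of_nonneg (by linarith : 0 ≤ s + 2)]
        ring
      · rw [if_neg (not_le.2 h2), abs_of_nonpos (by linarith : s + 2 ≤ 0)]
        ring

/-- the absolute value of a quotient -/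
theorem sc {N : ℝ} (hN : 0 < N) (t : ℝ) (j : ℝ) : (t + j / N) * |t + j / N| =
    ((N * t + j) * |N * t + j|) / N ^ 2 := by
  have h : t + j / N = (N * t + j) / N := by
    field_simp
  rw [h, abs_div, abs_of_pos hN]
  field_simp

end ModKER

open ModKER in
/-- KER -/
theorem mKER : StmKER := by
  intro N hN t ht
  have hN4 : (4 : ℝ) ≤ N := by exact_mod_cast hN
  have hN0 : (0 : ℝ) < N := by linarith
  have h2N : 2 / (N : ℝ) ≤ 1 / 2 := by
    rw [div_le_iff₀ hN0]
    linarith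
  have h1N : 1 / (N : ℝ) ≤ 1 / 2 := by
    rw [div_le_iff₀ hN0]
    linarith
  have h2N' : 0 < 2 / (N : ℝ) := by positivity
  have h1N' : 0 < 1 / (N : ℝ) := by positivity
  obtain ⟨ht1, ht2⟩ := abs_le.1 ht
  have s1 := ser (x := t + 2 / N) (abs_le.2 ⟨by linarith, by linarith⟩)
  have s2 := ser (x := t + 1 / N) (abs_le.2 ⟨by linarith, by linarith⟩)
  have s3 := ser (x := t) (abs_le.2 ⟨by linarith, by linarith⟩)
  have s4 := ser (x := t - 1 / N) (abs_le.2 ⟨by linarith, by linarith⟩)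
  have s5 := ser (x := t - 2 / N) (abs_le.2 ⟨by linarith, by linarith⟩)
  have s := ((((s1.sub (s2.mul_left 4)).add (s3.mul_left 6)).sub (s4.mul_left 4)).add s5).mul_left
    ((N : ℝ) ^ 4 / (16 * Real.pi ^ 4))
  have hf : (fun n : ℕ => ww N n * Real.sin (2 * Real.pi * n * t)) = _ :=
    funext fun n => term N hN n t
  rw [hf]
  refine (Eq.subst (motive := fun v => HasSum _ v) ?_ s)
  rw [mm_eq]
  have g1 := sc hN0 t 2
  have g2 := sc hN0 t 1
  have g3 := sc hN0 t 0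
  have g4 := sc hN0 t (-1)
  have g5 := sc hN0 t (-2)
  rw [zero_div, add_zero, add_zero] at g3
  rw [neg_div, ← sub_eq_add_neg, ← sub_eq_add_neg] at g4 g5
  have r : ∀ x : ℝ, x ^ 3 - 3 / 2 * x * |x| + x / 2 = x ^ 3 - 3 / 2 * (x * |x|) + x / 2 :=
    fun x => by ring
  rw [r, r, r, r, r, g1, g2, g3, g4, g5]
  have hpi : Real.pi ≠ 0 := Real.pi_ne_zero
  field_simp
  ring

end Pool.Agent.T6.H46.CZ
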