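import Pool.Agent.T6.H46.CZ.Stm

/-!
Project CZ, module MEA: cocycles with nonzero mean over a minimal rotation have no recurrence.
-/

set_option autoImplicit false

namespace Pool.Agent.T6.H46.CZ

open Filter

lemma mea_abs_cof : Tendsto (fun n : ℤ => |(n : ℝ)|) cofinite atTop := by
  rw [Int.cofinite_eq]
  refine Tendsto.sup ?_ ?_
  · exact tendsto_abs_atBot_atTop.comp (tendsto_intCast_atBot_iff.mpr tendsto_id)
  · exact tendsto_abs_atTop_atTop.comp tendsto_intCast_atTop_atTop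

lemma mea_e_int (n : ℤ) (t : ℝ) : e (n * t) = e t ^ n := by
  unfold e
  rw [← Complex.exp_int_mul]
  congr 1
  push_cast
  ring

lemma mea_norm_e (t : ℝ) : ‖e t‖ = 1 := by
  unfold e
  have h : (2 * Real.pi * Complex.I * (t : ℂ)) = ((2 * Real.pi * t : ℝ) : ℂ) * Complex.I := by
    push_cast
    ring
  rw [h]
  exact Complex.norm_exp_ofReal_mul_I _

lemma mea_e_eq_one (t : ℝ) (h : e t = 1) : ∃ k : ℤ, t = k := by
  unfold e at h
  rw [Complex.exp_eq_one_iff] at h
  obtain ⟨k, hk⟩ := h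
  refine ⟨k, ?_⟩
  have hpi : (2 * (Real.pi : ℂ) * Complex.I) ≠ 0 := Complex.two_pi_I_ne_zero
  have h2 : (t : ℂ) = (k : ℂ) := by
    have h3 : (2 * (Real.pi : ℂ) * Complex.I) * (t : ℂ) =
        (2 * (Real.pi : ℂ) * Complex.I) * (k : ℂ) := by
      rw [hk]
      ring
    exact mul_left_cancel₀ hpi h3
  exact_mod_cast h2

/-- the geometric sums -/
noncomputable def meaD (n : ℤ) (z : ℂ) : ℂ := if z = 1 then (n : ℂ) else (z ^ n - 1) / (z - 1)

lemma meaD_zero (z : ℂ) : meaD 0 z = 0 := by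
  unfold meaD
  split_ifs <;> simp

lemma meaD_succ (n : ℤ) (z : ℂ) (hz : z ≠ 0) : meaD (n + 1) z = meaD n z + z ^ n := by
  unfold meaD
  split_ifs with h
  · subst h
    simp
  · have h1 : z - 1 ≠ 0 := sub_ne_zero.mpr h
    rw [zpow_add_one₀ hz]
    field_simp
    ring

lemma meaD_norm (n : ℤ) (z : ℂ) (hz : ‖z‖ = 1) : ‖meaD n z‖ ≤ |(n : ℝ)| := by
  have hz0 : z ≠ 0 := by
    intro h
    rw [h] at hz
    simp at hz
  have hn : ∀ m : ℤ, ‖z ^ m‖ = 1 := fun m => by rw [norm_zpow, hz, one_zpow]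
  have hpos : ∀ m : ℕ, ‖meaD (m : ℤ) z‖ ≤ m := by
    intro m
    induction m with
    | zero => simp [meaD_zero]
    | succ m ih =>
      have h1 := meaD_succ (m : ℤ) z hz0
      have h2 : ((m + 1 : ℕ) : ℤ) = (m : ℤ) + 1 := by push_cast; ring
      rw [h2, h1]
      have h3 := norm_add_le (meaD (m : ℤ) z) (z ^ (m : ℤ))
      rw [hn] at h3
      push_cast
      linarith
  have hneg : ∀ m : ℕ, ‖meaD (-(m : ℤ)) z‖ ≤ m := by
    intro m
    induction m with
    | zero => simp [meaD_zero]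
    | succ m ih =>
      have h1 := meaD_succ (-((m + 1 : ℕ) : ℤ)) z hz0
      have h2 : -((m + 1 : ℕ) : ℤ) + 1 = -(m : ℤ) := by push_cast; ring
      rw [h2] at h1
      have h4 : meaD (-((m + 1 : ℕ) : ℤ)) z = meaD (-(m : ℤ)) z - z ^ (-((m + 1 : ℕ) : ℤ)) := by
        rw [h1]
        ring
      rw [h4]
      have h3 := norm_sub_le (meaD (-(m : ℤ)) z) (z ^ (-((m + 1 : ℕ) : ℤ)))
      rw [hn] at h3
      push_cast at h3 ih ⊢
      linarith
  rcases Int.eq_nat_or_neg n with ⟨m, rfl | rfl⟩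
  · refine (hpos m).trans (le_of_eq ?_)
    simp
  · refine (hneg m).trans (le_of_eq ?_)
    simp

/-- the cocycle in terms of the geometric sums -/
lemma mea_formula {ι : Type} (a : ι → ℂ) (t : ι → ℝ) (ha : Summable fun Q => ‖a Q‖) (S : ℤ → ℝ)
    (hS : ∀ n : ℤ, ((S (n + 1) - S n : ℝ) : ℂ) = ∑' Q, a Q * e (n * t Q)) (n : ℤ) :
    ((S n - S 0 : ℝ) : ℂ) = ∑' Q, a Q * meaD n (e (t Q)) := by
  have hz0 : ∀ x : ℝ, e x ≠ 0 := by
    intro x
    unfold e
    exact Complex.exp_ne_zero _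
  have hsD : ∀ m : ℤ, Summable fun Q => a Q * meaD m (e (t Q)) := by
    intro m
    refine Summable.of_norm_bounded (ha.mul_right |(m : ℝ)|) ?_
    intro Q
    rw [norm_mul]
    exact mul_le_mul_of_nonneg_left (meaD_norm m _ (mea_norm_e _)) (norm_nonneg _)
  have hse : ∀ m : ℤ, Summable fun Q => a Q * e (m * t Q) := by
    intro m
    refine Summable.of_norm_bounded ha ?_
    intro Q
    rw [norm_mul, mea_norm_e, mul_one]
  have hstep : ∀ m : ℤ, (∑' Q, a Q * meaD (m + 1) (e (t Q))) =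
      (∑' Q, a Q * meaD m (e (t Q))) + ((S (m + 1) - S m : ℝ) : ℂ) := by
    intro m
    rw [hS m, ← (hsD m).tsum_add (hse m)]
    refine tsum_congr ?_
    intro Q
    rw [meaD_succ m _ (hz0 _), mea_e_int]
    ring
  induction n with
  | zero => simp [meaD_zero]
  | succ m ih =>
    rw [hstep, ← ih]
    push_cast
    ring
  | pred m ih =>
    have h1 := hstep (-(m : ℤ) - 1)
    have h2 : -(m : ℤ) - 1 + 1 = -(m : ℤ) := by ring
    rw [h2, ← ih] at h1
    have h3 : (∑' Q, a Q * meaD (-(m : ℤ) - 1) (e (t Q))) =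
        ((S (-(m : ℤ)) - S 0 : ℝ) : ℂ) - ((S (-(m : ℤ)) - S (-(m : ℤ) - 1) : ℝ) : ℂ) := by
      rw [h1]
      ring
    rw [h3]
    push_cast
    ring

theorem mMEA : StmMEA := by
  intro d α a hα ha0 ha S hS
  have hform := mea_formula a (fun Q => tf α Q) ha S hS
  have hlim : Tendsto (fun n : ℤ => ∑' Q, a Q * (meaD n (e (tf α Q)) / (n : ℂ))) cofinite
      (nhds (∑' Q, if Q = 0 then a Q else 0)) := by
    refine tendsto_tsum_of_dominated_convergence (bound := fun Q => ‖a Q‖) ha ?_ ?_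
    · intro Q
      by_cases hQ : Q = 0
      · subst hQ
        rw [if_pos rfl]
        have h1 : tf α (0 : Fin d → ℤ) = 0 := by
          unfold tf
          simp
        have h2 : e (0 : ℝ) = 1 := by
          unfold e
          simp
        refine Tendsto.congr' ?_ tendsto_const_nhds
        have h3 : ∀ᶠ n : ℤ in cofinite, n ≠ 0 := by
          rw [Filter.eventually_cofinite]
          simp
        filter_upwards [h3] with n hn
        rw [h1, h2]
        unfold meaD
        rw [if_pos rfl]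
        have h4 : (n : ℂ) ≠ 0 := by exact_mod_cast hn
        rw [div_self h4, mul_one]
      · rw [if_neg hQ]
        have hne : e (tf α Q) ≠ 1 := by
          intro h
          obtain ⟨k, hk⟩ := mea_e_eq_one _ h
          exact hα Q hQ k hk
        rw [tendsto_zero_iff_norm_tendsto_zero]
        have h5 : Tendsto (fun n : ℤ => (‖a Q‖ * (2 / ‖e (tf α Q) - 1‖)) * |(n : ℝ)|⁻¹) cofinite
            (nhds ((‖a Q‖ * (2 / ‖e (tf α Q) - 1‖)) * 0)) :=
          (tendsto_inv_atTop_zero.comp mea_abs_cof).const_mul _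
        rw [mul_zero] at h5
        refine squeeze_zero (fun n => norm_nonneg _) ?_ h5
        intro n
        have h6 : ‖meaD n (e (tf α Q))‖ ≤ 2 / ‖e (tf α Q) - 1‖ := by
          unfold meaD
          rw [if_neg hne, norm_div]
          refine div_le_div_of_nonneg_right ?_ (norm_nonneg _)
          have h7 := norm_sub_le (e (tf α Q) ^ n) 1
          rw [norm_zpow, mea_norm_e, one_zpow, norm_one] at h7
          linarith
        rw [norm_mul, norm_div, mul_assoc, div_eq_mul_inv]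
        have h8 : ‖(n : ℂ)‖ = |(n : ℝ)| := by
          rw [Complex.norm_intCast]
        rw [h8]
        exact mul_le_mul_of_nonneg_left
          (mul_le_mul_of_nonneg_right h6 (inv_nonneg.mpr (abs_nonneg _))) (norm_nonneg _)
    · refine Filter.Eventually.of_forall ?_
      intro n Q
      rw [norm_mul, norm_div]
      have h8 : ‖(n : ℂ)‖ = |(n : ℝ)| := by
        rw [Complex.norm_intCast]
      rw [h8]
      have h9 : ‖meaD n (e (tf α Q))‖ / |(n : ℝ)| ≤ 1 :=
        div_le_one_of_le₀ (meaD_norm n _ (mea_norm_e _)) (abs_nonneg _)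
      calc ‖a Q‖ * (‖meaD n (e (tf α Q))‖ / |(n : ℝ)|) ≤ ‖a Q‖ * 1 :=
            mul_le_mul_of_nonneg_left h9 (norm_nonneg _)
        _ = ‖a Q‖ := mul_one _
  have hlim2 : Tendsto (fun n : ℤ => |S n - S 0| / |(n : ℝ)|) cofinite (nhds ‖a 0‖) := by
    rw [tsum_ite_eq] at hlim
    have h1 := hlim.norm
    refine h1.congr ?_
    intro n
    have h2 : (∑' Q, a Q * (meaD n (e (tf α Q)) / (n : ℂ))) =
        ((S n - S 0 : ℝ) : ℂ) / (n : ℂ) := by
      rw [hform n, ← tsum_div_const]
      refine tsum_congr ?_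
      intro Q
      ring
    rw [h2, norm_div, Complex.norm_real, Real.norm_eq_abs, Complex.norm_intCast]
  have hpos : 0 < ‖a 0‖ := norm_pos_iff.mpr ha0
  have h3 : Tendsto (fun n : ℤ => |S n - S 0| / |(n : ℝ)| * |(n : ℝ)|) cofinite atTop :=
    hlim2.pos_mul_atTop hpos mea_abs_cof
  have h4 : Tendsto (fun n : ℤ => |S n - S 0|) cofinite atTop := by
    refine h3.congr' ?_
    have h3' : ∀ᶠ n : ℤ in cofinite, n ≠ 0 := by
      rw [Filter.eventually_cofinite]
      simp
    filter_upwards [h3'] with n hn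
    have h5 : |(n : ℝ)| ≠ 0 := by
      rw [abs_ne_zero]
      exact_mod_cast hn
    field_simp
  have h6 : Tendsto (fun n : ℤ => -|S 0| + |S n - S 0|) cofinite atTop :=
    tendsto_atTop_add_const_left _ _ h4
  refine tendsto_atTop_mono ?_ h6
  intro n
  have h7 := abs_sub (S n) (S 0)
  linarith

end Pool.Agent.T6.H46.CZ
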