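import Pool.Agent.T6.H46.CZ.Stm3

set_option autoImplicit false

/-! Project CZ, module MZ: the constant Fourier coefficient is the mean. -/

namespace Pool.Agent.T6.H46.CZ

open MeasureTheory

namespace MZm

theorem int_fourier {n : ℤ} (hn : n ≠ 0) : ∫ x : UnitAddCircle, (fourier n x : ℂ) = 0 :=
  integral_eq_zero_of_add_right_eq_neg (μ := (volume : Measure UnitAddCircle))
    (fourier_add_half_inv_index hn one_pos)

theorem int_prod {d : ℕ} {Q : Fin d → ℤ} (hQ : Q ≠ 0) :
    ∫ x : Fin d → UnitAddCircle, ∏ i, (fourier (Q i) (x i) : ℂ) = 0 := by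
  rw [integral_fintype_prod_volume_eq_prod (fun i (y : UnitAddCircle) => (fourier (Q i) y : ℂ))]
  obtain ⟨i, hi⟩ := Function.ne_iff.mp hQ
  exact Finset.prod_eq_zero (Finset.mem_univ i) (int_fourier hi)

theorem char_eq {d : ℕ} (x : Fin d → ℝ) (Q : Fin d → ℤ) :
    ∏ i, (fourier (Q i) ((x i : ℝ) : UnitAddCircle) : ℂ) = e (tf x Q) := by
  unfold e tf
  have h : 2 * (Real.pi : ℂ) * Complex.I * ((∑ i, (Q i : ℝ) * x i : ℝ) : ℂ) =
      ∑ i, 2 * (Real.pi : ℂ) * Complex.I * (Q i : ℂ) * (x i : ℂ) / ((1 : ℝ) : ℂ) := by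
    push_cast
    rw [Finset.mul_sum]
    refine Finset.sum_congr rfl fun i _ => ?_
    ring
  rw [h, Complex.exp_sum]
  refine Finset.prod_congr rfl fun i _ => ?_
  rw [fourier_coe_apply]

theorem norm_char {d : ℕ} (y : Fin d → UnitAddCircle) (Q : Fin d → ℤ) :
    ‖∏ i, (fourier (Q i) (y i) : ℂ)‖ = 1 := by
  rw [norm_prod]
  refine Finset.prod_eq_one fun i _ => ?_
  rw [fourier_apply]
  exact Circle.norm_coe _

theorem cont_char {d : ℕ} (Q : Fin d → ℤ) :
    Continuous fun y : Fin d → UnitAddCircle => ∏ i, (fourier (Q i) (y i) : ℂ) :=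
  continuous_finsetProd _ fun i _ => (map_continuous (fourier (Q i))).comp (continuous_apply i)

theorem vol_one (d : ℕ) : (volume : Measure (Fin d → UnitAddCircle)).real Set.univ = 1 := by
  rw [Measure.real, volume_pi, Measure.pi_univ]
  simp

end MZm

open MZm

theorem mMZ : StmMZ := by
  intro d φ c hc h
  have h1 : ∀ y : Fin d → UnitAddCircle,
      (φ y : ℂ) = ∑' Q, c Q * ∏ i, (fourier (Q i) (y i) : ℂ) := by
    intro y
    have hs : ∀ i, ∃ x : ℝ, (x : UnitAddCircle) = y i := fun i =>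
      QuotientAddGroup.mk_surjective (y i)
    choose x hx using hs
    have hy : y = fun i => ((x i : ℝ) : UnitAddCircle) := funext fun i => (hx i).symm
    rw [hy, h x]
    exact tsum_congr fun Q => by rw [char_eq]
  have h2 : ((∫ x : Fin d → UnitAddCircle, φ x : ℝ) : ℂ) =
      ∫ x : Fin d → UnitAddCircle, (φ x : ℂ) := (integral_ofReal).symm
  have h3 : (fun x : Fin d → UnitAddCircle => (φ x : ℂ)) =
      fun x => ∑' Q, c Q * ∏ i, (fourier (Q i) (x i) : ℂ) := funext h1
  rw [h2, h3]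
  have hint : ∀ Q : Fin d → ℤ, Integrable
      (fun y : Fin d → UnitAddCircle => c Q * ∏ i, (fourier (Q i) (y i) : ℂ)) := by
    intro Q
    exact (continuous_const.mul (cont_char Q)).integrable_of_hasCompactSupport
      (HasCompactSupport.of_compactSpace _)
  have hn : ∀ Q : Fin d → ℤ, ∫ y : Fin d → UnitAddCircle,
      ‖c Q * ∏ i, (fourier (Q i) (y i) : ℂ)‖ = ‖c Q‖ := by
    intro Q
    have : (fun y : Fin d → UnitAddCircle => ‖c Q * ∏ i, (fourier (Q i) (y i) : ℂ)‖) =
        fun _ => ‖c Q‖ := funext fun y => by rw [norm_mul, norm_char, mul_one]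
    rw [this, integral_const, vol_one, one_smul]
  have hsum := hasSum_integral_of_summable_integral_norm hint (by simpa only [hn] using hc)
  rw [← hsum.tsum_eq, tsum_eq_single (0 : Fin d → ℤ)]
  · have : (fun y : Fin d → UnitAddCircle =>
        c 0 * ∏ i, (fourier ((0 : Fin d → ℤ) i) (y i) : ℂ)) = fun _ => c 0 := by
      funext y
      simp
    rw [this, integral_const, vol_one, one_smul]
  · intro Q hQ
    rw [integral_const_mul, int_prod hQ, mul_zero]

end Pool.Agent.T6.H46.CZ
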