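import Pool.Agent.T6.H46.CZ.Stm2

/-!
Project CZ (MP_3d11e1_an), second part, module PS2: averages of a sequence tending to `+∞` with the
weights `ww`.
-/

set_option autoImplicit false

namespace Pool.Agent.T6.H46.CZ

open Finset Filter

namespace PS2

theorem sinc_half (x : ℝ) : Real.sinc x = Real.sinc (x / 2) * Real.cos (x / 2) := by
  rcases eq_or_ne x 0 with rfl | hx
  · simp
  · have h2 : x / 2 ≠ 0 := by positivity
    rw [Real.sinc_of_ne_zero hx, Real.sinc_of_ne_zero h2]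
    have h : Real.sin x = 2 * Real.sin (x / 2) * Real.cos (x / 2) := by
      rw [← Real.sin_two_mul]
      congr 1
      ring
    rw [h]
    field_simp

theorem sinc4_le (x : ℝ) : Real.sinc x ^ 4 ≤ Real.sinc (x / 2) ^ 4 := by
  rw [sinc_half x, mul_pow]
  have h1 : Real.cos (x / 2) ^ 4 ≤ 1 := by
    have h2 : Real.cos (x / 2) ^ 2 ≤ 1 := by
      nlinarith [Real.sin_sq_add_cos_sq (x / 2), sq_nonneg (Real.sin (x / 2))]
    have h3 : 0 ≤ Real.cos (x / 2) ^ 2 := sq_nonneg _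
    nlinarith
  have h4 : 0 ≤ Real.sinc (x / 2) ^ 4 := by positivity
  nlinarith

theorem sinc4_nonneg (x : ℝ) : 0 ≤ Real.sinc x ^ 4 := by positivity

theorem sinc4_le_one (x : ℝ) : Real.sinc x ^ 4 ≤ 1 := by
  have h := Real.abs_sinc_le_one x
  have h2 : Real.sinc x ^ 4 = |Real.sinc x| ^ 4 := by
    rw [← abs_pow, abs_of_nonneg (sinc4_nonneg x)]
  rw [h2]
  exact pow_le_one₀ (abs_nonneg _) h

theorem ww_nonneg (N n : ℕ) : 0 ≤ ww N n := by
  unfold ww
  have := sinc4_nonneg (Real.pi * n / N)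
  positivity

theorem ww_le (N n : ℕ) : ww N n ≤ n := by
  unfold ww
  have h := sinc4_le_one (Real.pi * n / N)
  have hn : (0 : ℝ) ≤ n := Nat.cast_nonneg n
  nlinarith

theorem ww_double (N n : ℕ) : ww N n ≤ ww (2 * N) n := by
  unfold ww
  have h := sinc4_le (Real.pi * n / N)
  have hn : (0 : ℝ) ≤ n := Nat.cast_nonneg n
  have he : Real.pi * n / N / 2 = Real.pi * n / ((2 * N : ℕ) : ℝ) := by
    push_cast
    rw [div_div]
    congr 1
    ring
  rw [he] at h
  exact mul_le_mul_of_nonneg_left h hn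

theorem ww_tendsto (n : ℕ) : Tendsto (fun N : ℕ => ww N n) atTop (nhds (n : ℝ)) := by
  unfold ww
  have h1 : Tendsto (fun N : ℕ => Real.pi * n / (N : ℝ)) atTop (nhds 0) :=
    tendsto_const_div_atTop_nhds_zero_nat _
  have h2 : Tendsto (fun N : ℕ => Real.sinc (Real.pi * n / (N : ℝ))) atTop (nhds 1) := by
    have := (Real.continuous_sinc.tendsto 0).comp h1
    rw [Real.sinc_zero] at this
    exact this
  have h3 := (h2.pow 4).const_mul (n : ℝ)
  simpa using h3

end PS2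

open PS2 in
theorem mPS2 : StmPS2 := by
  intro O hO hs
  obtain ⟨n0, hn0⟩ := Filter.eventually_atTop.1 (hO.eventually_ge_atTop 0)
  set C1 : ℝ := ∑ n ∈ range n0, (n : ℝ) * |O n| with hC1
  have hC1n : 0 ≤ C1 := Finset.sum_nonneg fun n _ => by positivity
  -- the head
  have hhead : ∀ N : ℕ, |∑ n ∈ range n0, ww N n * O n| ≤ C1 := by
    intro N
    refine (Finset.abs_sum_le_sum_abs _ _).trans (Finset.sum_le_sum fun n _ => ?_)
    rw [abs_mul, abs_of_nonneg (ww_nonneg N n)]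
    exact mul_le_mul_of_nonneg_right (ww_le N n) (abs_nonneg _)
  -- the tail
  have htail : ∀ N : ℕ, 4 ≤ N → Summable fun k : ℕ => ww N (k + n0) * O (k + n0) :=
    fun N hN => (summable_nat_add_iff n0).2 (hs N hN)
  have hterm : ∀ N k : ℕ, 0 ≤ ww N (k + n0) * O (k + n0) := fun N k =>
    mul_nonneg (ww_nonneg _ _) (hn0 _ (Nat.le_add_left _ _))
  have hsplit : ∀ N : ℕ, 4 ≤ N → ∑' n : ℕ, ww N n * O n =
      (∑ n ∈ range n0, ww N n * O n) + ∑' k : ℕ, ww N (k + n0) * O (k + n0) := fun N hN =>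
    ((hs N hN).sum_add_tsum_nat_add n0).symm
  have hdouble : ∀ N : ℕ, 4 ≤ N → ∑' k : ℕ, ww N (k + n0) * O (k + n0) ≤
      ∑' k : ℕ, ww (2 * N) (k + n0) * O (k + n0) := fun N hN =>
    (htail N hN).tsum_le_tsum (fun k =>
      mul_le_mul_of_nonneg_right (ww_double _ _) (hn0 _ (Nat.le_add_left _ _)))
      (htail (2 * N) (by omega))
  -- a large term
  obtain ⟨n1', hn1'⟩ := Filter.eventually_atTop.1 (hO.eventually_ge_atTop (8 * C1 + 8))
  set n1 : ℕ := n1' + n0 + 1 with hn1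
  have hO1 : 8 * C1 + 8 ≤ O n1 := hn1' _ (by omega)
  have hn1pos : (1 : ℝ) ≤ n1 := by
    have : 1 ≤ n1 := by omega
    exact_mod_cast this
  obtain ⟨M, hM⟩ := Filter.eventually_atTop.1
    ((ww_tendsto n1).eventually (eventually_ge_nhds (a := (n1 : ℝ)) (b := (1 : ℝ) / 2)
      (by linarith)))
  refine ⟨max 4 M, le_max_left _ _, fun N hN => ?_⟩
  have hN4 : 4 ≤ N := (le_max_left _ _).trans hN
  have hNM : M ≤ N := (le_max_right _ _).trans hN
  have hbig : 4 * C1 + 4 ≤ ∑' k : ℕ, ww N (k + n0) * O (k + n0) := by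
    have h1 : ww N ((n1' + 1) + n0) * O ((n1' + 1) + n0) ≤
        ∑' k : ℕ, ww N (k + n0) * O (k + n0) :=
      (htail N hN4).le_tsum (n1' + 1) fun k _ => hterm N k
    have h2 : (n1' + 1) + n0 = n1 := by omega
    rw [h2] at h1
    have h3 := hM N hNM
    have h4 : 1 / 2 * (8 * C1 + 8) ≤ ww N n1 * O n1 :=
      mul_le_mul h3 hO1 (by linarith) (ww_nonneg _ _)
    linarith
  have e1 := hsplit N hN4
  have e2 := hsplit (2 * N) (by omega)
  have b1 := abs_le.1 (hhead N)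
  have b2 := abs_le.1 (hhead (2 * N))
  have d := hdouble N hN4
  rw [e1, e2]
  constructor
  · linarith [b1.1]
  · linarith [b1.1, b1.2, b2.1, b2.2]

end Pool.Agent.T6.H46.CZ
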