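import Pool.Agent.T6.H46.CZ.Stm

/-!
Module SGN of project CZ (MP_3d11e1_an): the signs of the Birkhoff sums along a discrete orbit.
-/

set_option autoImplicit false

namespace Pool.Agent.T6.H46.CZ

open Finset Filter

/-- a sequence of bounded steps with `|u n| → ∞` tends to `∞` or to `-∞` -/
lemma sgn_one (u : ℕ → ℝ) (F : ℝ) (hstep : ∀ n, |u (n + 1) - u n| ≤ F)
    (hlim : Tendsto (fun n => |u n|) atTop atTop) :
    Tendsto u atTop atTop ∨ Tendsto (fun n => -u n) atTop atTop := by
  obtain ⟨N, hN⟩ := eventually_atTop.1 (hlim.eventually_gt_atTop F)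
  have hF : 0 ≤ F := (abs_nonneg _).trans (hstep 0)
  by_cases h : 0 < u N
  · left
    have hpos : ∀ n, N ≤ n → 0 < u n := by
      intro n hn
      induction n, hn using Nat.le_induction with
      | base => exact h
      | succ n hn ih =>
        have h1 := hN n hn
        rw [abs_of_pos ih] at h1
        have h2 := (abs_le.1 (hstep n)).1
        linarith
    refine hlim.congr' ?_
    filter_upwards [eventually_ge_atTop N] with n hn
    exact abs_of_pos (hpos n hn)
  · right
    have hneg : ∀ n, N ≤ n → u n < 0 := by
      intro n hn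
      induction n, hn using Nat.le_induction with
      | base =>
        have h1 := hN N le_rfl
        rcases lt_or_eq_of_le (not_lt.1 h) with h2 | h2
        · exact h2
        · rw [h2, abs_zero] at h1
          linarith
      | succ n hn ih =>
        have h1 := hN n hn
        rw [abs_of_neg ih] at h1
        have h2 := (abs_le.1 (hstep n)).2
        linarith
    refine hlim.congr' ?_
    filter_upwards [eventually_ge_atTop N] with n hn
    exact abs_of_neg (hneg n hn)

theorem mSGN : StmSGN := by
  intro S F hstep hlim
  have h1 : Tendsto (fun n : ℕ => |S (n : ℤ)|) atTop atTop := by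
    have h := hlim.comp (Nat.cast_injective (R := ℤ)).tendsto_cofinite
    rwa [Nat.cofinite_eq_atTop] at h
  have h2 : Tendsto (fun n : ℕ => |S (-(n : ℤ))|) atTop atTop := by
    have hinj : Function.Injective (fun n : ℕ => -(n : ℤ)) := by
      intro a b hab
      have : (a : ℤ) = b := neg_injective hab
      exact_mod_cast this
    have h := hlim.comp hinj.tendsto_cofinite
    rwa [Nat.cofinite_eq_atTop] at h
  have s1 : ∀ n : ℕ, |S ((n + 1 : ℕ) : ℤ) - S (n : ℤ)| ≤ F := by
    intro n
    have h := hstep (n : ℤ)
    push_cast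
    exact h
  have s2 : ∀ n : ℕ, |S (-((n + 1 : ℕ) : ℤ)) - S (-(n : ℤ))| ≤ F := by
    intro n
    have h := hstep (-((n + 1 : ℕ) : ℤ))
    have e1 : -((n + 1 : ℕ) : ℤ) + 1 = -(n : ℤ) := by push_cast; ring
    rw [e1, abs_sub_comm] at h
    exact h
  rcases sgn_one (fun n : ℕ => S (n : ℤ)) F s1 h1 with hu | hu <;>
    rcases sgn_one (fun n : ℕ => S (-(n : ℤ))) F s2 h2 with hw | hw
  · left
    exact hu.atTop_add_atTop hw
  · right; right; left
    exact (hu.atTop_add_atTop hw).congr fun n => by ring
  · right; right; right
    exact (hu.atTop_add_atTop hw).congr fun n => by ring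
  · right; left
    exact (hu.atTop_add_atTop hw).congr fun n => by ring

end Pool.Agent.T6.H46.CZ
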