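import Pool.Agent.T6.H46.CZ.Stm

/-!
Project CZ (MP_3d11e1_an), module ADR: derivative bounds for a periodic real-analytic function.
-/

set_option autoImplicit false

namespace Pool.Agent.T6.H46.CZ

open scoped NNReal ENNReal

namespace ADRAux

variable {E : Type*} [NormedAddCommGroup E] [NormedSpace ℝ E]

/-- a uniform bound for the changed origins of a power series -/
theorem co_bound (p : FormalMultilinearSeries ℝ E ℝ) {r r' : ℝ≥0}
    (hr : (r + r' : ℝ≥0∞) < p.radius) :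
    ∃ M : ℝ≥0, ∀ x : E, ‖x‖₊ ≤ r → ∀ k : ℕ, ‖p.changeOrigin x k‖₊ * r' ^ k ≤ M := by
  have hs := p.changeOriginSeries_summable_aux₁ hr
  refine ⟨∑' s : Σ k l : ℕ, { s : Finset (Fin (k + l)) // s.card = l },
    ‖p (s.1 + s.2.1)‖₊ * r ^ s.2.1 * r' ^ s.1, fun x hx k => ?_⟩
  have hr1 : (r : ℝ≥0∞) < p.radius := (le_add_right le_rfl).trans_lt hr
  have hx' : (‖x‖₊ : ℝ≥0∞) < p.radius :=
    lt_of_le_of_lt (by exact_mod_cast hx) hr1
  have h2 := (NNReal.summable_sigma.1 hs).1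
  have h3 := (NNReal.summable_sigma.1 hs).2
  calc ‖p.changeOrigin x k‖₊ * r' ^ k
      ≤ (∑' s : Σ l : ℕ, { s : Finset (Fin (k + l)) // s.card = l },
          ‖p (k + s.1)‖₊ * ‖x‖₊ ^ s.1) * r' ^ k := by
        gcongr
        exact p.nnnorm_changeOrigin_le k hx'
    _ ≤ (∑' s : Σ l : ℕ, { s : Finset (Fin (k + l)) // s.card = l },
          ‖p (k + s.1)‖₊ * r ^ s.1) * r' ^ k := by
        refine mul_le_mul' (Summable.tsum_le_tsum (fun s => ?_)
          (p.changeOriginSeries_summable_aux₂ hx' k)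
          (p.changeOriginSeries_summable_aux₂ hr1 k)) le_rfl
        gcongr
    _ = ∑' s : Σ l : ℕ, { s : Finset (Fin (k + l)) // s.card = l },
          ‖p (k + s.1)‖₊ * r ^ s.1 * r' ^ k := by rw [NNReal.tsum_mul_right]
    _ ≤ ∑' k : ℕ, ∑' s : Σ l : ℕ, { s : Finset (Fin (k + l)) // s.card = l },
          ‖p (k + s.1)‖₊ * r ^ s.1 * r' ^ k := h3.le_tsum k (fun _ _ => zero_le)
    _ = _ := (hs.tsum_sigma' h2).symm

/-- the derivatives along a line in terms of the power series -/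
theorem line_bound {f : E → ℝ} {p : FormalMultilinearSeries ℝ E ℝ} {y : E} {r : ℝ≥0∞}
    (hf : HasFPowerSeriesOnBall f p y r) (v : E) (hv : ‖v‖ ≤ 1) (k : ℕ) :
    |iteratedDeriv k (fun s : ℝ => f (y + s • v)) 0| ≤ k.factorial * ‖p k‖ := by
  have h1 : HasFPowerSeriesOnBall (fun z => f (z - (-y))) p (y + -y) r := hf.comp_sub (-y)
  have h2 : HasFPowerSeriesOnBall (fun z => f (y + z)) p 0 r := by
    have e1 : (fun z => f (z - (-y))) = fun z => f (y + z) := by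
      funext z
      rw [sub_neg_eq_add, add_comm]
    rw [e1, add_neg_cancel] at h1
    exact h1
  have h3 : HasFPowerSeriesAt (fun z => f (y + z)) p
      ((ContinuousLinearMap.toSpanSingleton ℝ v) 0) := by
    rw [map_zero]
    exact h2.hasFPowerSeriesAt
  obtain ⟨r', h5⟩ := h3.compContinuousLinearMap
  have h6 := h5.factorial_smul 1 k
  have e2 : ((fun z => f (y + z)) ∘ (ContinuousLinearMap.toSpanSingleton ℝ v)) =
      fun s : ℝ => f (y + s • v) := by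
    funext s
    simp [ContinuousLinearMap.toSpanSingleton_apply]
  rw [e2] at h6
  rw [iteratedDeriv_eq_iteratedFDeriv, ← h6]
  have e3 : (p.compContinuousLinearMap (ContinuousLinearMap.toSpanSingleton ℝ v)) k
      (fun _ => (1 : ℝ)) = p k (fun _ => v) := by
    rw [FormalMultilinearSeries.compContinuousLinearMap_apply]
    congr 1
    funext i
    simp [ContinuousLinearMap.toSpanSingleton_apply]
  rw [e3, nsmul_eq_mul, abs_mul, abs_of_nonneg (Nat.cast_nonneg _)]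
  refine mul_le_mul_of_nonneg_left ?_ (Nat.cast_nonneg _)
  have h7 := (p k).le_opNorm (fun _ => v)
  rw [Finset.prod_const, Finset.card_univ, Fintype.card_fin, Real.norm_eq_abs] at h7
  refine h7.trans ?_
  exact mul_le_of_le_one_right (norm_nonneg _) (pow_le_one₀ (norm_nonneg _) hv)

/-- locally uniform bounds -/
theorem local_bound {f : E → ℝ} {x0 : E} (hf : AnalyticAt ℝ f x0) :
    ∃ t ∈ nhds x0, ∃ C A : ℝ, 0 < A ∧ 0 ≤ C ∧ ∀ y ∈ t, ∀ v : E, ‖v‖ ≤ 1 → ∀ k : ℕ,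
      |iteratedDeriv k (fun s : ℝ => f (y + s • v)) 0| ≤ C * A ^ k * k.factorial := by
  obtain ⟨p, R, hp⟩ := hf
  obtain ⟨ρ, hρ0, hρR⟩ := ENNReal.lt_iff_exists_nnreal_btwn.1 hp.r_pos
  have hρ : 0 < ρ := by exact_mod_cast hρ0
  have hsum : ((ρ / 2 : ℝ≥0) + (ρ / 2 : ℝ≥0) : ℝ≥0∞) < p.radius := by
    have e1 : ((ρ / 2 : ℝ≥0) + (ρ / 2 : ℝ≥0) : ℝ≥0∞) = (ρ : ℝ≥0∞) := by
      rw [← ENNReal.coe_add, add_halves]
    rw [e1]
    exact hρR.trans_le hp.r_le
  obtain ⟨M, hM⟩ := co_bound p hsum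
  have ha : (0 : ℝ) < ((ρ / 2 : ℝ≥0) : ℝ) := by
    have : 0 < ρ / 2 := by positivity
    exact_mod_cast this
  refine ⟨Metric.ball x0 ((ρ / 2 : ℝ≥0) : ℝ), Metric.ball_mem_nhds _ ha, M,
    (((ρ / 2 : ℝ≥0) : ℝ))⁻¹, inv_pos.2 ha, M.2, fun y hy v hv k => ?_⟩
  have hz : ‖y - x0‖₊ < ρ / 2 := by
    rw [Metric.mem_ball, dist_eq_norm] at hy
    exact_mod_cast hy
  have hzR : (‖y - x0‖₊ : ℝ≥0∞) < R := by
    refine lt_trans ?_ hρR
    have : ‖y - x0‖₊ < ρ := hz.trans_le (half_le_self (zero_le))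
    exact_mod_cast this
  have h1 := hp.changeOrigin hzR
  rw [add_sub_cancel] at h1
  refine (line_bound h1 v hv k).trans ?_
  have h2 := hM (y - x0) hz.le k
  have h3 : ‖p.changeOrigin (y - x0) k‖ * ((ρ / 2 : ℝ≥0) : ℝ) ^ k ≤ M := by
    exact_mod_cast h2
  have h4 : ‖p.changeOrigin (y - x0) k‖ ≤ M * ((((ρ / 2 : ℝ≥0) : ℝ))⁻¹) ^ k := by
    rw [inv_pow, ← div_eq_mul_inv, le_div_iff₀ (by positivity)]
    exact h3
  calc (k.factorial : ℝ) * ‖p.changeOrigin (y - x0) k‖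
      ≤ k.factorial * (M * ((((ρ / 2 : ℝ≥0) : ℝ))⁻¹) ^ k) := by gcongr
    _ = M * ((((ρ / 2 : ℝ≥0) : ℝ))⁻¹) ^ k * k.factorial := by ring

end ADRAux

open ADRAux

theorem mADR : StmADR := by
  intro d F hF hper
  have hcube : IsCompact (Set.Icc (0 : Fin d → ℝ) 1) := isCompact_Icc
  obtain ⟨C, A, hA, hC, h⟩ : ∃ C A : ℝ, 0 < A ∧ 0 ≤ C ∧ ∀ y ∈ Set.Icc (0 : Fin d → ℝ) 1,
      ∀ v : Fin d → ℝ, ‖v‖ ≤ 1 → ∀ k : ℕ,
      |iteratedDeriv k (fun s : ℝ => F (y + s • v)) 0| ≤ C * A ^ k * k.factorial := by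
    refine hcube.induction_on (p := fun S => ∃ C A : ℝ, 0 < A ∧ 0 ≤ C ∧ ∀ y ∈ S,
      ∀ v : Fin d → ℝ, ‖v‖ ≤ 1 → ∀ k : ℕ,
      |iteratedDeriv k (fun s : ℝ => F (y + s • v)) 0| ≤ C * A ^ k * k.factorial) ?_ ?_ ?_ ?_
    · exact ⟨0, 1, one_pos, le_rfl, fun y hy => absurd hy (Set.notMem_empty y)⟩
    · rintro S T hST ⟨C, A, hA, hC, h⟩
      exact ⟨C, A, hA, hC, fun y hy => h y (hST hy)⟩
    · rintro S T ⟨C, A, hA, hC, h⟩ ⟨C', A', hA', hC', h'⟩
      refine ⟨max C C', max A A', lt_max_of_lt_left hA, le_max_of_le_left hC, ?_⟩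
      rintro y (hy | hy) v hv k
      · refine (h y hy v hv k).trans ?_
        have := le_max_left C C'
        have := le_max_left A A'
        gcongr
      · refine (h' y hy v hv k).trans ?_
        have := le_max_right C C'
        have := le_max_right A A'
        gcongr
    · intro x _
      obtain ⟨t, ht, H⟩ := local_bound (hF x (Set.mem_univ x))
      exact ⟨t, mem_nhdsWithin_of_mem_nhds ht, H⟩
  refine ⟨C, A, hA, fun i x k => ?_⟩
  have e1 : (fun s : ℝ => F (x + s • (Pi.single i (1 : ℝ) : Fin d → ℝ))) =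
      fun s : ℝ => F ((fun j => Int.fract (x j)) + s • (Pi.single i (1 : ℝ) : Fin d → ℝ)) := by
    funext s
    rw [← hper ((fun j => Int.fract (x j)) + s • (Pi.single i (1 : ℝ) : Fin d → ℝ))
      (fun j => ⌊x j⌋)]
    congr 1
    funext j
    simp only [Pi.add_apply]
    have := Int.fract_add_floor (x j)
    linarith
  rw [e1]
  refine h _ ⟨fun j => Int.fract_nonneg _, fun j => (Int.fract_lt_one _).le⟩ _ ?_ k
  rw [Pi.norm_single, norm_one]

end Pool.Agent.T6.H46.CZ
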