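import Pool.Agent.T6.H46.CZ.Stm

/-! Project CZ (MP_3d11e1_an): module BAL, the weights. -/

set_option autoImplicit false

namespace Pool.Agent.T6.H46.CZ

open Finset Filter

namespace ModBAL

theorem key (m n : ℕ) : ((2 * m + 1).choose (m + n + 1) : ℝ) * (m + n + 1) =
    ((2 * m + 1).choose (m + n) : ℝ) * (m + 1 - n) := by
  rcases Nat.lt_or_ge (m + 1) n with h | h
  · rw [Nat.choose_eq_zero_of_lt (by omega), Nat.choose_eq_zero_of_lt (by omega)]
    simp
  · have h1 := Nat.choose_succ_right_eq (2 * m + 1) (m + n)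
    have h2 : 2 * m + 1 - (m + n) = m + 1 - n := by omega
    rw [h2] at h1
    have h3 : (((2 * m + 1).choose (m + n + 1) * (m + n + 1) : ℕ) : ℝ) =
        (((2 * m + 1).choose (m + n) * (m + 1 - n) : ℕ) : ℝ) := by exact_mod_cast h1
    rw [Nat.cast_mul, Nat.cast_mul, Nat.cast_sub h] at h3
    push_cast at h3
    exact h3

theorem bal_eq (m n : ℕ) : bal m n =
    ((2 * m + 1).choose (m + n) : ℝ) * (2 * n) / ((m + n + 1) * 2 ^ (2 * m + 1)) := by
  unfold bal
  have h := key m n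
  have h0 : (0 : ℝ) < m + n + 1 := by positivity
  rw [div_eq_div_iff (by positivity) (by positivity)]
  have h1 : ((2 * m + 1).choose (m + n + 1) : ℝ) * (m + n + 1) * 2 ^ (2 * m + 1) =
      ((2 * m + 1).choose (m + n) : ℝ) * (m + 1 - n) * 2 ^ (2 * m + 1) := by rw [h]
  linear_combination -h1

theorem nonneg (m n : ℕ) : 0 ≤ bal m n := by
  rw [bal_eq]; positivity

/-- two steps up -/
theorem up (m n : ℕ) (h : n ≤ m + 1) :
    ((2 * (m + 1) + 1).choose (m + 1 + n) : ℝ) * (m + n + 1) * (m + 2 - n) =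
      (2 * m + 3) * (2 * m + 2) * ((2 * m + 1).choose (m + n) : ℝ) := by
  have h1 := Nat.add_one_mul_choose_eq (2 * m + 2) (m + n)
  have h2 := Nat.choose_mul_succ_eq (2 * m + 1) (m + n)
  have h3 : 2 * m + 1 + 1 - (m + n) = m + 2 - n := by omega
  rw [h3] at h2
  have e1 : 2 * (m + 1) + 1 = 2 * m + 2 + 1 := by ring
  have e2 : m + 1 + n = m + n + 1 := by ring
  rw [e1, e2]
  have h1' : ((2 * m + 3 : ℕ) : ℝ) * ((2 * m + 2).choose (m + n) : ℝ) =
      ((2 * m + 2 + 1).choose (m + n + 1) : ℝ) * ((m + n + 1 : ℕ) : ℝ) := by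
    exact_mod_cast h1
  have h2' : ((2 * m + 1).choose (m + n) : ℝ) * ((2 * m + 2 : ℕ) : ℝ) =
      ((2 * m + 2).choose (m + n) : ℝ) * (((m + 2 - n : ℕ)) : ℝ) := by
    exact_mod_cast h2
  rw [Nat.cast_sub (by omega)] at h2'
  push_cast at h1' h2'
  calc ((2 * m + 2 + 1).choose (m + n + 1) : ℝ) * (m + n + 1) * (m + 2 - n)
      = (2 * m + 3) * (((2 * m + 2).choose (m + n) : ℝ) * (m + 2 - n)) := by
        rw [← h1']; ring
    _ = _ := by rw [← h2']; ring

end ModBAL

open ModBAL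

theorem mBAL : StmBAL := by
  refine ⟨nonneg, ?_, ?_, ?_, ?_, ?_⟩
  · intro m n
    rcases Nat.lt_or_ge (m + 1) n with h | h
    · have h1 : bal m n = 0 := by
        rw [bal_eq, Nat.choose_eq_zero_of_lt (by omega)]; simp
      rw [h1, mul_zero]
      exact nonneg _ _
    · have hu := up m n h
      have hnm : (n : ℝ) ≤ m + 1 := by exact_mod_cast h
      have p1 : (0 : ℝ) < m + n + 1 := by positivity
      have p2 : (0 : ℝ) < (m : ℝ) + 2 - n := by linarith
      have p3 : (0 : ℝ) < (m : ℝ) + 2 + n := by positivity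
      have p4 : (0 : ℝ) < (m : ℝ) + 2 := by positivity
      have hc : ((2 * (m + 1) + 1).choose (m + 1 + n) : ℝ) =
          (2 * m + 3) * (2 * m + 2) * ((2 * m + 1).choose (m + n) : ℝ) /
            ((m + n + 1) * (m + 2 - n)) := by
        rw [eq_div_iff (by positivity), ← hu]; ring
      have h2 : bal (m + 1) n = bal m n *
          ((2 * m + 3) * (m + 1) / (2 * ((m + 2 - n) * (m + 2 + n)))) := by
        rw [bal_eq (m + 1) n, bal_eq m n, hc]
        push_cast
        have e1 : (2 : ℝ) ^ (2 * (m + 1) + 1) = 4 * 2 ^ (2 * m + 1) := by ring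
        have e2 : (m : ℝ) + 1 + n + 1 = m + 2 + n := by ring
        rw [e1, e2]
        field_simp
        ring
      rw [h2, mul_comm]
      refine mul_le_mul_of_nonneg_left ?_ (nonneg m n)
      rw [div_pow, div_le_div_iff₀ (by positivity) (by positivity)]
      have h3 : ((m : ℝ) + 2 - n) * (m + 2 + n) ≤ (m + 2) ^ 2 := by
        nlinarith [sq_nonneg (n : ℝ)]
      have q1 : (0 : ℝ) ≤ ((m : ℝ) + 1) ^ 2 := by positivity
      have q2 : (0 : ℝ) ≤ ((m : ℝ) + 1) * ((m : ℝ) + 2) ^ 2 := by positivity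
      nlinarith [mul_le_mul_of_nonneg_left h3 q1]
  · intro m n h
    have hR : 2 * (n : ℝ) ^ 2 + 2 * n ≤ m + 1 := by exact_mod_cast h
    have hn : n ≤ m + 1 := by nlinarith
    have hk := key m n
    have p1 : (0 : ℝ) < m + n + 1 := by positivity
    have hc : ((2 * m + 1).choose (m + n + 1) : ℝ) =
        ((2 * m + 1).choose (m + n) : ℝ) * (m + 1 - n) / (m + n + 1) := by
      rw [eq_div_iff p1.ne', hk]
    rw [bal_eq m n, bal_eq m (n + 1)]
    have e1 : m + (n + 1) = m + n + 1 := by ring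
    rw [e1, hc]
    push_cast
    have hc0 : (0 : ℝ) ≤ ((2 * m + 1).choose (m + n) : ℝ) := by positivity
    have e2 : ((2 * m + 1).choose (m + n) : ℝ) * (m + 1 - n) / (m + n + 1) * (2 * (n + 1)) /
        ((m + (n + 1) + 1) * 2 ^ (2 * m + 1)) =
        ((2 * m + 1).choose (m + n) : ℝ) * ((m + 1 - n) * (2 * (n + 1)) / (m + n + 2)) /
          ((m + n + 1) * 2 ^ (2 * m + 1)) := by
      have p2 : (0 : ℝ) < (m : ℝ) + n + 2 := by positivity
      have e3 : (m : ℝ) + (n + 1) + 1 = m + n + 2 := by ring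
      rw [e3]
      field_simp
    rw [e2]
    have p2 : (0 : ℝ) < (m : ℝ) + n + 2 := by positivity
    have h4 : (2 * (n : ℝ)) ≤ (m + 1 - n) * (2 * (n + 1)) / (m + n + 2) := by
      rw [le_div_iff₀ p2]
      nlinarith
    gcongr
  · intro m n h1 h2
    rw [bal_eq]
    have h3 : 0 < (2 * m + 1).choose (m + n) := Nat.choose_pos (by omega)
    have h4 : (0 : ℝ) < ((2 * m + 1).choose (m + n) : ℝ) := by exact_mod_cast h3
    have h5 : (0 : ℝ) < n := by exact_mod_cast h1
    positivity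
  · intro m
    rw [bal_eq]; simp
  · intro m n h
    rw [bal_eq, Nat.choose_eq_zero_of_lt (by omega)]; simp

end Pool.Agent.T6.H46.CZ
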