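import Pool.Agent.T6.H46.CZ.Stm

/-! Project CZ: module FOA, Fourier expansion of a real-analytic function on the torus. -/

set_option autoImplicit false

namespace Pool.Agent.T6.H46.CZ

open Finset Filter

namespace FOA

/-- summability of products over `ℤ^d` -/
theorem summable_prod (d : ℕ) (g : ℤ → ℝ) (hg : ∀ n, 0 ≤ g n) (hs : Summable g) :
    Summable fun Q : Fin d → ℤ => ∏ i, g (Q i) := by
  classical
  refine summable_of_sum_le (c := ∏ _i : Fin d, ∑' n, g n)
    (fun Q => Finset.prod_nonneg fun i _ => hg _) ?_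
  intro u
  have hsub : u ⊆ Fintype.piFinset (fun i : Fin d => u.image (fun Q => Q i)) := by
    intro Q hQ
    rw [Fintype.mem_piFinset]
    intro i
    exact Finset.mem_image.2 ⟨Q, hQ, rfl⟩
  calc ∑ Q ∈ u, ∏ i, g (Q i)
      ≤ ∑ Q ∈ Fintype.piFinset (fun i : Fin d => u.image (fun Q => Q i)), ∏ i, g (Q i) :=
        Finset.sum_le_sum_of_subset_of_nonneg hsub
          (fun Q _ _ => Finset.prod_nonneg fun i _ => hg _)
    _ = ∏ i : Fin d, ∑ n ∈ u.image (fun Q => Q i), g n := by
        rw [Finset.prod_univ_sum]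
    _ ≤ ∏ _i : Fin d, ∑' n, g n := by
        apply Finset.prod_le_prod
        · intro i _
          exact Finset.sum_nonneg fun n _ => hg n
        · intro i _
          exact hs.sum_le_tsum _ (fun n _ => hg n)

theorem summable_exp_int (c : ℝ) (hc : 0 < c) :
    Summable fun n : ℤ => Real.exp (-(c * |(n : ℝ)|)) := by
  have h : Summable fun n : ℕ => Real.exp (-(c * n)) := by
    have h1 : Summable fun n : ℕ => (Real.exp (-c)) ^ n :=
      summable_geometric_of_lt_one (Real.exp_pos _).le (by rw [Real.exp_lt_one_iff]; linarith)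
    refine h1.congr ?_
    intro n
    rw [← Real.exp_nat_mul]
    congr 1
    ring
  apply Summable.of_nat_of_neg
  · refine h.congr ?_
    intro n
    simp
  · refine h.congr ?_
    intro n
    simp

theorem abs_le_norm {d : ℕ} (Q : Fin d → ℤ) (i : Fin d) : |(Q i : ℝ)| ≤ ‖Q‖ := by
  have h := norm_le_pi_norm Q i
  rwa [Int.norm_eq_abs] at h

theorem summable_exp_norm (d : ℕ) (c : ℝ) (hc : 0 < c) :
    Summable fun Q : Fin d → ℤ => Real.exp (-(c * ‖Q‖)) := by
  have hd : (0 : ℝ) < (d : ℝ) + 1 := by positivity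
  have hc' : 0 < c / ((d : ℝ) + 1) := div_pos hc hd
  have h1 := summable_prod d (fun n : ℤ => Real.exp (-(c / ((d : ℝ) + 1) * |(n : ℝ)|)))
    (fun n => (Real.exp_pos _).le) (summable_exp_int _ hc')
  refine Summable.of_nonneg_of_le (fun Q => (Real.exp_pos _).le) ?_ h1
  intro Q
  rw [← Real.exp_sum, Real.exp_le_exp, Finset.sum_neg_distrib, neg_le_neg_iff, ← Finset.mul_sum]
  have h2 : ∑ i : Fin d, |(Q i : ℝ)| ≤ ((d : ℝ) + 1) * ‖Q‖ := by
    calc ∑ i : Fin d, |(Q i : ℝ)| ≤ ∑ _i : Fin d, ‖Q‖ :=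
          Finset.sum_le_sum fun i _ => abs_le_norm Q i
      _ = (d : ℝ) * ‖Q‖ := by simp
      _ ≤ ((d : ℝ) + 1) * ‖Q‖ := by nlinarith [norm_nonneg Q]
  calc c / ((d : ℝ) + 1) * ∑ i : Fin d, |(Q i : ℝ)|
      ≤ c / ((d : ℝ) + 1) * (((d : ℝ) + 1) * ‖Q‖) := mul_le_mul_of_nonneg_left h2 hc'.le
    _ = c * ‖Q‖ := by field_simp

/-- optimisation over `k` -/
theorem optim (X C A R : ℝ) (hA : 0 < A) (hR : 0 < R) (hC : 0 ≤ C)
    (h : ∀ k : ℕ, X * R ^ k ≤ C * A ^ k * (k.factorial : ℝ)) :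
    X ≤ C * Real.exp 1 * Real.exp (-(R / (Real.exp 1 * A))) := by
  have he : 0 < Real.exp 1 := Real.exp_pos 1
  set y : ℝ := R / (Real.exp 1 * A) with hy
  have hy0 : 0 < y := by positivity
  set k : ℕ := ⌊y⌋₊ with hk
  have hk1 : (k : ℝ) ≤ y := Nat.floor_le hy0.le
  have hk2 : y < k + 1 := Nat.lt_floor_add_one y
  have hfac : (k.factorial : ℝ) ≤ (k : ℝ) ^ k := by
    exact_mod_cast Nat.factorial_le_pow k
  have hRk : 0 < R ^ k := pow_pos hR k
  have h1 : X ≤ C * (A * k / R) ^ k := by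
    have h2 : X * R ^ k ≤ C * A ^ k * (k : ℝ) ^ k :=
      (h k).trans (mul_le_mul_of_nonneg_left hfac (by positivity))
    have h3 : C * (A * k / R) ^ k = (C * A ^ k * (k : ℝ) ^ k) / R ^ k := by
      rw [div_pow, mul_pow]
      ring
    rw [h3, le_div_iff₀ hRk]
    exact h2
  have h4 : A * k / R ≤ Real.exp (-1) := by
    rw [div_le_iff₀ hR]
    have h5 : A * (k : ℝ) ≤ A * y := mul_le_mul_of_nonneg_left hk1 hA.le
    have h6 : A * y = Real.exp (-1) * R := by
      rw [hy, Real.exp_neg]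
      field_simp
    linarith
  have h7 : (A * k / R) ^ k ≤ Real.exp (-1) ^ k :=
    pow_le_pow_left₀ (by positivity) h4 k
  have h8 : Real.exp (-1) ^ k = Real.exp (-(k : ℝ)) := by
    rw [← Real.exp_nat_mul]
    congr 1
    ring
  have h9 : Real.exp (-(k : ℝ)) ≤ Real.exp 1 * Real.exp (-y) := by
    rw [← Real.exp_add, Real.exp_le_exp]
    linarith
  calc X ≤ C * (A * k / R) ^ k := h1
    _ ≤ C * (Real.exp 1 * Real.exp (-y)) :=
        mul_le_mul_of_nonneg_left (h7.trans (h8.le.trans h9)) hC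
    _ = C * Real.exp 1 * Real.exp (-y) := by ring

end FOA

open FOA

theorem mFOA (hIBP : StmIBP) (hADR : StmADR) : StmFOA := by
  intro d φ han
  obtain ⟨a, ha1, ha2⟩ := hIBP d φ han.contDiff
  have hper : ∀ (x : Fin d → ℝ) (z : Fin d → ℤ),
      (fun x : Fin d → ℝ => φ (fun i => (x i : UnitAddCircle))) (fun i => x i + z i) =
        (fun x : Fin d → ℝ => φ (fun i => (x i : UnitAddCircle))) x := by
    intro x z
    have h : (fun i => ((x i + z i : ℝ) : UnitAddCircle)) = fun i => (x i : UnitAddCircle) := by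
      funext i
      rw [AddCircle.coe_add]
      have h2 : (((z i : ℤ) : ℝ) : UnitAddCircle) = 0 := by
        rw [AddCircle.coe_eq_zero_iff]
        exact ⟨z i, by simp⟩
      rw [h2, add_zero]
    show φ (fun i => ((x i + z i : ℝ) : UnitAddCircle)) = φ (fun i => (x i : UnitAddCircle))
    rw [h]
  obtain ⟨C, A, hA, hCA⟩ := hADR d _ han hper
  have he : 0 < Real.exp 1 := Real.exp_pos 1
  set c : ℝ := 2 * Real.pi / (Real.exp 1 * A) with hc
  have hc0 : 0 < c := by positivity
  have hbd : ∀ Q, ‖a Q‖ ≤ (‖a 0‖ + |C| * Real.exp 1) * Real.exp (-(c * ‖Q‖)) := by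
    intro Q
    by_cases hQ : Q = 0
    · subst hQ
      have h1 : (0 : ℝ) ≤ |C| * Real.exp 1 := by positivity
      simp only [norm_zero, mul_zero, neg_zero, Real.exp_zero, mul_one]
      linarith
    · obtain ⟨i0, hi0⟩ : ∃ i, Q i ≠ 0 := by
        by_contra hcon
        push Not at hcon
        exact hQ (funext hcon)
      have : Nonempty (Fin d) := ⟨i0⟩
      obtain ⟨i, hi⟩ := Finite.exists_max (fun i => |(Q i : ℝ)|)
      have hnorm : ‖Q‖ ≤ |(Q i : ℝ)| := by
        rw [pi_norm_le_iff_of_nonneg (abs_nonneg _)]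
        intro j
        rw [Int.norm_eq_abs]
        exact hi j
      have hpos : 0 < |(Q i : ℝ)| := by
        refine lt_of_lt_of_le ?_ (hi i0)
        rw [abs_pos]
        exact_mod_cast hi0
      have hR : 0 < 2 * Real.pi * |(Q i : ℝ)| := by positivity
      have hC0 : 0 ≤ C := by
        have := hCA i 0 0
        simp only [pow_zero, mul_one, Nat.factorial_zero, Nat.cast_one] at this
        exact (abs_nonneg _).trans this
      have hopt := optim ‖a Q‖ C A (2 * Real.pi * |(Q i : ℝ)|) hA hR hC0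
        (fun k => ha1 Q i k _ (fun x => hCA i x k))
      have hexp : Real.exp (-(2 * Real.pi * |(Q i : ℝ)| / (Real.exp 1 * A)))
          ≤ Real.exp (-(c * ‖Q‖)) := by
        rw [Real.exp_le_exp, neg_le_neg_iff, hc]
        calc 2 * Real.pi / (Real.exp 1 * A) * ‖Q‖
            ≤ 2 * Real.pi / (Real.exp 1 * A) * |(Q i : ℝ)| :=
              mul_le_mul_of_nonneg_left hnorm hc0.le
          _ = 2 * Real.pi * |(Q i : ℝ)| / (Real.exp 1 * A) := by ring
      calc ‖a Q‖ ≤ C * Real.exp 1 * Real.exp (-(2 * Real.pi * |(Q i : ℝ)| / (Real.exp 1 * A))) :=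
            hopt
        _ ≤ C * Real.exp 1 * Real.exp (-(c * ‖Q‖)) :=
            mul_le_mul_of_nonneg_left hexp (by positivity)
        _ ≤ (‖a 0‖ + |C| * Real.exp 1) * Real.exp (-(c * ‖Q‖)) := by
            apply mul_le_mul_of_nonneg_right _ (Real.exp_pos _).le
            have h1 : C * Real.exp 1 ≤ |C| * Real.exp 1 :=
              mul_le_mul_of_nonneg_right (le_abs_self C) he.le
            have h2 := norm_nonneg (a 0)
            linarith
  refine ⟨a, ‖a 0‖ + |C| * Real.exp 1, c, hc0, hbd, ha2 ?_⟩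
  exact Summable.of_nonneg_of_le (fun Q => norm_nonneg _) hbd
    ((summable_exp_norm d c hc0).mul_left _)

end Pool.Agent.T6.H46.CZ
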