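import Pool.Agent.T6.H46.CZ.Stm3
import Pool.Agent.V11279.BesT

set_option autoImplicit false

namespace Pool.Agent.T6.H46.CZ

open Finset Filter Topology MeasureTheory
open Pool.Agent.V11279.BesT

theorem ad_e_add (x y : ℝ) : e (x + y) = e x * e y := by
  unfold e
  rw [← Complex.exp_add]
  congr 1
  push_cast
  ring

theorem ad_norm_e (x : ℝ) : ‖e x‖ = 1 := by
  unfold e
  have : (2 * Real.pi * Complex.I * (x : ℂ)) = ((2 * Real.pi * x : ℝ) : ℂ) * Complex.I := by
    push_cast; ring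
  rw [this]
  exact Complex.norm_exp_ofReal_mul_I _

theorem ad_e_zero : e 0 = 1 := by
  unfold e; simp

theorem ad_tf_zero {d : ℕ} (α : Fin d → ℝ) : tf α 0 = 0 := by
  unfold tf; simp

theorem ad_exists_lift {d : ℕ} (x : Fin d → UnitAddCircle) :
    ∃ y : Fin d → ℝ, x = fun i => (y i : UnitAddCircle) := by
  have : ∀ i, ∃ y : ℝ, (y : UnitAddCircle) = x i := fun i => QuotientAddGroup.mk_surjective (x i)
  choose y hy using this
  exact ⟨y, funext fun i => (hy i).symm⟩

theorem ad_irr {d : ℕ} (α : Fin d → ℝ)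
    (h : Dense (Set.range fun n : ℤ => n • (fun i => (α i : UnitAddCircle) : Fin d → UnitAddCircle))) :
    Irr α := by
  intro Q hQ k hk
  obtain ⟨i, hi⟩ : ∃ i, Q i ≠ 0 := by
    by_contra hc
    push Not at hc
    exact hQ (funext hc)
  have hcl : IsClosed {y : Fin d → UnitAddCircle | ∑ j, Q j • y j = 0} := by
    refine isClosed_eq ?_ continuous_const
    exact continuous_finsetSum _ fun j _ => (continuous_apply j).zsmul (Q j)
  have hsub : (Set.range fun n : ℤ => n • (fun i => (α i : UnitAddCircle) : Fin d → UnitAddCircle)) ⊆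
      {y : Fin d → UnitAddCircle | ∑ j, Q j • y j = 0} := by
    rintro _ ⟨n, rfl⟩
    show ∑ j, Q j • (n • (α j : UnitAddCircle)) = 0
    have h1 : ∑ j, Q j • (n • (α j : UnitAddCircle)) = n • ∑ j, Q j • (α j : UnitAddCircle) := by
      rw [Finset.smul_sum]
      exact Finset.sum_congr rfl fun j _ => smul_comm _ _ _
    have h2 : ∑ j, Q j • (α j : UnitAddCircle) = ((tf α Q : ℝ) : UnitAddCircle) := by
      unfold tf
      have h0 : ((∑ j, (Q j : ℝ) * α j : ℝ) : UnitAddCircle) =
          ∑ j, (((Q j : ℝ) * α j : ℝ) : UnitAddCircle) :=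
        map_sum (QuotientAddGroup.mk' (AddSubgroup.zmultiples (1 : ℝ))) _ _
      rw [h0]
      refine Finset.sum_congr rfl fun j _ => ?_
      rw [← AddCircle.coe_zsmul, zsmul_eq_mul]
    rw [h1, h2, hk]
    have : ((k : ℝ) : UnitAddCircle) = 0 := by
      rw [AddCircle.coe_eq_zero_iff]
      exact ⟨k, by simp⟩
    rw [this, smul_zero]
  have hall := (hcl.closure_subset_iff.mpr hsub)
  rw [h.closure_eq] at hall
  have h3 := hall (Set.mem_univ (fun j => if j = i then (((1 / (2 * (Q i : ℝ)) : ℝ)) : UnitAddCircle) else 0))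
  simp only [Set.mem_ofPred_eq, smul_ite, smul_zero, Finset.sum_ite_eq', Finset.mem_univ,
    if_true] at h3
  rw [← AddCircle.coe_zsmul, zsmul_eq_mul] at h3
  have hQi : (Q i : ℝ) ≠ 0 := by exact_mod_cast hi
  have h4 : (Q i : ℝ) * (1 / (2 * (Q i : ℝ))) = 1 / 2 := by field_simp
  rw [h4, AddCircle.coe_eq_zero_iff] at h3
  obtain ⟨n, hn⟩ := h3
  have h5 : (n : ℝ) = 1 / 2 := by simpa using hn
  have h6 : (2 * n : ℤ) = 1 := by
    have : (2 * (n : ℝ)) = 1 := by linarith
    exact_mod_cast this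
  omega

/-- the Fourier data of the sequence `φ (x + n a)` -/
theorem ad_expansion {d : ℕ} (φ : (Fin d → UnitAddCircle) → ℝ) (c : (Fin d → ℤ) → ℂ)
    (hc : ∀ x : Fin d → ℝ, (φ (fun i => (x i : UnitAddCircle)) : ℂ) = ∑' Q, c Q * e (tf x Q))
    (α x : Fin d → ℝ) (n : ℤ) :
    ((S (fun i => (α i : UnitAddCircle)) φ (n + 1) (fun i => (x i : UnitAddCircle)) -
      S (fun i => (α i : UnitAddCircle)) φ n (fun i => (x i : UnitAddCircle)) : ℝ) : ℂ) =
    ∑' Q, (c Q * e (tf x Q)) * e (n * tf α Q) := by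
  have h1 : S (fun i => (α i : UnitAddCircle)) φ (n + 1) (fun i => (x i : UnitAddCircle)) -
      S (fun i => (α i : UnitAddCircle)) φ n (fun i => (x i : UnitAddCircle)) =
      φ (fun i => ((x i + n * α i : ℝ) : UnitAddCircle)) := by
    rw [add_comm n 1, S_add, S_one, add_sub_cancel_left]
    congr 1
    funext i
    show (x i : UnitAddCircle) + n • (α i : UnitAddCircle) = _
    rw [← AddCircle.coe_zsmul, ← AddCircle.coe_add, zsmul_eq_mul]
  rw [h1, hc]
  refine tsum_congr fun Q => ?_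
  rw [mul_assoc, ← ad_e_add]
  congr 2
  unfold tf
  rw [Finset.mul_sum, ← Finset.sum_add_distrib]
  exact Finset.sum_congr rfl fun i _ => by ring

theorem ad_no_dense {d : ℕ} (a : Fin d → UnitAddCircle) (φ : (Fin d → UnitAddCircle) → ℝ)
    (h : ∀ x, Tendsto (fun n : ℤ => |S a φ n x|) cofinite atTop)
    (p : (Fin d → UnitAddCircle) × ℝ) : ¬ Dense (orbit a φ p) := by
  intro hd
  obtain ⟨x, t⟩ := p
  have hU : IsOpen {z : (Fin d → UnitAddCircle) × ℝ | |z.2 - t| < 1} :=
    isOpen_lt (by fun_prop) continuous_const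
  have hfin : {n : ℤ | |S a φ n x| < 1}.Finite := by
    have := (h x).eventually (eventually_ge_atTop 1)
    rw [eventually_cofinite] at this
    refine this.subset fun n hn => ?_
    simpa using hn
  have hfin2 : (orbit a φ (x, t) ∩ {z | |z.2 - t| < 1}).Finite := by
    refine (hfin.image fun n => ((cyl a φ) ^ n) (x, t)).subset ?_
    rintro z ⟨⟨n, rfl⟩, hz⟩
    refine ⟨n, ?_, rfl⟩
    simp only [Set.mem_ofPred_eq, cyl_zpow_aux, add_sub_cancel_left] at hz
    exact hz
  have h1 : {z : (Fin d → UnitAddCircle) × ℝ | |z.2 - t| < 1} ⊆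
      closure (orbit a φ (x, t) ∩ {z | |z.2 - t| < 1}) := by
    rw [Set.inter_comm]
    intro z hz
    exact (hd.open_subset_closure_inter hU) hz
  rw [hfin2.isClosed.closure_eq] at h1
  have h2 : {z : (Fin d → UnitAddCircle) × ℝ | |z.2 - t| < 1}.Finite := hfin2.subset h1
  have h3 : (Set.Ioo (t - 1) (t + 1)).Finite := by
    refine (h2.image Prod.snd).subset fun s hs => ?_
    refine ⟨(x, s), ?_, rfl⟩
    show |s - t| < 1
    rw [abs_lt]
    constructor <;> linarith [hs.1, hs.2]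
  exact (Set.Ioo_infinite (by linarith : t - 1 < t + 1)) h3

/-- a smooth function of mean zero has no discrete orbits -/
theorem ad_zero {d : ℕ} (hCO1 : StmCO1) (hSGN : StmSGN) (hFR2 : StmFR2) (hPS2 : StmPS2)
    (hRC2 : StmRC2) (α : Fin d → ℝ) (hα : Irr α) (φ : (Fin d → UnitAddCircle) → ℝ)
    (c : (Fin d → ℤ) → ℂ) (hc1 : ∀ s : ℕ, Summable fun Q => ‖c Q‖ * ‖Q‖ ^ s)
    (hc2 : ∀ x : Fin d → ℝ, (φ (fun i => (x i : UnitAddCircle)) : ℂ) = ∑' Q, c Q * e (tf x Q))
    (hc0 : c 0 = 0) (x : Fin d → UnitAddCircle) :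
    ¬ Tendsto (fun n : ℤ => |S (fun i => (α i : UnitAddCircle)) φ n x|) cofinite atTop := by
  intro hT
  have hsum : Summable fun Q => ‖c Q‖ := by simpa using hc1 0
  have hφb : ∀ y, |φ y| ≤ ∑' Q, ‖c Q‖ := by
    intro y
    obtain ⟨y', rfl⟩ := ad_exists_lift y
    have h4 : |φ (fun i => (y' i : UnitAddCircle))| = ‖(φ (fun i => (y' i : UnitAddCircle)) : ℂ)‖ := by
      rw [Complex.norm_real, Real.norm_eq_abs]
    rw [h4, hc2 y']
    refine (norm_tsum_le_tsum_norm ?_).trans (le_of_eq ?_)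
    · simp only [norm_mul, ad_norm_e, mul_one]; exact hsum
    · simp only [norm_mul, ad_norm_e, mul_one]
  have hinc : ∀ n : ℤ, |S (fun i => (α i : UnitAddCircle)) φ (n + 1) x -
      S (fun i => (α i : UnitAddCircle)) φ n x| ≤ ∑' Q, ‖c Q‖ := by
    intro n
    rw [add_comm n 1, S_add, S_one, add_sub_cancel_left]
    exact hφb _
  obtain ⟨x', rfl⟩ := ad_exists_lift x
  have hs : ∀ s : ℕ, Summable fun Q => ‖c Q * e (tf x' Q)‖ * ‖Q‖ ^ s := by
    intro s
    simp only [norm_mul, ad_norm_e, mul_one]; exact hc1 s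
  have key : ∀ a : (Fin d → ℤ) → ℂ, (∀ Q, ‖a Q‖ = ‖c Q‖) → ∀ T : ℤ → ℝ,
      (∀ n : ℤ, ((T (n + 1) - T n : ℝ) : ℂ) = ∑' Q, a Q * e (n * tf α Q)) →
      ¬ Tendsto (fun n : ℕ => T n - T (-(n : ℤ))) atTop atTop := by
    intro a ha T hTa hlim
    have ha0 : a 0 = 0 := by rw [← norm_eq_zero, ha, hc0, norm_zero]
    obtain ⟨b, hb0, hb1, hb2⟩ := hFR2 d α a hα ha0 (by simpa only [ha] using hsum) T hTa
    obtain ⟨N0, hN4, hN0⟩ := hPS2 _ hlim (fun N hN => (hb2 N hN).1)
    refine hRC2 d α b hα hb0 ?_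
      (fun N => (∑' n : ℕ, ww N n * (T n - T (-(n : ℤ)))) / (N : ℝ) ^ 3) N0 hN4 ?_ ?_
    · intro s
      refine (hc1 s).of_nonneg_of_le (fun Q => by positivity) fun Q => ?_
      have := hb1 Q
      rw [ha] at this
      gcongr
    · intro N hN
      exact (hb2 N (hN4.trans hN)).2
    · intro N hN
      have hNpos : (0 : ℝ) < N := by
        have : 0 < N := by omega
        exact_mod_cast this
      obtain ⟨h1, h2⟩ := hN0 N hN
      refine ⟨by positivity, ?_⟩
      have h3 : (((2 * N : ℕ) : ℝ)) ^ 3 = 8 * (N : ℝ) ^ 3 := by push_cast; ring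
      rw [h3, div_le_iff₀ (by positivity)]
      have h4 : 16 * ((∑' n : ℕ, ww (2 * N) n * (T n - T (-(n : ℤ)))) / (8 * (N : ℝ) ^ 3)) *
          (N : ℝ) ^ 3 = 2 * ∑' n : ℕ, ww (2 * N) n * (T n - T (-(n : ℤ))) := by
        field_simp
        ring
      rw [h4]
      exact h2
  rcases hSGN _ _ hinc hT with h | h | h | h
  · exact hCO1 d α (fun Q => c Q * e (tf x' Q)) hα (by simp only [hc0, zero_mul]) hs
      (fun n => S (fun i => (α i : UnitAddCircle)) φ n (fun i => (x' i : UnitAddCircle)))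
      (ad_expansion φ c hc2 α x') h
  · refine hCO1 d α (fun Q => -(c Q * e (tf x' Q))) hα (by simp only [hc0, zero_mul, neg_zero])
      (by simpa only [norm_neg] using hs)
      (fun n => -S (fun i => (α i : UnitAddCircle)) φ n (fun i => (x' i : UnitAddCircle))) ?_ ?_
    · intro n
      have h1 := ad_expansion φ c hc2 α x' n
      simp only [neg_mul]
      rw [tsum_neg, ← h1]
      push_cast
      ring
    · refine h.congr fun n => ?_
      ring
  · exact key (fun Q => c Q * e (tf x' Q)) (fun Q => by rw [norm_mul, ad_norm_e, mul_one])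
      (fun n => S (fun i => (α i : UnitAddCircle)) φ n (fun i => (x' i : UnitAddCircle)))
      (ad_expansion φ c hc2 α x') h
  · refine key (fun Q => -(c Q * e (tf x' Q))) (fun Q => by rw [norm_neg, norm_mul, ad_norm_e, mul_one])
      (fun n => -S (fun i => (α i : UnitAddCircle)) φ n (fun i => (x' i : UnitAddCircle))) ?_ ?_
    · intro n
      have h1 := ad_expansion φ c hc2 α x' n
      simp only [neg_mul]
      rw [tsum_neg, ← h1]
      push_cast
      ring
    · refine h.congr fun n => ?_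
      ring

/-- if the mean is not zero then all orbits are discrete, and no orbit is dense -/
theorem ad_mean {d : ℕ} (hMEA : StmMEA) (α : Fin d → ℝ) (hα : Irr α)
    (φ : (Fin d → UnitAddCircle) → ℝ)
    (c : (Fin d → ℤ) → ℂ) (hc1 : ∀ s : ℕ, Summable fun Q => ‖c Q‖ * ‖Q‖ ^ s)
    (hc2 : ∀ x : Fin d → ℝ, (φ (fun i => (x i : UnitAddCircle)) : ℂ) = ∑' Q, c Q * e (tf x Q))
    (hdense : ∃ p, Dense (orbit (fun i => (α i : UnitAddCircle)) φ p)) : c 0 = 0 := by
  by_contra hne
  obtain ⟨p, hp⟩ := hdense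
  refine ad_no_dense _ φ (fun y => ?_) p hp
  obtain ⟨y', rfl⟩ := ad_exists_lift y
  refine hMEA d α (fun Q => c Q * e (tf y' Q)) hα ?_ ?_
    (fun n => S (fun i => (α i : UnitAddCircle)) φ n (fun i => (y' i : UnitAddCircle)))
    (ad_expansion φ c hc2 α y')
  · simp only [ad_tf_zero, ad_e_zero, mul_one]; exact hne
  · simp only [norm_mul, ad_norm_e, mul_one]; simpa using hc1 0

/-- an orbit without accumulation points is divergent -/
theorem ad_acc {d : ℕ} (hd : 1 ≤ d) (a : Fin d → UnitAddCircle)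
    (hmin : ∀ x : Fin d → UnitAddCircle, Dense (Set.range fun n : ℤ => x + n • a))
    (φ : (Fin d → UnitAddCircle) → ℝ) (p : (Fin d → UnitAddCircle) × ℝ)
    (hp : ∀ z, ¬ AccPt z (𝓟 (orbit a φ p))) :
    Tendsto (fun n : ℤ => |S a φ n p.1|) cofinite atTop := by
  obtain ⟨x, t⟩ := p
  have hinj : Function.Injective (fun n : ℤ => n • a) := by
    intro n m hnm
    by_contra hne
    have hk : (n - m) • a = 0 := by
      rw [sub_smul]; simp only at hnm; rw [hnm, sub_self]
    have hfin : (Set.range fun k : ℤ => (0 : Fin d → UnitAddCircle) + k • a).Finite := by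
      have hk0 : n - m ≠ 0 := sub_ne_zero.mpr hne
      refine ((Set.finite_Ico (0 : ℤ) |n - m|).image fun k : ℤ =>
        (0 : Fin d → UnitAddCircle) + k • a).subset ?_
      rintro _ ⟨k, rfl⟩
      refine ⟨k % (n - m), ⟨Int.emod_nonneg _ hk0, Int.emod_lt_abs _ hk0⟩, ?_⟩
      have : k = k % (n - m) + (k / (n - m)) * (n - m) := by
        rw [mul_comm]; exact (Int.emod_add_mul_ediv k (n - m)).symm
      show (0 : Fin d → UnitAddCircle) + (k % (n - m)) • a = 0 + k • a
      conv_rhs => rw [this, add_smul, mul_smul, hk, smul_zero, add_zero]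
    have hcl := (hmin 0).closure_eq
    rw [hfin.isClosed.closure_eq] at hcl
    rw [hcl] at hfin
    haveI : Nonempty (Fin d) := ⟨⟨0, hd⟩⟩
    haveI : Infinite (Fin d → UnitAddCircle) := by
      haveI : Infinite UnitAddCircle := by
        refine Infinite.of_injective (fun n : ℕ => ((1 / ((n : ℝ) + 2) : ℝ) : UnitAddCircle)) ?_
        intro i j hij
        have h1 : ∀ n : ℕ, (1 / ((n : ℝ) + 2)) ∈ Set.Ico (0 : ℝ) (0 + 1) := by
          intro n
          have : (0 : ℝ) ≤ n := Nat.cast_nonneg n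
          constructor
          · positivity
          · rw [zero_add, div_lt_one (by positivity)]; linarith
        have h2 := (AddCircle.coe_eq_coe_iff_of_mem_Ico (p := (1 : ℝ)) (a := 0) (h1 i) (h1 j)).mp hij
        have h3 : (i : ℝ) + 2 = (j : ℝ) + 2 := by
          have hi : (0 : ℝ) < (i : ℝ) + 2 := by positivity
          have hj : (0 : ℝ) < (j : ℝ) + 2 := by positivity
          field_simp at h2
          linarith
        exact_mod_cast (add_right_cancel h3)
      infer_instance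
    exact Set.infinite_univ hfin
  rw [tendsto_atTop]
  intro B
  rw [eventually_cofinite]
  by_contra hinf
  have hK : IsCompact ((Set.univ : Set (Fin d → UnitAddCircle)) ×ˢ Set.Icc (t - B) (t + B)) :=
    isCompact_univ.prod isCompact_Icc
  have hI : ((fun n : ℤ => ((cyl a φ) ^ n) (x, t)) '' {n : ℤ | ¬ B ≤ |S a φ n x|}).Infinite := by
    refine Set.Infinite.image ?_ hinf
    intro n _ m _ hnm
    simp only [cyl_zpow_aux, Prod.mk.injEq, add_right_inj] at hnm
    exact hinj hnm.1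
  obtain ⟨z, _, hz⟩ := hI.exists_accPt_of_subset_isCompact hK (by
    rintro _ ⟨n, hn, rfl⟩
    refine ⟨Set.mem_univ _, ?_⟩
    simp only [Set.mem_ofPred_eq, not_le] at hn
    have := abs_lt.mp hn
    simp only [cyl_zpow_aux]
    constructor <;> linarith [this.1, this.2])
  refine hp z (hz.mono ?_)
  rw [Filter.principal_mono]
  rintro _ ⟨n, _, rfl⟩
  exact ⟨n, rfl⟩

end Pool.Agent.T6.H46.CZ
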