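import Pool.Agent.T6.H46.CZ.Stm

/-! Project CZ (helper46), module INT (helper12): interpolation of `m ↦ (1 - μ)^m`. -/

set_option autoImplicit false

open Finset Polynomial

namespace Pool.Agent.T6.H46.CZ

namespace ModINT

/-- the remainder of the binomial sum -/
noncomputable def Rm (μ : ℝ) (p N : ℕ) : ℝ :=
  (1 - μ) ^ N - ∑ l ∈ range p, (N.choose l : ℝ) * (-μ) ^ l

theorem R_succ (μ : ℝ) (p N : ℕ) : Rm μ (p + 1) (N + 1) = Rm μ (p + 1) N - μ * Rm μ p N := by
  unfold Rm
  have h1 : ∑ l ∈ range (p + 1), ((N + 1).choose l : ℝ) * (-μ) ^ l =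
      ∑ l ∈ range (p + 1), (N.choose l : ℝ) * (-μ) ^ l +
        (-μ) * ∑ l ∈ range p, (N.choose l : ℝ) * (-μ) ^ l := by
    rw [sum_range_succ', sum_range_succ' (fun l => (N.choose l : ℝ) * (-μ) ^ l), mul_sum]
    have h2 : ∀ l, ((N + 1).choose (l + 1) : ℝ) * (-μ) ^ (l + 1) =
        (N.choose (l + 1) : ℝ) * (-μ) ^ (l + 1) + (-μ) * ((N.choose l : ℝ) * (-μ) ^ l) := by
      intro l
      rw [Nat.choose_succ_succ']
      push_cast
      ring
    simp only [h2, sum_add_distrib]
    simp
    ring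
  rw [h1]
  ring

theorem R_le (μ : ℝ) (h0 : 0 ≤ μ) (h1 : μ ≤ 1) (p : ℕ) : ∀ N : ℕ, |Rm μ p N| ≤ (N * μ) ^ p := by
  induction p with
  | zero =>
    intro N
    have h2 : 0 ≤ (1 - μ) ^ N := pow_nonneg (by linarith) N
    simp only [Rm, range_zero, sum_empty, sub_zero, pow_zero]
    rw [abs_of_nonneg h2]
    exact pow_le_one₀ (by linarith) (by linarith)
  | succ p ih =>
    intro N
    induction N with
    | zero =>
      have h3 : Rm μ (p + 1) 0 = 0 := by
        unfold Rm
        rw [sum_range_succ']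
        simp
      rw [h3]
      simp
    | succ N ihN =>
      rw [R_succ]
      have h4 : |Rm μ (p + 1) N - μ * Rm μ p N| ≤ (N * μ) ^ (p + 1) + μ * (N * μ) ^ p := by
        refine (abs_sub _ _).trans (add_le_add ihN ?_)
        rw [abs_mul, abs_of_nonneg h0]
        exact mul_le_mul_of_nonneg_left (ih N) h0
      refine h4.trans ?_
      have h5 : (N * μ) ^ p ≤ ((N + 1 : ℕ) * μ) ^ p := by
        apply pow_le_pow_left₀ (by positivity)
        apply mul_le_mul_of_nonneg_right _ h0
        push_cast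
        linarith
      have h6 : 0 ≤ ((N + 1 : ℕ) : ℝ) * μ := by positivity
      calc (N * μ) ^ (p + 1) + μ * (N * μ) ^ p = (N * μ) ^ p * (((N + 1 : ℕ) : ℝ) * μ) := by
            push_cast; ring
        _ ≤ ((N + 1 : ℕ) * μ) ^ p * (((N + 1 : ℕ) : ℝ) * μ) :=
            mul_le_mul_of_nonneg_right h5 h6
        _ = _ := by ring

/-- the truncated binomial sum as a polynomial in the exponent -/
noncomputable def Q (μ : ℝ) (p : ℕ) : ℝ[X] :=
  ∑ l ∈ range p, C ((-μ) ^ l / (l.factorial : ℝ)) * descPochhammer ℝ l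

theorem Q_eval (μ : ℝ) (p N : ℕ) :
    (Q μ p).eval (N : ℝ) = ∑ l ∈ range p, (N.choose l : ℝ) * (-μ) ^ l := by
  unfold Q
  rw [eval_finsetSum]
  refine sum_congr rfl fun l _ => ?_
  rw [eval_mul, eval_C, descPochhammer_eval_eq_descFactorial, Nat.descFactorial_eq_factorial_mul_choose]
  have : (l.factorial : ℝ) ≠ 0 := by positivity
  push_cast
  field_simp

theorem Q_deg (μ : ℝ) (p : ℕ) : (Q μ p).degree < p := by
  unfold Q
  rw [← mem_degreeLT]
  refine Submodule.sum_mem _ fun l hl => ?_
  rw [mem_degreeLT]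
  have h1 : (C ((-μ) ^ l / (l.factorial : ℝ)) * descPochhammer ℝ l).degree ≤ (l : ℕ) := by
    refine (degree_mul_le _ _).trans ((add_le_add degree_C_le le_rfl).trans ?_)
    rw [zero_add]
    refine degree_le_natDegree.trans ?_
    rw [descPochhammer_natDegree]
  refine lt_of_le_of_lt h1 ?_
  exact_mod_cast mem_range.1 hl

theorem ratio (m m' i j : ℕ) (hm : m ≤ m') (h0 : 0 < m') (hij : i ≠ j) :
    |((2 ^ j * m' : ℝ) - 2 ^ i * m')⁻¹ * ((m : ℝ) - 2 ^ i * m')| ≤ 2 := by
  have hm' : (0 : ℝ) < m' := by exact_mod_cast h0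
  have hmm : (m : ℝ) ≤ m' := by exact_mod_cast hm
  have hm0 : (0 : ℝ) ≤ m := by positivity
  have p1 : (1 : ℝ) ≤ 2 ^ i := one_le_pow₀ (by norm_num)
  have n1 : |(m : ℝ) - 2 ^ i * m'| ≤ 2 ^ i * m' := by
    rw [abs_le]
    constructor
    · linarith
    · nlinarith
  have n2 : 2 ^ i * (m' : ℝ) ≤ 2 * |(2 ^ j * m' : ℝ) - 2 ^ i * m'| := by
    rcases lt_or_gt_of_ne hij with h | h
    · have h1 : (2 : ℝ) * 2 ^ i ≤ 2 ^ j := by
        rw [← pow_succ']
        exact pow_le_pow_right₀ (by norm_num) h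
      rw [abs_of_nonneg (by nlinarith)]
      nlinarith
    · have h1 : (2 : ℝ) * 2 ^ j ≤ 2 ^ i := by
        rw [← pow_succ']
        exact pow_le_pow_right₀ (by norm_num) h
      rw [abs_of_nonpos (by nlinarith)]
      nlinarith
  have n3 : 0 < |(2 ^ j * m' : ℝ) - 2 ^ i * m'| := by
    have : (0 : ℝ) < 2 ^ i * m' := by positivity
    linarith
  rw [abs_mul, abs_inv, inv_mul_le_iff₀ n3]
  linarith

end ModINT

open ModINT in
theorem mINT : StmINT := by
  intro p m m' hp hm
  rcases Nat.eq_zero_or_pos m' with h0 | h0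
  · subst h0
    have hm0 : m = 0 := by omega
    subst hm0
    refine ⟨fun j => if j = 0 then 1 else 0, ?_, ?_⟩
    · intro j
      by_cases hj : j = 0
      · simp only [hj, if_true, abs_one]
        exact one_le_pow₀ (by norm_num)
      · simp only [hj, if_false, abs_zero]
        positivity
    · intro μ _ _
      have h1 : ∑ j ∈ range p, (if j = 0 then (1 : ℝ) else 0) * (1 - μ) ^ (2 ^ j * 0) = 1 := by
        simp only [mul_zero, pow_zero, mul_one]
        rw [Finset.sum_ite_eq' (range p) 0]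
        rw [if_pos (mem_range.2 hp)]
      rw [h1]
      simp only [pow_zero, sub_self, abs_zero]
      positivity
  · set v : ℕ → ℝ := fun j => 2 ^ j * m' with hv
    have hm' : (0 : ℝ) < m' := by exact_mod_cast h0
    have hinj : Set.InjOn v (range p : Set ℕ) := by
      intro a _ b _ hab
      simp only [hv] at hab
      have h1 : (2 : ℝ) ^ a = 2 ^ b := mul_right_cancel₀ hm'.ne' hab
      exact pow_right_injective₀ (by norm_num : (0 : ℝ) < 2) (by norm_num) h1
    set L : ℕ → ℝ := fun j => if j ∈ range p then (Lagrange.basis (range p) v j).eval (m : ℝ) else 0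
      with hL
    have hLb : ∀ j, |L j| ≤ 2 ^ p := by
      intro j
      by_cases hj : j ∈ range p
      · simp only [hL, hj, if_true]
        unfold Lagrange.basis
        rw [eval_prod, Finset.abs_prod]
        have h1 : ∀ i ∈ (range p).erase j,
            |(Lagrange.basisDivisor (v j) (v i)).eval (m : ℝ)| ≤ 2 := by
          intro i hi
          have hij : i ≠ j := (mem_erase.1 hi).1
          have e : (Lagrange.basisDivisor (v j) (v i)).eval (m : ℝ) =
              (v j - v i)⁻¹ * ((m : ℝ) - v i) := by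
            simp [Lagrange.basisDivisor]
          rw [e]
          exact ratio m m' i j hm h0 hij
        calc ∏ i ∈ (range p).erase j, |(Lagrange.basisDivisor (v j) (v i)).eval (m : ℝ)|
            ≤ ∏ _i ∈ (range p).erase j, (2 : ℝ) :=
              Finset.prod_le_prod (fun i _ => abs_nonneg _) h1
          _ = 2 ^ ((range p).erase j).card := by simp
          _ ≤ 2 ^ p := by
              apply pow_le_pow_right₀ (by norm_num)
              refine (card_erase_le).trans ?_
              simp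
      · simp only [hL, hj, if_false, abs_zero]
        positivity
    refine ⟨L, hLb, ?_⟩
    intro μ hμ0 hμ1
    have hq : (Q μ p).eval (m : ℝ) = ∑ j ∈ range p, L j * (Q μ p).eval (v j) := by
      have h1 := Lagrange.eq_interpolate hinj (f := Q μ p) (by simpa using Q_deg μ p)
      have h2 := congrArg (fun f => Polynomial.eval (m : ℝ) f) h1
      simp only [Lagrange.interpolate_apply, eval_finsetSum, eval_mul, eval_C] at h2
      rw [h2]
      refine sum_congr rfl fun j hj => ?_
      simp only [hL, hj, if_true]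
      ring
    have hvN : ∀ j, v j = ((2 ^ j * m' : ℕ) : ℝ) := by intro j; simp [hv]
    have hRm : ∀ N : ℕ, (1 - μ) ^ N = Rm μ p N + (Q μ p).eval (N : ℝ) := by
      intro N; rw [Q_eval]; unfold Rm; ring
    have e : (1 - μ) ^ m - ∑ j ∈ range p, L j * (1 - μ) ^ (2 ^ j * m') =
        Rm μ p m - ∑ j ∈ range p, L j * Rm μ p (2 ^ j * m') := by
      rw [hRm m, hq]
      have h3 : ∀ j ∈ range p, L j * (1 - μ) ^ (2 ^ j * m') =
          L j * Rm μ p (2 ^ j * m') + L j * (Q μ p).eval (v j) := by
        intro j _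
        rw [hRm (2 ^ j * m'), hvN]
        ring
      rw [sum_congr rfl h3, sum_add_distrib]
      ring
    rw [e]
    have hB : ∀ N : ℕ, (N : ℝ) ≤ 2 ^ p * m' → |Rm μ p N| ≤ (2 ^ p * m' * μ) ^ p := by
      intro N hN
      refine (R_le μ hμ0 hμ1 p N).trans ?_
      apply pow_le_pow_left₀ (by positivity)
      exact mul_le_mul_of_nonneg_right hN hμ0
    have hp1 : (1 : ℝ) ≤ 2 ^ p := one_le_pow₀ (by norm_num)
    have hmm : (m : ℝ) ≤ 2 ^ p * m' := by
      have : (m : ℝ) ≤ m' := by exact_mod_cast hm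
      nlinarith
    calc |Rm μ p m - ∑ j ∈ range p, L j * Rm μ p (2 ^ j * m')|
        ≤ |Rm μ p m| + |∑ j ∈ range p, L j * Rm μ p (2 ^ j * m')| := abs_sub _ _
      _ ≤ (2 ^ p * m' * μ) ^ p + ∑ _j ∈ range p, 2 ^ p * (2 ^ p * m' * μ) ^ p := by
          refine add_le_add (hB m hmm) ?_
          refine (Finset.abs_sum_le_sum_abs _ _).trans (sum_le_sum fun j hj => ?_)
          rw [abs_mul]
          refine mul_le_mul (hLb j) (hB _ ?_) (abs_nonneg _) (by positivity)
          push_cast
          apply mul_le_mul_of_nonneg_right _ hm'.le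
          exact pow_le_pow_right₀ (by norm_num) (mem_range.1 hj).le
      _ = (1 + p * 2 ^ p) * (2 ^ p * m' * μ) ^ p := by
          rw [sum_const, card_range, nsmul_eq_mul]
          ring

end Pool.Agent.T6.H46.CZ
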