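import Mathlib

/-!
Project CZ (MP_3d11e1_an): no real-analytic Besicovitch cylindrical transformation over a minimal
rotation of a torus.  Statements of the modules.
-/

set_option autoImplicit false

namespace Pool.Agent.T6.H46.CZ

open Finset Filter

/-- distance to the nearest integer -/
noncomputable def nd (x : ℝ) : ℝ := |x - round x|

/-- the linear form `Q ↦ Q · α` -/
noncomputable def tf {d : ℕ} (α : Fin d → ℝ) (Q : Fin d → ℤ) : ℝ := ∑ i, (Q i : ℝ) * α i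

/-- the character `x ↦ exp (2 π i x)` -/
noncomputable def e (x : ℝ) : ℂ := Complex.exp (2 * Real.pi * Complex.I * (x : ℂ))

/-- `1, α_1, …, α_d` are linearly independent over `ℚ` -/
def Irr {d : ℕ} (α : Fin d → ℝ) : Prop := ∀ Q : Fin d → ℤ, Q ≠ 0 → ∀ k : ℤ, tf α Q ≠ k

/-- `sin² (π t_Q)` -/
noncomputable def mu {d : ℕ} (α : Fin d → ℝ) (Q : Fin d → ℤ) : ℝ :=
  Real.sin (Real.pi * tf α Q) ^ 2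

/-- DIR: simultaneous Dirichlet approximation. -/
def StmDIR : Prop := ∀ (d : ℕ) (α : Fin d → ℝ) (N M : ℕ), 1 ≤ N → 1 ≤ M →
  ∃ n : ℕ, M ≤ n ∧ n ≤ M * N ^ d ∧ ∀ Q : Fin d → ℤ, nd (n * tf α Q) ≤ d * ‖Q‖ / N

/-- GAP: a gap in the sizes of the linear forms. -/
def StmGAP : Prop := ∀ (d K : ℕ), ∃ B X0 : ℕ, ∀ (α : Fin d → ℝ) (X : ℕ), X0 ≤ X →
  ∃ β : ℕ, 1 ≤ β ∧ β ≤ B ∧ ∀ Q : Fin d → ℤ, Q ≠ 0 → ‖Q‖ ≤ X →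
    (1 / (X : ℝ) ^ β ≤ nd (tf α Q) ∨ nd (tf α Q) ≤ 1 / (X : ℝ) ^ (K * β))

/-- C1L: arbitrarily large `n` with all `‖n Q α‖² ≤ |Q|^s ‖Q α‖`. -/
def StmC1L : Prop := ∀ d : ℕ, ∃ s : ℕ, ∀ (α : Fin d → ℝ) (M : ℕ), ∃ n : ℕ, M ≤ n ∧
  ∀ Q : Fin d → ℤ, Q ≠ 0 → nd (n * tf α Q) ^ 2 ≤ ‖Q‖ ^ s * nd (tf α Q)

/-- CO1: no smooth cocycle has Birkhoff sums tending to `+∞` in both directions of time. -/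
def StmCO1 : Prop := ∀ (d : ℕ) (α : Fin d → ℝ) (a : (Fin d → ℤ) → ℂ), Irr α → a 0 = 0 →
  (∀ s : ℕ, Summable fun Q => ‖a Q‖ * ‖Q‖ ^ s) → ∀ S : ℤ → ℝ,
  (∀ n : ℤ, ((S (n + 1) - S n : ℝ) : ℂ) = ∑' Q, a Q * e (n * tf α Q)) →
  ¬ Tendsto (fun n : ℕ => S n + S (-(n : ℤ))) atTop atTop

/-- the weights: differences of binomial coefficients -/
noncomputable def bal (m n : ℕ) : ℝ :=
  (((2 * m + 1).choose (m + n) : ℝ) - ((2 * m + 1).choose (m + n + 1) : ℝ)) / 2 ^ (2 * m + 1)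

/-- BAL: properties of the weights. -/
def StmBAL : Prop := (∀ m n : ℕ, 0 ≤ bal m n) ∧
  (∀ m n : ℕ, (((m : ℝ) + 1) / (m + 2)) ^ 2 * bal m n ≤ bal (m + 1) n) ∧
  (∀ m n : ℕ, 2 * n ^ 2 + 2 * n ≤ m + 1 → bal m n ≤ bal m (n + 1)) ∧
  (∀ m n : ℕ, 1 ≤ n → n ≤ m + 1 → 0 < bal m n) ∧ (∀ m : ℕ, bal m 0 = 0) ∧
  (∀ m n : ℕ, m + 1 < n → bal m n = 0)

/-- POS: averages of a sequence tending to `+∞`. -/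
def StmPOS : Prop := ∀ O : ℕ → ℝ, Tendsto O atTop atTop → ∃ M0 : ℕ, ∀ m : ℕ, M0 ≤ m →
  0 < ∑ n ∈ range (m + 2), bal m n * O n ∧ ∀ m' : ℕ, m ≤ m' →
    ∑ n ∈ range (m + 2), bal m n * O n ≤
      3 * (((m' : ℝ) + 1) / (m + 1)) ^ 2 * ∑ n ∈ range (m' + 2), bal m' n * O n

/-- FRQ: the averages in terms of the frequencies. -/
def StmFRQ : Prop := ∀ (d : ℕ) (α : Fin d → ℝ) (a : (Fin d → ℤ) → ℂ), (Summable fun Q => ‖a Q‖) →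
  ∀ S : ℤ → ℝ, (∀ n : ℤ, ((S (n + 1) - S n : ℝ) : ℂ) = ∑' Q, a Q * e (n * tf α Q)) → ∀ m : ℕ,
  ((∑ n ∈ range (m + 2), bal m n * (S n - S (-(n : ℤ))) : ℝ) : ℂ) =
    ∑' Q, (a Q * e (-(tf α Q) / 2) * (Real.cos (Real.pi * tf α Q) : ℂ)) *
      ((1 - mu α Q : ℝ) : ℂ) ^ m

/-- INT: interpolation of `m ↦ (1 - μ)^m` at the nodes `2^j m'`. -/
def StmINT : Prop := ∀ p m m' : ℕ, 1 ≤ p → m ≤ m' → ∃ L : ℕ → ℝ, (∀ j, |L j| ≤ 2 ^ p) ∧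
  ∀ μ : ℝ, 0 ≤ μ → μ ≤ 1 → |(1 - μ) ^ m - ∑ j ∈ range p, L j * (1 - μ) ^ (2 ^ j * m')| ≤
    (1 + p * 2 ^ p) * (2 ^ p * m' * μ) ^ p

/-- TRU: the sum over the frequencies in a zone without frequencies. -/
def StmTRU : Prop := ∀ p : ℕ, 1 ≤ p → ∃ Cp : ℝ, 0 < Cp ∧ ∀ (ι : Type) (b : ι → ℂ) (μ : ι → ℝ),
  (Summable fun i => ‖b i‖) → (∀ i, 0 ≤ μ i ∧ μ i ≤ 1) → ∀ σ : ℕ → ℝ,
  (∀ m : ℕ, (σ m : ℂ) = ∑' i, b i * ((1 - μ i : ℝ) : ℂ) ^ m) → ∀ F : Set ι,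
  (∀ (m m' : ℕ) (Y : ℝ), 1 ≤ Y → m ≤ m' →
    (∀ i ∈ F, Y ≤ m * μ i ∨ 2 ^ p * m' * μ i ≤ 1 / Y) →
    ∃ j, j < p ∧ |σ m| ≤ p * 2 ^ p * |σ (2 ^ j * m')| +
      Cp * ((∑' i, ‖b i‖) / Y ^ p + ∑' i : ↥Fᶜ, ‖b i‖)) ∧
  (∀ (m : ℕ) (Y : ℝ), 1 ≤ Y → (∀ i ∈ F, Y ≤ m * μ i) →
    |σ m| ≤ Cp * ((∑' i, ‖b i‖) / Y ^ p + ∑' i : ↥Fᶜ, ‖b i‖))

/-- CNT: the sizes of the linear forms with `|Q| ≤ R` lie in few zones. -/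
def StmCNT : Prop := ∀ d : ℕ, ∃ C : ℝ, 0 < C ∧ ∀ α : Fin d → ℝ, Irr α → ∀ R : ℝ, 1 ≤ R →
  ∃ Θ : Finset ℝ, (∀ θ ∈ Θ, 0 < θ ∧ θ ≤ 1) ∧ (2 : ℝ) ^ Θ.card ≤ C * R ^ (2 * d) ∧
    ∀ Q : Fin d → ℤ, Q ≠ 0 → ‖Q‖ ≤ R → ∃ θ ∈ Θ, θ / 64 ≤ mu α Q ∧ mu α Q ≤ θ

/-- STP: passing the zones one after the other. -/
def StmSTP : Prop := ∀ p : ℕ, 13 ≤ p → ∀ Cp A : ℝ, 0 < Cp → 0 < A → ∃ s1 : ℝ, 0 < s1 ∧ s1 < 1 ∧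
  ∀ (M0 : ℕ) (σ : ℕ → ℝ) (Θ : Finset ℝ) (ε : ℝ), (∀ θ ∈ Θ, 0 < θ ∧ θ ≤ 1) →
  (∀ m : ℕ, M0 ≤ m → 0 < σ m ∧ ∀ m' : ℕ, m ≤ m' →
    σ m ≤ 3 * (((m' : ℝ) + 1) / (m + 1)) ^ 2 * σ m') →
  (∀ (m m' : ℕ) (Y : ℝ), 1 ≤ Y → m ≤ m' →
    (∀ θ ∈ Θ, Y ≤ m * θ / 64 ∨ 2 ^ p * m' * θ ≤ 1 / Y) →
    ∃ j, j < p ∧ |σ m| ≤ p * 2 ^ p * |σ (2 ^ j * m')| + Cp * (A / Y ^ p + ε)) →
  (∀ (m : ℕ) (Y : ℝ), 1 ≤ Y → (∀ θ ∈ Θ, Y ≤ m * θ / 64) → |σ m| ≤ Cp * (A / Y ^ p + ε)) →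
  ∀ m0 : ℕ, M0 ≤ m0 → ∀ s0 : ℝ, 0 < s0 → s0 ≤ s1 → s0 ≤ σ m0 →
    (s0 ^ ((1 + 13 / (p : ℝ)) ^ Θ.card)) ^ 2 < ε

/-- REC: the conclusion of the recursion (from TRU, CNT, STP). -/
def StmREC : Prop := ∀ (d : ℕ) (α : Fin d → ℝ) (b : (Fin d → ℤ) → ℂ) (C c : ℝ), Irr α → b 0 = 0 →
  0 < c → (∀ Q, ‖b Q‖ ≤ C * Real.exp (-(c * ‖Q‖))) → ∀ σ : ℕ → ℝ,
  (∀ m : ℕ, (σ m : ℂ) = ∑' Q, b Q * ((1 - mu α Q : ℝ) : ℂ) ^ m) → ∀ M0 : ℕ,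
  ¬ (∀ m : ℕ, M0 ≤ m → 0 < σ m ∧ ∀ m' : ℕ, m ≤ m' →
    σ m ≤ 3 * (((m' : ℝ) + 1) / (m + 1)) ^ 2 * σ m')

/-- SGN: the signs of the Birkhoff sums along a discrete orbit. -/
def StmSGN : Prop := ∀ (S : ℤ → ℝ) (F : ℝ), (∀ n : ℤ, |S (n + 1) - S n| ≤ F) →
  Tendsto (fun n : ℤ => |S n|) cofinite atTop →
  (Tendsto (fun n : ℕ => S n + S (-(n : ℤ))) atTop atTop ∨
   Tendsto (fun n : ℕ => -(S n + S (-(n : ℤ)))) atTop atTop ∨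
   Tendsto (fun n : ℕ => S n - S (-(n : ℤ))) atTop atTop ∨
   Tendsto (fun n : ℕ => -(S n - S (-(n : ℤ)))) atTop atTop)

/-- MEA: cocycles with nonzero mean have no recurrence. -/
def StmMEA : Prop := ∀ (d : ℕ) (α : Fin d → ℝ) (a : (Fin d → ℤ) → ℂ), Irr α → a 0 ≠ 0 →
  (Summable fun Q => ‖a Q‖) → ∀ S : ℤ → ℝ,
  (∀ n : ℤ, ((S (n + 1) - S n : ℝ) : ℂ) = ∑' Q, a Q * e (n * tf α Q)) →
  Tendsto (fun n : ℤ => |S n|) cofinite atTop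

/-- IBP: Fourier coefficients of a smooth function on the torus (integration by parts in the
coordinate `i`, `k` times), and the Fourier series. -/
def StmIBP : Prop := ∀ (d : ℕ) (φ : (Fin d → UnitAddCircle) → ℝ),
  ContDiff ℝ ((⊤ : ℕ∞) : WithTop ℕ∞) (fun x : Fin d → ℝ => φ (fun i => (x i : UnitAddCircle))) →
  ∃ a : (Fin d → ℤ) → ℂ,
    (∀ (Q : Fin d → ℤ) (i : Fin d) (k : ℕ) (B : ℝ), (∀ x : Fin d → ℝ,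
      |iteratedDeriv k (fun s : ℝ => φ (fun j => ((x + s • (Pi.single i (1 : ℝ) : Fin d → ℝ)) j : UnitAddCircle))) 0|
        ≤ B) → ‖a Q‖ * (2 * Real.pi * |(Q i : ℝ)|) ^ k ≤ B) ∧
    ((Summable fun Q => ‖a Q‖) →
      ∀ x : Fin d → ℝ, (φ (fun i => (x i : UnitAddCircle)) : ℂ) = ∑' Q, a Q * e (tf x Q))

/-- FOS: Fourier expansion of a smooth function on the torus. -/
def StmFOS : Prop := ∀ (d : ℕ) (φ : (Fin d → UnitAddCircle) → ℝ),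
  ContDiff ℝ ((⊤ : ℕ∞) : WithTop ℕ∞) (fun x : Fin d → ℝ => φ (fun i => (x i : UnitAddCircle))) →
  ∃ a : (Fin d → ℤ) → ℂ, (∀ s : ℕ, Summable fun Q => ‖a Q‖ * ‖Q‖ ^ s) ∧
    ∀ x : Fin d → ℝ, (φ (fun i => (x i : UnitAddCircle)) : ℂ) = ∑' Q, a Q * e (tf x Q)

/-- FOA: Fourier expansion of a real-analytic function on the torus. -/
def StmFOA : Prop := ∀ (d : ℕ) (φ : (Fin d → UnitAddCircle) → ℝ),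
  AnalyticOnNhd ℝ (fun x : Fin d → ℝ => φ (fun i => (x i : UnitAddCircle))) Set.univ →
  ∃ (a : (Fin d → ℤ) → ℂ) (C c : ℝ), 0 < c ∧ (∀ Q, ‖a Q‖ ≤ C * Real.exp (-(c * ‖Q‖))) ∧
    ∀ x : Fin d → ℝ, (φ (fun i => (x i : UnitAddCircle)) : ℂ) = ∑' Q, a Q * e (tf x Q)

/-- ADR: derivative bounds for a real-analytic function periodic under `ℤ^d`. -/
def StmADR : Prop := ∀ (d : ℕ) (F : (Fin d → ℝ) → ℝ), AnalyticOnNhd ℝ F Set.univ →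
  (∀ (x : Fin d → ℝ) (z : Fin d → ℤ), F (fun i => x i + z i) = F x) →
  ∃ C A : ℝ, 0 < A ∧ ∀ (i : Fin d) (x : Fin d → ℝ) (k : ℕ),
    |iteratedDeriv k (fun s : ℝ => F (x + s • Pi.single i 1)) 0| ≤ C * A ^ k * k.factorial

end Pool.Agent.T6.H46.CZ
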