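import Mathlib
import Pool.Agent.T6.H46.CZ.Stm

/-!
Project CZ (MP_3d11e1_an), module POS: averages of a sequence tending to `+∞`.
-/

set_option autoImplicit false

namespace Pool.Agent.T6.H46.CZ

open Finset Filter

namespace ModPOS

/-- the weights increase up to `n1` -/
theorem bal_mono (hB : StmBAL) {m n1 : ℕ} (hm : 2 * n1 ^ 2 + 2 * n1 ≤ m + 1) {n : ℕ}
    (hn : n ≤ n1) : bal m n ≤ bal m n1 := by
  obtain ⟨-, -, h3, -, -, -⟩ := hB
  have key : ∀ j : ℕ, n + j ≤ n1 → bal m n ≤ bal m (n + j) := by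
    intro j
    induction j with
    | zero => intro _; simp
    | succ j ih =>
      intro hj
      refine le_trans (ih (by omega)) ?_
      have h1 : (n + j) ^ 2 ≤ n1 ^ 2 := Nat.pow_le_pow_left (by omega) 2
      exact h3 m (n + j) (by omega)
  have h := key (n1 - n) (by omega)
  rwa [Nat.add_sub_cancel' hn] at h

/-- the part of the average over `n ≥ n0` -/
noncomputable def tau (O : ℕ → ℝ) (n0 m : ℕ) : ℝ :=
  ∑ n ∈ (range (m + 2)).filter (fun n => n0 ≤ n), bal m n * O n

/-- growth of `tau` -/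
theorem tau_mono (hB : StmBAL) {O : ℕ → ℝ} {n0 : ℕ} (h0 : ∀ n, n0 ≤ n → 1 ≤ O n) :
    Monotone fun m : ℕ => ((m : ℝ) + 1) ^ 2 * tau O n0 m := by
  obtain ⟨h1, h2, -, -, -, -⟩ := hB
  refine monotone_nat_of_le_succ fun m => ?_
  show ((m : ℝ) + 1) ^ 2 * tau O n0 m ≤ (((m + 1 : ℕ) : ℝ) + 1) ^ 2 * tau O n0 (m + 1)
  unfold tau
  rw [mul_sum, mul_sum]
  calc ∑ n ∈ (range (m + 2)).filter (fun n => n0 ≤ n), ((m : ℝ) + 1) ^ 2 * (bal m n * O n)
      ≤ ∑ n ∈ (range (m + 2)).filter (fun n => n0 ≤ n),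
          (((m + 1 : ℕ) : ℝ) + 1) ^ 2 * (bal (m + 1) n * O n) := by
        apply sum_le_sum
        intro n hn
        rw [mem_filter] at hn
        have h3 := h2 m n
        have h4 := h0 n hn.2
        have hm2 : (0 : ℝ) < (m : ℝ) + 2 := by positivity
        rw [div_pow, div_mul_eq_mul_div, div_le_iff₀ (by positivity)] at h3
        push_cast
        have h5 : ((m : ℝ) + 1) ^ 2 * bal m n * O n ≤ bal (m + 1) n * ((m : ℝ) + 2) ^ 2 * O n :=
          mul_le_mul_of_nonneg_right h3 (by linarith)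
        calc ((m : ℝ) + 1) ^ 2 * (bal m n * O n) = ((m : ℝ) + 1) ^ 2 * bal m n * O n := by ring
          _ ≤ bal (m + 1) n * ((m : ℝ) + 2) ^ 2 * O n := h5
          _ = ((m : ℝ) + 1 + 1) ^ 2 * (bal (m + 1) n * O n) := by ring
    _ ≤ ∑ n ∈ (range (m + 1 + 2)).filter (fun n => n0 ≤ n),
          (((m + 1 : ℕ) : ℝ) + 1) ^ 2 * (bal (m + 1) n * O n) := by
        apply sum_le_sum_of_subset_of_nonneg
        · intro n hn
          rw [mem_filter, mem_range] at hn ⊢
          exact ⟨by omega, hn.2⟩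
        · intro n hn _
          rw [mem_filter] at hn
          have h4 := h0 n hn.2
          exact mul_nonneg (sq_nonneg _) (mul_nonneg (h1 _ _) (by linarith))

end ModPOS

open ModPOS in
/-- POS -/
theorem mPOS (hBAL : StmBAL) : StmPOS := by
  intro O hO
  obtain ⟨n0, h0⟩ := eventually_atTop.1 (hO.eventually_ge_atTop 1)
  set C1 : ℝ := ∑ n ∈ range n0, |O n| with hC1
  have hC1' : 0 ≤ C1 := sum_nonneg fun _ _ => abs_nonneg _
  obtain ⟨n2, h2⟩ := eventually_atTop.1 (hO.eventually_ge_atTop (2 * C1 + 1))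
  set n1 : ℕ := max (max n0 n2) 1 with hn1
  have hn01 : n0 ≤ n1 := (le_max_left _ _).trans (le_max_left _ _)
  have hn21 : n2 ≤ n1 := (le_max_right _ _).trans (le_max_left _ _)
  have hn11 : 1 ≤ n1 := le_max_right _ _
  have hO1 : 2 * C1 + 1 ≤ O n1 := h2 n1 hn21
  have hnn := hBAL.1
  -- the basic comparison
  have key : ∀ m : ℕ, 2 * n1 ^ 2 + 2 * n1 ≤ m →
      0 < tau O n0 m ∧ tau O n0 m ≤ 2 * ∑ n ∈ range (m + 2), bal m n * O n ∧
      2 * ∑ n ∈ range (m + 2), bal m n * O n ≤ 3 * tau O n0 m := by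
    intro m hm
    have hsq : n1 ≤ n1 ^ 2 := by nlinarith
    have hpos : 0 < bal m n1 := hBAL.2.2.2.1 m n1 hn11 (by omega)
    have hsplit : ∑ n ∈ range (m + 2), bal m n * O n = tau O n0 m +
        ∑ n ∈ (range (m + 2)).filter (fun n => ¬ n0 ≤ n), bal m n * O n := by
      unfold tau
      exact (sum_filter_add_sum_filter_not _ _ _).symm
    have hlow : |∑ n ∈ (range (m + 2)).filter (fun n => ¬ n0 ≤ n), bal m n * O n| ≤
        bal m n1 * C1 := by
      calc |∑ n ∈ (range (m + 2)).filter (fun n => ¬ n0 ≤ n), bal m n * O n|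
          ≤ ∑ n ∈ (range (m + 2)).filter (fun n => ¬ n0 ≤ n), |bal m n * O n| :=
            abs_sum_le_sum_abs _ _
        _ ≤ ∑ n ∈ (range (m + 2)).filter (fun n => ¬ n0 ≤ n), bal m n1 * |O n| := by
            apply sum_le_sum
            intro n hn
            rw [mem_filter] at hn
            rw [abs_mul, abs_of_nonneg (hnn m n)]
            exact mul_le_mul_of_nonneg_right (bal_mono hBAL (by omega) (by omega))
              (abs_nonneg _)
        _ = bal m n1 * ∑ n ∈ (range (m + 2)).filter (fun n => ¬ n0 ≤ n), |O n| := by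
            rw [mul_sum]
        _ ≤ bal m n1 * C1 := by
            apply mul_le_mul_of_nonneg_left _ hpos.le
            apply sum_le_sum_of_subset_of_nonneg
            · intro n hn
              rw [mem_filter] at hn
              rw [mem_range]
              omega
            · intro n _ _
              exact abs_nonneg _
    have htau : bal m n1 * O n1 ≤ tau O n0 m := by
      unfold tau
      refine single_le_sum (f := fun n => bal m n * O n) ?_ ?_
      · intro n hn
        rw [mem_filter] at hn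
        have h4 := h0 n hn.2
        exact mul_nonneg (hnn _ _) (by linarith)
      · rw [mem_filter, mem_range]
        exact ⟨by omega, hn01⟩
    have h5 : bal m n1 * (2 * C1 + 1) ≤ tau O n0 m :=
      (mul_le_mul_of_nonneg_left hO1 hpos.le).trans htau
    have h6 : 2 * (bal m n1 * C1) + bal m n1 ≤ tau O n0 m := by linarith
    have h7 : 0 ≤ bal m n1 * C1 := mul_nonneg hpos.le hC1'
    have h8 := abs_le.1 hlow
    rw [hsplit]
    refine ⟨by linarith, by linarith [h8.1], by linarith [h8.2]⟩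
  refine ⟨2 * n1 ^ 2 + 2 * n1, fun m hm => ?_⟩
  obtain ⟨k1, k2, k3⟩ := key m hm
  refine ⟨by linarith, fun m' hmm' => ?_⟩
  obtain ⟨l1, l2, l3⟩ := key m' (hm.trans hmm')
  have hmono : ((m : ℝ) + 1) ^ 2 * tau O n0 m ≤ ((m' : ℝ) + 1) ^ 2 * tau O n0 m' :=
    tau_mono hBAL h0 hmm'
  have hm1 : (0 : ℝ) < ((m : ℝ) + 1) ^ 2 := by positivity
  have h9 : tau O n0 m ≤ (((m' : ℝ) + 1) / (m + 1)) ^ 2 * tau O n0 m' := by
    rw [div_pow, div_mul_eq_mul_div, le_div_iff₀ hm1]
    linarith
  have h10 : (((m' : ℝ) + 1) / (m + 1)) ^ 2 * tau O n0 m' ≤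
      (((m' : ℝ) + 1) / (m + 1)) ^ 2 * (2 * ∑ n ∈ range (m' + 2), bal m' n * O n) :=
    mul_le_mul_of_nonneg_left l2 (sq_nonneg _)
  linarith

end Pool.Agent.T6.H46.CZ
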