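import Pool.Agent.T6.H46.CZ.Stm2

/-! Project CZ (MP_3d11e1_an), second part, module RC2: the recursion over the scales. -/

set_option autoImplicit false

namespace Pool.Agent.T6.H46.CZ
namespace RC2

open Finset Filter

lemma gg_nonneg {s : ℝ} (hs : 0 ≤ s) : 0 ≤ gg s := by
  unfold gg
  split_ifs with h1 h2
  · linarith
  · have : 0 < s := by linarith
    positivity
  · exact le_rfl

lemma gg_le {s : ℝ} (hs : 0 ≤ s) : gg s ≤ 2 := by
  unfold gg
  split_ifs with h1 h2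
  · linarith
  · have : 0 < s := by linarith
    rw [div_le_iff₀ (by positivity)]
    nlinarith
  · norm_num

lemma gg_abs {s : ℝ} (hs : 0 ≤ s) : |gg s| ≤ 2 :=
  abs_le.2 ⟨by linarith [gg_nonneg hs], gg_le hs⟩

lemma gg_lin {s : ℝ} (h : s ≤ 1) : gg s = 2 - 3 / 2 * s := if_pos h

lemma gg_zero {s : ℝ} (h : 2 ≤ s) : gg s = 0 := by
  unfold gg
  rw [if_neg (by linarith)]
  split_ifs with h2
  · have : s = 2 := le_antisymm h2 h
    rw [this]
    norm_num
  · rfl

variable {d : ℕ}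

/-- the tail of the coefficients -/
noncomputable def ep (b : (Fin d → ℤ) → ℂ) (R : ℝ) : ℝ :=
  ∑' Q : Fin d → ℤ, if ‖Q‖ ≤ R then (0 : ℝ) else ‖b Q‖

lemma ep_summable {b : (Fin d → ℤ) → ℂ} (hb : Summable fun Q => ‖b Q‖) (R : ℝ) :
    Summable fun Q : Fin d → ℤ => if ‖Q‖ ≤ R then (0 : ℝ) else ‖b Q‖ :=
  Summable.of_nonneg_of_le (fun Q => by split_ifs <;> positivity)
    (fun Q => by
      split_ifs
      · exact norm_nonneg _
      · exact le_rfl) hb

lemma ep_nonneg (b : (Fin d → ℤ) → ℂ) (R : ℝ) : 0 ≤ ep b R :=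
  tsum_nonneg (fun Q => by split_ifs <;> positivity)

lemma tail {b : (Fin d → ℤ) → ℂ} (hb : Summable fun Q => ‖b Q‖) (h0 : b 0 = 0) (R K : ℝ)
    (h : (Fin d → ℤ) → ℝ) (hk : ∀ Q, |h Q| ≤ K) (hz : ∀ Q, Q ≠ 0 → ‖Q‖ ≤ R → h Q = 0) (x : ℝ)
    (hx : (x : ℂ) = ∑' Q, b Q * ((h Q : ℝ) : ℂ)) : |x| ≤ K * ep b R := by
  have h1 : ‖(x : ℂ)‖ ≤ ∑' Q : Fin d → ℤ, K * (if ‖Q‖ ≤ R then (0 : ℝ) else ‖b Q‖) := by
    rw [hx]
    refine tsum_of_norm_bounded ((ep_summable hb R).mul_left K).hasSum fun Q => ?_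
    split_ifs with hq
    · by_cases hQ : Q = 0
      · rw [hQ, h0]; simp
      · rw [hz Q hQ hq]; simp
    · rw [norm_mul, Complex.norm_real, Real.norm_eq_abs, mul_comm]
      exact mul_le_mul_of_nonneg_right (hk Q) (norm_nonneg _)
  rw [Complex.norm_real, Real.norm_eq_abs, tsum_mul_left] at h1
  exact h1

lemma sm {b : (Fin d → ℤ) → ℂ} (hb : Summable fun Q => ‖b Q‖) (x : (Fin d → ℤ) → ℝ)
    (hx0 : ∀ Q, 0 ≤ x Q) (N : ℕ) : Summable fun Q => b Q * ((gg (N * x Q) : ℝ) : ℂ) := by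
  refine Summable.of_norm_bounded (g := fun Q => ‖b Q‖ * 2) (hb.mul_right 2) fun Q => ?_
  rw [norm_mul, Complex.norm_real, Real.norm_eq_abs]
  exact mul_le_mul_of_nonneg_left (gg_abs (mul_nonneg (Nat.cast_nonneg _) (hx0 Q))) (norm_nonneg _)

lemma gap {b : (Fin d → ℤ) → ℂ} (hb : Summable fun Q => ‖b Q‖) (h0 : b 0 = 0)
    (x : (Fin d → ℤ) → ℝ) (hx0 : ∀ Q, 0 ≤ x Q) (R : ℝ) {B1 B2 B3 : ℝ} {N N1 : ℕ} (hN : 0 < N)
    (hNN : N ≤ N1) (e1 : (B1 : ℂ) = ∑' Q, b Q * ((gg (N * x Q) : ℝ) : ℂ))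
    (e2 : (B2 : ℂ) = ∑' Q, b Q * ((gg (N1 * x Q) : ℝ) : ℂ))
    (e3 : (B3 : ℂ) = ∑' Q, b Q * ((gg (((2 * N1 : ℕ) : ℝ) * x Q) : ℝ) : ℂ))
    (hB2 : 0 < B2) (hB3 : 0 < B3)
    (hg : ∀ Q, Q ≠ 0 → ‖Q‖ ≤ R → 2 ≤ N * x Q ∨ 2 * N1 * x Q ≤ 1) :
    B1 ≤ 2 * B2 + 8 * ep b R := by
  have hN1 : (0 : ℝ) < N1 := by exact_mod_cast lt_of_lt_of_le hN hNN
  have hNr : (0 : ℝ) < N := by exact_mod_cast hN
  have hNNr : (N : ℝ) ≤ N1 := by exact_mod_cast hNN
  obtain ⟨lam, hlam⟩ : ∃ lam : ℝ, lam = (2 * N1 - N) / N1 := ⟨_, rfl⟩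
  obtain ⟨nu, hnu⟩ : ∃ nu : ℝ, nu = (N1 - N) / N1 := ⟨_, rfl⟩
  have hl0 : 0 ≤ lam := by rw [hlam]; apply div_nonneg <;> linarith
  have hl2 : lam ≤ 2 := by rw [hlam, div_le_iff₀ hN1]; linarith
  have hn0 : 0 ≤ nu := by rw [hnu]; apply div_nonneg <;> linarith
  have hn1 : nu ≤ 1 := by rw [hnu, div_le_iff₀ hN1]; linarith
  have hln : lam - nu = 1 := by rw [hlam, hnu]; field_simp; ring
  have hln2 : (lam - 2 * nu) * N1 = N := by rw [hlam, hnu]; field_simp; ring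
  have key := tail hb h0 R 8
    (fun Q => gg (N * x Q) - lam * gg (N1 * x Q) + nu * gg (((2 * N1 : ℕ) : ℝ) * x Q))
    (fun Q => by
      have a1 := gg_nonneg (mul_nonneg (Nat.cast_nonneg N) (hx0 Q))
      have a2 := gg_le (mul_nonneg (Nat.cast_nonneg N) (hx0 Q))
      have b1 := gg_nonneg (mul_nonneg (Nat.cast_nonneg N1) (hx0 Q))
      have b2 := gg_le (mul_nonneg (Nat.cast_nonneg N1) (hx0 Q))
      have c1 := gg_nonneg (mul_nonneg (Nat.cast_nonneg (2 * N1)) (hx0 Q))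
      have c2 := gg_le (mul_nonneg (Nat.cast_nonneg (2 * N1)) (hx0 Q))
      have p1 : 0 ≤ lam * gg (N1 * x Q) := mul_nonneg hl0 b1
      have p2 : lam * gg (N1 * x Q) ≤ 2 * 2 := mul_le_mul hl2 b2 b1 (by norm_num)
      have p3 : 0 ≤ nu * gg (((2 * N1 : ℕ) : ℝ) * x Q) := mul_nonneg hn0 c1
      have p4 : nu * gg (((2 * N1 : ℕ) : ℝ) * x Q) ≤ 1 * 2 := mul_le_mul hn1 c2 c1 (by norm_num)
      rw [abs_le]
      constructor <;> linarith)
    (fun Q hQ hR => by
      rcases hg Q hQ hR with h | h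
      · have h1 : (N : ℝ) * x Q ≤ N1 * x Q := mul_le_mul_of_nonneg_right hNNr (hx0 Q)
        have h2 : (N1 : ℝ) * x Q ≤ ((2 * N1 : ℕ) : ℝ) * x Q := by
          apply mul_le_mul_of_nonneg_right _ (hx0 Q)
          push_cast
          linarith
        rw [gg_zero h, gg_zero (h.trans h1), gg_zero ((h.trans h1).trans h2)]
        ring
      · have h3 : ((2 * N1 : ℕ) : ℝ) * x Q ≤ 1 := by push_cast; linarith
        have h4 : (N1 : ℝ) * x Q ≤ 1 := by
          have : 0 ≤ (N1 : ℝ) * x Q := mul_nonneg hN1.le (hx0 Q)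
          nlinarith
        have h5 : (N : ℝ) * x Q ≤ 1 :=
          (mul_le_mul_of_nonneg_right hNNr (hx0 Q)).trans h4
        rw [gg_lin h3, gg_lin h4, gg_lin h5]
        push_cast
        have : (N : ℝ) * x Q = (lam - 2 * nu) * N1 * x Q := by rw [hln2]
        rw [this]
        linear_combination (-2 : ℝ) * hln)
    (B1 - lam * B2 + nu * B3) (by
      have s1 := sm hb x hx0 N
      have s2 := sm hb x hx0 N1
      have s3 := sm hb x hx0 (2 * N1)
      have t2 := s2.mul_left (lam : ℂ)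
      have t3 := s3.mul_left (nu : ℂ)
      have e : ((B1 - lam * B2 + nu * B3 : ℝ) : ℂ) = (B1 : ℂ) - (lam : ℂ) * (B2 : ℂ) + (nu : ℂ) * (B3 : ℂ) := by
        push_cast; ring
      rw [e, e1, e2, e3, ← tsum_mul_left, ← tsum_mul_left, ← s1.tsum_sub t2,
        ← (s1.sub t2).tsum_add t3]
      refine tsum_congr fun Q => ?_
      push_cast
      ring)
  have h1 := (abs_le.1 key).2
  have h2 : lam * B2 ≤ 2 * B2 := mul_le_mul_of_nonneg_right hl2 hB2.le
  have h3 : 0 ≤ nu * B3 := mul_nonneg hn0 hB3.le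
  linarith

/-- a chain of `k` linear forms -/
def Chain (x : (Fin d → ℤ) → ℝ) (R : ℝ) (N k : ℕ) : Prop :=
  ∃ q : ℕ → (Fin d → ℤ), (∀ i, i < k → q i ≠ 0 ∧ ‖q i‖ ≤ R) ∧
    (∀ i, i + 1 < k → 4 * x (q (i + 1)) < x (q i)) ∧ N * x (q 0) < 2

lemma fin_ball (R : ℝ) : {Q : Fin d → ℤ | ‖Q‖ ≤ R}.Finite := by
  have h : {Q : Fin d → ℤ | ‖Q‖ ≤ R} = Metric.closedBall 0 R := by
    ext Q; simp
  rw [h]
  exact (isCompact_closedBall (0 : Fin d → ℤ) R).finite_of_discrete

lemma claim {b : (Fin d → ℤ) → ℂ} (hb : Summable fun Q => ‖b Q‖) (h0 : b 0 = 0)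
    (x : (Fin d → ℤ) → ℝ) (hx0 : ∀ Q, 0 ≤ x Q) (hxp : ∀ Q, Q ≠ 0 → 0 < x Q) (R : ℝ)
    {B : ℕ → ℝ} {N0 : ℕ} (hN0 : 4 ≤ N0)
    (hB : ∀ N : ℕ, N0 ≤ N → (B N : ℂ) = ∑' Q, b Q * ((gg (N * x Q) : ℝ) : ℂ))
    (hpos : ∀ N : ℕ, N0 ≤ N → 0 < B N ∧ B N ≤ 16 * B (2 * N)) (k : ℕ) :
    ∀ N : ℕ, N0 ≤ N → ¬ Chain x R N (k + 1) → B N ≤ 2 ^ (22 * k) * (16 * ep b R) := by
  have he := ep_nonneg b R
  have hit : ∀ N : ℕ, N0 ≤ N → B N ≤ 2 ^ 20 * B (32 * N) := by
    intro N hN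
    have a1 := (hpos N hN).2
    have a2 := (hpos (2 * N) (by omega)).2
    have a3 := (hpos (2 * (2 * N)) (by omega)).2
    have a4 := (hpos (2 * (2 * (2 * N))) (by omega)).2
    have a5 := (hpos (2 * (2 * (2 * (2 * N)))) (by omega)).2
    have e : 2 * (2 * (2 * (2 * (2 * N)))) = 32 * N := by ring
    rw [e] at a5
    linarith
  have hnone : ∀ N : ℕ, N0 ≤ N → (∀ Q : Fin d → ℤ, Q ≠ 0 → ‖Q‖ ≤ R → 2 ≤ N * x Q) →
      B N ≤ 2 * ep b R := by
    intro N hN h
    have := tail hb h0 R 2 (fun Q => gg (N * x Q))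
      (fun Q => gg_abs (mul_nonneg (Nat.cast_nonneg _) (hx0 Q)))
      (fun Q hQ hR => gg_zero (h Q hQ hR)) (B N) (hB N hN)
    exact (abs_le.1 this).2
  induction k with
  | zero =>
    intro N hN hc
    have h := hnone N hN (fun Q hQ hR => by
      by_contra hlt
      push Not at hlt
      exact hc ⟨fun _ => Q, fun i _ => ⟨hQ, hR⟩, fun i hi => by omega, hlt⟩)
    simp only [mul_zero, pow_zero, one_mul]
    linarith
  | succ k ih =>
    intro N hN hc
    have hpw : (1 : ℝ) ≤ 2 ^ (22 * k) := one_le_pow₀ (by norm_num)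
    have hpe : (2 : ℝ) ^ (22 * (k + 1)) = 2 ^ (22 * k) * 4194304 := by
      rw [show 22 * (k + 1) = 22 * k + 22 by ring, pow_add]; norm_num
    by_cases hex : ∃ Q : Fin d → ℤ, Q ≠ 0 ∧ ‖Q‖ ≤ R ∧ N * x Q < 2
    · -- the maximal one
      have hfin : {Q : Fin d → ℤ | Q ≠ 0 ∧ ‖Q‖ ≤ R ∧ N * x Q < 2}.Finite :=
        (fin_ball R).subset (fun Q hQ => hQ.2.1)
      obtain ⟨q, ⟨hq0, hqR, hq2⟩, hmax⟩ := Set.exists_max_image _ x hfin hex
      have hxq := hxp q hq0
      have hNr : (4 : ℝ) ≤ N := by exact_mod_cast hN0.trans hN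
      -- it is enough to find `N'`
      have hfin2 : ∀ N' : ℕ, N0 ≤ N' → 8 ≤ N' * x q → B N' ≤ 2 ^ (22 * k) * (16 * ep b R) := by
        intro N' hN' h8
        apply ih N' hN'
        rintro ⟨c, hc1, hc2, hc3⟩
        apply hc
        refine ⟨fun i => if i = 0 then q else c (i - 1), fun i hi => ?_, fun i hi => ?_, ?_⟩
        · by_cases h : i = 0
          · simp only [h, if_true]; exact ⟨hq0, hqR⟩
          · simp only [h, if_false]; exact hc1 (i - 1) (by omega)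
        · by_cases h : i = 0
          · simp only [h, if_true, zero_add, one_ne_zero, if_false, Nat.sub_self]
            have hN'0 : (0 : ℝ) < N' := by
              have : 0 < N' := by omega
              exact_mod_cast this
            by_contra hcon
            push Not at hcon
            have : (N' : ℝ) * x q ≤ N' * (4 * x (c 0)) := mul_le_mul_of_nonneg_left hcon hN'0.le
            linarith
          · have h2 : i + 1 ≠ 0 := by omega
            simp only [h, h2, if_false]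
            have := hc2 (i - 1) (by omega)
            have e : i - 1 + 1 = i := by omega
            rw [e] at this
            rw [Nat.add_sub_cancel]
            exact this
        · simp only [if_true]
          exact hq2
      by_cases h4 : 1 < 4 * (N * x q)
      · have h := hfin2 (32 * N) (by omega) (by push_cast; linarith)
        have h5 := hit N hN
        rw [hpe]
        have h6 : 0 ≤ 2 ^ (22 * k) * (16 * ep b R) := by positivity
        linarith
      · push Not at h4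
        obtain ⟨N1, hN1⟩ : ∃ N1 : ℕ, N1 = ⌊1 / (2 * x q)⌋₊ := ⟨_, rfl⟩
        have h2x : 0 < 2 * x q := by linarith
        have f1 : (N1 : ℝ) * (2 * x q) ≤ 1 := by
          rw [← le_div_iff₀ h2x, hN1]
          exact Nat.floor_le (by positivity)
        have f2 : 1 < ((N1 : ℝ) + 1) * (2 * x q) := by
          rw [← div_lt_iff₀ h2x, hN1]
          exact Nat.lt_floor_add_one _
        have f3 : 2 * N ≤ N1 := by
          rw [hN1]
          apply Nat.le_floor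
          rw [le_div_iff₀ h2x]
          push_cast
          linarith
        have f4 : x q ≤ 1 / 16 := by
          have : 4 * (4 * x q) ≤ 4 * (N * x q) := by
            have := mul_le_mul_of_nonneg_right hNr hxq.le
            linarith
          linarith
        have g := gap hb h0 x hx0 R (by omega : 0 < N) (by omega : N ≤ N1) (hB N hN)
          (hB N1 (by omega)) (hB (2 * N1) (by omega)) (hpos N1 (by omega)).1
          (hpos (2 * N1) (by omega)).1 (fun Q hQ hR => by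
            by_cases h : 2 ≤ N * x Q
            · exact Or.inl h
            · right
              push Not at h
              have h7 := hmax Q ⟨hQ, hR, h⟩
              have h8 : (N1 : ℝ) * x Q ≤ N1 * x q := mul_le_mul_of_nonneg_left h7 (Nat.cast_nonneg _)
              linarith)
        have h := hfin2 (32 * N1) (by omega) (by push_cast; linarith)
        have h5 := hit N1 (by omega)
        rw [hpe]
        have h6 : ep b R ≤ 2 ^ (22 * k) * ep b R := le_mul_of_one_le_left he hpw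
        linarith
    · push Not at hex
      have h := hnone N hN (fun Q hQ hR => hex Q hQ hR)
      rw [hpe]
      have h6 : ep b R ≤ 2 ^ (22 * k) * ep b R := le_mul_of_one_le_left he hpw
      linarith

lemma ep_le {b : (Fin d → ℤ) → ℂ} (s : ℕ) (hs : Summable fun Q => ‖b Q‖ * ‖Q‖ ^ s)
    (hb : Summable fun Q => ‖b Q‖) {R : ℝ} (hR : 0 < R) :
    ep b R * R ^ s ≤ ∑' Q, ‖b Q‖ * ‖Q‖ ^ s := by
  unfold ep
  rw [← tsum_mul_right]
  refine ((ep_summable hb R).mul_right _).tsum_le_tsum (fun Q => ?_) hs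
  split_ifs with h
  · rw [zero_mul]; positivity
  · push Not at h
    exact mul_le_mul_of_nonneg_left (pow_le_pow_left₀ hR.le h.le s) (norm_nonneg _)

end RC2

open RC2 in
theorem mRC2 (hCT2 : StmCT2) : StmRC2 := by
  intro d α b hI hb0 hbs B N0 hN0 hB hpos
  obtain ⟨C, hC, hch⟩ := hCT2 d
  have hb : Summable fun Q => ‖b Q‖ := by simpa using hbs 0
  have hx0 : ∀ Q, 0 ≤ nd (tf α Q) := fun Q => abs_nonneg _
  have hxp : ∀ Q, Q ≠ 0 → 0 < nd (tf α Q) := by
    intro Q hQ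
    unfold nd
    rw [abs_pos, sub_ne_zero]
    exact hI Q hQ _
  obtain ⟨C', hC'⟩ : ∃ C' : ℝ, C' = max C 1 := ⟨_, rfl⟩
  have hC1 : 1 ≤ C' := by rw [hC']; exact le_max_right _ _
  have hCC : C ≤ C' := by rw [hC']; exact le_max_left _ _
  obtain ⟨T, hT⟩ : ∃ T : ℝ, T = ∑' Q, ‖b Q‖ * ‖Q‖ ^ (44 * d + 1) := ⟨_, rfl⟩
  have hT0 : 0 ≤ T := by rw [hT]; exact tsum_nonneg fun Q => by positivity
  have hBp := (hpos N0 le_rfl).1
  -- the bound for every `R`
  have main : ∀ R : ℝ, 1 ≤ R → B N0 * R ≤ 16 * C' ^ 22 * T := by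
    intro R hR
    have hR0 : 0 < R := by linarith
    obtain ⟨y, hy⟩ : ∃ y : ℝ, y = C' * R ^ (2 * d) := ⟨_, rfl⟩
    have hy1 : 1 ≤ y := by
      rw [hy]
      exact one_le_mul_of_one_le_of_one_le hC1 (one_le_pow₀ hR)
    obtain ⟨k, hk1, hk2⟩ := exists_nat_pow_near hy1 (one_lt_two)
    have hno : ¬ Chain (fun Q => nd (tf α Q)) R N0 (k + 1) := by
      rintro ⟨q, h1, h2, -⟩
      have h3 := hch α hI R hR (k + 1) q h1 h2
      have h4 : C * R ^ (2 * d) ≤ y := by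
        rw [hy]
        exact mul_le_mul_of_nonneg_right hCC (by positivity)
      linarith
    have h5 := claim hb hb0 (fun Q => nd (tf α Q)) hx0 hxp R hN0 hB hpos k N0 le_rfl hno
    have h6 : (2 : ℝ) ^ (22 * k) ≤ y ^ 22 := by
      rw [mul_comm, pow_mul]
      exact pow_le_pow_left₀ (by positivity) hk1 22
    have h7 := ep_le (44 * d + 1) (hbs (44 * d + 1)) hb hR0
    rw [← hT] at h7
    have he := ep_nonneg b R
    have h8 : B N0 ≤ y ^ 22 * (16 * ep b R) :=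
      h5.trans (mul_le_mul_of_nonneg_right h6 (by positivity))
    have h9 : y ^ 22 = C' ^ 22 * R ^ (44 * d) := by
      rw [hy, mul_pow, ← pow_mul]
      congr 2
      ring
    calc B N0 * R ≤ y ^ 22 * (16 * ep b R) * R := mul_le_mul_of_nonneg_right h8 hR0.le
      _ = 16 * C' ^ 22 * (ep b R * R ^ (44 * d + 1)) := by rw [h9, pow_succ]; ring
      _ ≤ 16 * C' ^ 22 * T := mul_le_mul_of_nonneg_left h7 (by positivity)
  have h1 := main (16 * C' ^ 22 * T / B N0 + 1) (by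
    have : 0 ≤ 16 * C' ^ 22 * T / B N0 := by positivity
    linarith)
  rw [mul_add, mul_div_cancel₀ _ hBp.ne', mul_one] at h1
  linarith

end Pool.Agent.T6.H46.CZ
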