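import Pool.Agent.T6.H46.CZ.Stm

/-! Project CZ, module REC (helper4). -/

set_option autoImplicit false

namespace Pool.Agent.T6.H46.CZ

open Finset Filter

namespace REC

theorem sum_int {c : ℝ} (hc : 0 < c) : Summable fun n : ℤ => Real.exp (-(c * |(n : ℝ)|)) := by
  have hg : Summable fun n : ℕ => Real.exp (-c) ^ n :=
    summable_geometric_of_lt_one (Real.exp_pos _).le (by
      rw [Real.exp_lt_one_iff]; linarith)
  have h1 : ∀ n : ℕ, Real.exp (-c) ^ n = Real.exp (-(c * (n : ℝ))) := by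
    intro n
    rw [← Real.exp_nat_mul]
    congr 1
    ring
  apply Summable.of_nat_of_neg
  · refine hg.congr ?_
    intro n
    rw [h1]
    simp
  · refine hg.congr ?_
    intro n
    rw [h1]
    simp

theorem sum_pi {c : ℝ} (hc : 0 < c) : ∀ d : ℕ,
    Summable fun Q : Fin d → ℤ => Real.exp (-(c * ∑ i, |(Q i : ℝ)|)) := by
  intro d
  induction d with
  | zero => exact (hasSum_fintype _).summable
  | succ d ih =>
    have h := Summable.mul_of_nonneg (sum_int hc) ih (fun n => (Real.exp_pos _).le)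
      (fun Q => (Real.exp_pos _).le)
    have e := (Fin.consEquiv (fun _ : Fin (d + 1) => ℤ)).symm.summable_iff.2 h
    refine e.congr ?_
    intro Q
    simp only [Function.comp]
    rw [← Real.exp_add]
    congr 1
    rw [Fin.sum_univ_succ]
    simp [Fin.consEquiv, Fin.tail]
    ring

theorem sum_exp {c : ℝ} (hc : 0 < c) (d : ℕ) :
    Summable fun Q : Fin d → ℤ => Real.exp (-(c * ‖Q‖)) := by
  have hd : (0 : ℝ) < d + 1 := by positivity
  refine Summable.of_nonneg_of_le (fun Q => (Real.exp_pos _).le) ?_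
    (sum_pi (c := c / (d + 1)) (by positivity) d)
  intro Q
  apply Real.exp_le_exp.2
  have h1 : ∑ i, |(Q i : ℝ)| ≤ (d + 1) * ‖Q‖ := by
    have h2 : ∀ i ∈ (univ : Finset (Fin d)), |(Q i : ℝ)| ≤ ‖Q‖ := by
      intro i _
      have := norm_le_pi_norm Q i
      rwa [Int.norm_eq_abs] at this
    have h3 := Finset.sum_le_card_nsmul _ _ _ h2
    rw [Finset.card_univ, Fintype.card_fin, nsmul_eq_mul] at h3
    have := norm_nonneg Q
    linarith
  have h4 : c / (d + 1) * ∑ i, |(Q i : ℝ)| ≤ c / (d + 1) * ((d + 1) * ‖Q‖) :=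
    mul_le_mul_of_nonneg_left h1 (by positivity)
  have h5 : c / (d + 1) * ((d + 1) * ‖Q‖) = c * ‖Q‖ := by field_simp
  linarith

end REC

open REC in
theorem mREC (hTRU : StmTRU) (hCNT : StmCNT) (hSTP : StmSTP) : StmREC := by
  intro d α b C c hα hb0 hc hb σ hσ M0 hpos
  have hd : (0 : ℝ) < (d : ℝ) + 1 := by positivity
  -- summability
  have hS1 : Summable fun Q : Fin d → ℤ => Real.exp (-(c * ‖Q‖)) := sum_exp hc d
  have hS2 : Summable fun Q : Fin d → ℤ => Real.exp (-(c / 2 * ‖Q‖)) := sum_exp (by positivity) d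
  have hbs : Summable fun Q => ‖b Q‖ :=
    Summable.of_nonneg_of_le (fun Q => norm_nonneg _) hb (hS1.mul_left C)
  set p : ℕ := 104 * (d + 1) with hp
  have hp1 : 1 ≤ p := by omega
  have hp13 : 13 ≤ p := by omega
  obtain ⟨Cp, hCp, hT⟩ := hTRU p hp1
  have hmu : ∀ Q : Fin d → ℤ, 0 ≤ mu α Q ∧ mu α Q ≤ 1 := by
    intro Q
    exact ⟨sq_nonneg _, Real.sin_sq_le_one _⟩
  have hSb : 0 ≤ ∑' Q, ‖b Q‖ := tsum_nonneg fun _ => norm_nonneg _
  obtain ⟨s1, hs1, hs1', hST⟩ := hSTP p hp13 Cp (∑' Q, ‖b Q‖ + 1) hCp (by linarith)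
  obtain ⟨CN, hCN, hCNT'⟩ := hCNT d
  set s0 : ℝ := min s1 (σ M0) with hs0
  have hσ0 : 0 < σ M0 := (hpos M0 le_rfl).1
  have hs0p : 0 < s0 := lt_min hs1 hσ0
  have hs01 : s0 ≤ s1 := min_le_left _ _
  have hs0σ : s0 ≤ σ M0 := min_le_right _ _
  set S2 : ℝ := ∑' Q : Fin d → ℤ, Real.exp (-(c / 2 * ‖Q‖)) with hS2def
  have hS2nn : 0 ≤ S2 := tsum_nonneg fun _ => (Real.exp_pos _).le
  set K : ℝ := |C| * S2 + 1 with hK
  have hKpos : 0 < K := by
    have := mul_nonneg (abs_nonneg C) hS2nn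
    linarith
  -- the main inequality for every R
  have key : ∀ R : ℝ, 1 ≤ R → ∃ Θ : Finset ℝ, (2 : ℝ) ^ Θ.card ≤ CN * R ^ (2 * d) ∧
      (s0 ^ ((1 + 13 / (p : ℝ)) ^ Θ.card)) ^ 2 < K * Real.exp (-(c / 2 * R)) := by
    intro R hR
    obtain ⟨Θ, hΘ1, hΘ2, hΘ3⟩ := hCNT' α hα R hR
    refine ⟨Θ, hΘ2, ?_⟩
    set F : Set (Fin d → ℤ) := {Q | Q ≠ 0 ∧ ‖Q‖ ≤ R} with hF
    set ε : ℝ := ∑' i : ↥Fᶜ, ‖b i‖ with hε
    obtain ⟨hT1, hT2⟩ := hT (Fin d → ℤ) b (mu α) hbs hmu σ hσ F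
    have h := hST M0 σ Θ ε hΘ1 hpos ?_ ?_ M0 le_rfl s0 hs0p hs01 hs0σ
    · refine lt_of_lt_of_le h ?_
      -- the tail
      have hG : Summable fun Q : Fin d → ℤ =>
          |C| * Real.exp (-(c / 2 * R)) * Real.exp (-(c / 2 * ‖Q‖)) := hS2.mul_left _
      have hle : ∀ i : ↥Fᶜ, ‖b i‖ ≤
          |C| * Real.exp (-(c / 2 * R)) * Real.exp (-(c / 2 * ‖(i : Fin d → ℤ)‖)) := by
        rintro ⟨Q, hQ⟩
        show ‖b Q‖ ≤ |C| * Real.exp (-(c / 2 * R)) * Real.exp (-(c / 2 * ‖Q‖))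
        by_cases hQ0 : Q = 0
        · rw [hQ0, hb0, norm_zero]
          positivity
        · have hQR : R < ‖Q‖ := by
            by_contra hcon
            exact hQ ⟨hQ0, not_lt.1 hcon⟩
          have h1 : ‖b Q‖ ≤ |C| * Real.exp (-(c * ‖Q‖)) :=
            (hb Q).trans (mul_le_mul_of_nonneg_right (le_abs_self C) (Real.exp_pos _).le)
          have h2 : Real.exp (-(c * ‖Q‖)) ≤
              Real.exp (-(c / 2 * R)) * Real.exp (-(c / 2 * ‖Q‖)) := by
            rw [← Real.exp_add]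
            apply Real.exp_le_exp.2
            nlinarith
          calc ‖b Q‖ ≤ |C| * Real.exp (-(c * ‖Q‖)) := h1
            _ ≤ |C| * (Real.exp (-(c / 2 * R)) * Real.exp (-(c / 2 * ‖Q‖))) :=
                mul_le_mul_of_nonneg_left h2 (abs_nonneg _)
            _ = _ := by ring
      have h3 : ε ≤ ∑' i : ↥Fᶜ,
          |C| * Real.exp (-(c / 2 * R)) * Real.exp (-(c / 2 * ‖(i : Fin d → ℤ)‖)) :=
        Summable.tsum_le_tsum hle (hbs.subtype _) (hG.subtype _)
      have h4 : (∑' i : ↥Fᶜ,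
          |C| * Real.exp (-(c / 2 * R)) * Real.exp (-(c / 2 * ‖(i : Fin d → ℤ)‖))) ≤
          ∑' Q : Fin d → ℤ, |C| * Real.exp (-(c / 2 * R)) * Real.exp (-(c / 2 * ‖Q‖)) :=
        Summable.tsum_subtype_le (fun Q : Fin d → ℤ =>
          |C| * Real.exp (-(c / 2 * R)) * Real.exp (-(c / 2 * ‖Q‖))) _
          (fun _ => by positivity) hG
      have h4' : (∑' Q : Fin d → ℤ, |C| * Real.exp (-(c / 2 * R)) * Real.exp (-(c / 2 * ‖Q‖))) =
          |C| * Real.exp (-(c / 2 * R)) * S2 := tsum_mul_left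
      have h5 : |C| * Real.exp (-(c / 2 * R)) * S2 ≤ K * Real.exp (-(c / 2 * R)) := by
        rw [hK]
        have := Real.exp_pos (-(c / 2 * R))
        nlinarith
      exact ((h3.trans h4).trans (le_of_eq h4')).trans h5
    · intro m m' Y hY hmm' hΘ
      obtain ⟨j, hj, hj'⟩ := hT1 m m' Y hY hmm' (by
        rintro Q ⟨hQ0, hQR⟩
        obtain ⟨θ, hθ, hθ1, hθ2⟩ := hΘ3 Q hQ0 hQR
        rcases hΘ θ hθ with h1 | h1
        · left
          refine h1.trans ?_
          have : (m : ℝ) * (θ / 64) ≤ m * mu α Q := mul_le_mul_of_nonneg_left hθ1 (Nat.cast_nonneg _)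
          linarith
        · right
          refine le_trans ?_ h1
          exact mul_le_mul_of_nonneg_left hθ2 (by positivity))
      refine ⟨j, hj, hj'.trans ?_⟩
      have hY0 : (0 : ℝ) < Y ^ p := by positivity
      have h6 : (∑' Q, ‖b Q‖) / Y ^ p ≤ (∑' Q, ‖b Q‖ + 1) / Y ^ p :=
        div_le_div_of_nonneg_right (by linarith) hY0.le
      have h7 : Cp * ((∑' Q, ‖b Q‖) / Y ^ p + ε) ≤ Cp * ((∑' Q, ‖b Q‖ + 1) / Y ^ p + ε) :=
        mul_le_mul_of_nonneg_left (by linarith) hCp.le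
      linarith
    · intro m Y hY hΘ
      have h8 := hT2 m Y hY (by
        rintro Q ⟨hQ0, hQR⟩
        obtain ⟨θ, hθ, hθ1, hθ2⟩ := hΘ3 Q hQ0 hQR
        refine (hΘ θ hθ).trans ?_
        have : (m : ℝ) * (θ / 64) ≤ m * mu α Q := mul_le_mul_of_nonneg_left hθ1 (Nat.cast_nonneg _)
        linarith)
      refine h8.trans ?_
      have hY0 : (0 : ℝ) < Y ^ p := by positivity
      have h6 : (∑' Q, ‖b Q‖) / Y ^ p ≤ (∑' Q, ‖b Q‖ + 1) / Y ^ p :=
        div_le_div_of_nonneg_right (by linarith) hY0.le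
      exact mul_le_mul_of_nonneg_left (by linarith) hCp.le
  -- the contradiction
  set L : ℝ := -Real.log s0 with hL
  have hs0lt : s0 < 1 := lt_of_le_of_lt hs01 hs1'
  have hLpos : 0 < L := by
    rw [hL]
    have := Real.log_neg hs0p hs0lt
    linarith
  set K2 : ℝ := Real.exp |Real.log CN| with hK2
  have hK2pos : 0 < K2 := Real.exp_pos _
  obtain ⟨x, hx1, hx2, hx3⟩ : ∃ x : ℝ, 1 ≤ x ∧ 2 / c * (1 + 2 * K2 * L) ≤ x ∧ Real.log K ≤ x :=
    ⟨max 1 (max (2 / c * (1 + 2 * K2 * L)) (Real.log K)), le_max_left _ _,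
      (le_max_left _ _).trans (le_max_right _ _), (le_max_right _ _).trans (le_max_right _ _)⟩
  have hx0 : 0 < x := by linarith
  obtain ⟨Θ, hΘ, hlt⟩ := key (x ^ 2) (by nlinarith)
  have hpr : (p : ℝ) = 104 * ((d : ℝ) + 1) := by rw [hp]; push_cast; ring
  have hq : (0 : ℝ) < 13 / (p : ℝ) := by rw [hpr]; positivity
  -- bound of the exponent
  have hE : (1 + 13 / (p : ℝ)) ^ Θ.card ≤ K2 * x := by
    have h1 : (1 + 13 / (p : ℝ)) ^ Θ.card ≤ Real.exp (Θ.card * (13 / (p : ℝ))) := by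
      rw [Real.exp_nat_mul]
      apply pow_le_pow_left₀ (by positivity)
      have := Real.add_one_le_exp (13 / (p : ℝ))
      linarith
    have h2 : (Θ.card : ℝ) * Real.log 2 ≤ Real.log CN + 2 * d * (2 * Real.log x) := by
      have h3 := Real.log_le_log (by positivity) hΘ
      rw [Real.log_pow, Real.log_mul hCN.ne' (by positivity), Real.log_pow, Real.log_pow] at h3
      push_cast at h3
      linarith
    have hlx : 0 ≤ Real.log x := Real.log_nonneg hx1
    have hcard : (Θ.card : ℝ) ≤ 2 * (|Real.log CN| + 2 * d * (2 * Real.log x)) := by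
      have h4 := Real.log_two_gt_d9
      have h5 := le_abs_self (Real.log CN)
      have h6 : (0 : ℝ) ≤ Θ.card := Nat.cast_nonneg _
      have h7 : (0 : ℝ) ≤ |Real.log CN| + 2 * d * (2 * Real.log x) := by positivity
      nlinarith
    have h8 : (Θ.card : ℝ) * (13 / (p : ℝ)) ≤ |Real.log CN| + Real.log x := by
      have h9 : (Θ.card : ℝ) * (13 / (p : ℝ)) ≤
          2 * (|Real.log CN| + 2 * d * (2 * Real.log x)) * (13 / (p : ℝ)) :=
        mul_le_mul_of_nonneg_right hcard hq.le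
      refine h9.trans ?_
      rw [hpr, mul_div_assoc', div_le_iff₀ (by positivity)]
      have ha := abs_nonneg (Real.log CN)
      have hd0 : (0 : ℝ) ≤ d := Nat.cast_nonneg _
      nlinarith [mul_nonneg hd0 hlx, mul_nonneg hd0 ha]
    calc (1 + 13 / (p : ℝ)) ^ Θ.card ≤ Real.exp (Θ.card * (13 / (p : ℝ))) := h1
      _ ≤ Real.exp (|Real.log CN| + Real.log x) := Real.exp_le_exp.2 h8
      _ = K2 * x := by rw [Real.exp_add, Real.exp_log hx0]
  -- lower bound of the left side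
  have hlow : Real.exp (-(2 * (K2 * x) * L)) ≤ (s0 ^ ((1 + 13 / (p : ℝ)) ^ Θ.card)) ^ 2 := by
    rw [Real.rpow_def_of_pos hs0p, ← Real.exp_nat_mul]
    apply Real.exp_le_exp.2
    have h10 : Real.log s0 = -L := by rw [hL]; ring
    rw [h10]
    push_cast
    nlinarith
  have hup : K * Real.exp (-(c / 2 * x ^ 2)) = Real.exp (Real.log K - c / 2 * x ^ 2) := by
    rw [sub_eq_add_neg, Real.exp_add, Real.exp_log hKpos]
  rw [hup] at hlt
  have hfin := Real.exp_lt_exp.1 (lt_of_le_of_lt hlow hlt)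
  have h11 : 1 + 2 * K2 * L ≤ c / 2 * x := by
    have h12 := mul_le_mul_of_nonneg_left hx2 (show 0 ≤ c / 2 by positivity)
    have h13 : c / 2 * (2 / c * (1 + 2 * K2 * L)) = 1 + 2 * K2 * L := by field_simp
    linarith
  have h14 := mul_le_mul_of_nonneg_right h11 hx0.le
  nlinarith

end Pool.Agent.T6.H46.CZ
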