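import Pool.Agent.T6.H46.CZ.Stm

/-!
Project CZ (MP_3d11e1_an): STP, passing the zones one after the other.
-/

set_option autoImplicit false

namespace Pool.Agent.T6.H46.CZ

open Finset

namespace STPaux

/-- the constant of one step -/
noncomputable def KK (p : ℕ) : ℝ := 6 * p * 2 ^ p * (66 * 2 ^ p) ^ 2

theorem KK_pos {p : ℕ} (hp : 13 ≤ p) : 0 < KK p := by
  have : (0 : ℝ) < p := by exact_mod_cast (by omega : 0 < p)
  unfold KK
  positivity

theorem pow_Y {p : ℕ} (hp : 0 < p) {s : ℝ} (hs : 0 < s) :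
    (s ^ (-(2 / (p : ℝ)))) ^ p = (s ^ 2)⁻¹ := by
  have hp' : (p : ℝ) ≠ 0 := by positivity
  rw [← Real.rpow_natCast, ← Real.rpow_mul hs.le]
  have : -(2 / (p : ℝ)) * p = -2 := by field_simp
  rw [this, Real.rpow_neg hs.le, Real.rpow_two]

theorem one_le_Y {p : ℕ} {s : ℝ} (hs : 0 < s) (hs1 : s ≤ 1) : 1 ≤ s ^ (-(2 / (p : ℝ))) :=
  Real.one_le_rpow_of_pos_of_le_one_of_nonpos hs hs1 (by
    have : (0 : ℝ) ≤ 2 / (p : ℝ) := by positivity
    linarith)

theorem key {p : ℕ} (hp : 13 ≤ p) {s : ℝ} (hs : 0 < s) (hs1 : s ≤ 1)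
    (hsK : s ≤ ((KK p) ^ p)⁻¹) :
    KK p * ((s ^ (-(2 / (p : ℝ)))) ^ 2 *
      ((s ^ (1 + 13 / (p : ℝ))) ^ (-(2 / (p : ℝ)))) ^ 2 * s ^ (1 + 13 / (p : ℝ))) ≤ s := by
  have hp13 : (13 : ℝ) ≤ p := by exact_mod_cast hp
  have hp0 : (0 : ℝ) < p := by linarith
  have hK := KK_pos hp
  have e1 : (s ^ (-(2 / (p : ℝ)))) ^ 2 = s ^ (-(4 / (p : ℝ))) := by
    rw [← Real.rpow_natCast, ← Real.rpow_mul hs.le]
    congr 1
    push_cast
    ring
  have e2 : ((s ^ (1 + 13 / (p : ℝ))) ^ (-(2 / (p : ℝ)))) ^ 2 =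
      s ^ (-(4 / (p : ℝ)) * (1 + 13 / (p : ℝ))) := by
    rw [← Real.rpow_mul hs.le, ← Real.rpow_natCast, ← Real.rpow_mul hs.le]
    congr 1
    push_cast
    ring
  rw [e1, e2, ← Real.rpow_add hs, ← Real.rpow_add hs]
  have h3 : 1 + 1 / (p : ℝ) ≤
      -(4 / (p : ℝ)) + -(4 / (p : ℝ)) * (1 + 13 / (p : ℝ)) + (1 + 13 / (p : ℝ)) := by
    have h4 : 13 / (p : ℝ) ≤ 1 := by rw [div_le_one hp0]; exact hp13
    have h5 : 0 < 4 / (p : ℝ) := by positivity
    have h6 : 4 / (p : ℝ) * (13 / (p : ℝ)) ≤ 4 / (p : ℝ) * 1 :=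
      mul_le_mul_of_nonneg_left h4 h5.le
    have h7 : 13 / (p : ℝ) = 13 * (1 / (p : ℝ)) := by ring
    have h8 : 4 / (p : ℝ) = 4 * (1 / (p : ℝ)) := by ring
    nlinarith
  have h4 : s ^ (-(4 / (p : ℝ)) + -(4 / (p : ℝ)) * (1 + 13 / (p : ℝ)) + (1 + 13 / (p : ℝ))) ≤
      s ^ (1 + 1 / (p : ℝ)) := Real.rpow_le_rpow_of_exponent_ge hs hs1 h3
  have h5 : s ^ (1 / (p : ℝ)) ≤ (KK p)⁻¹ := by
    calc s ^ (1 / (p : ℝ)) ≤ (((KK p) ^ p)⁻¹) ^ (1 / (p : ℝ)) :=
          Real.rpow_le_rpow hs.le hsK (by positivity)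
      _ = (KK p)⁻¹ := by
          rw [← inv_pow, ← Real.rpow_natCast, ← Real.rpow_mul (by positivity)]
          rw [mul_one_div_cancel hp0.ne', Real.rpow_one]
  calc KK p * s ^ (-(4 / (p : ℝ)) + -(4 / (p : ℝ)) * (1 + 13 / (p : ℝ)) + (1 + 13 / (p : ℝ)))
      ≤ KK p * s ^ (1 + 1 / (p : ℝ)) := mul_le_mul_of_nonneg_left h4 hK.le
    _ = KK p * (s * s ^ (1 / (p : ℝ))) := by rw [Real.rpow_add hs, Real.rpow_one]
    _ ≤ KK p * (s * (KK p)⁻¹) :=
        mul_le_mul_of_nonneg_left (mul_le_mul_of_nonneg_left h5 hs.le) hK.le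
    _ = s := by field_simp

/-- the ratio in H1 -/
theorem ratio {p n mh : ℕ} {Y Y' θ : ℝ} (hY : 1 ≤ Y) (hY' : 1 ≤ Y') (hθ : 0 < θ) (hθ1 : θ ≤ 1)
    (hn : 1 / (2 ^ p * Y * θ) ≤ n + 1) (hmh : (mh : ℝ) ≤ 64 * Y' / θ + 1) :
    ((mh : ℝ) + 1) / (n + 1) ≤ 66 * 2 ^ p * (Y * Y') := by
  have h2 : (0 : ℝ) < 2 ^ p := by positivity
  have hn0 : (0 : ℝ) < (n : ℝ) + 1 := by positivity
  rw [div_le_iff₀ hn0]
  have h1 : 1 ≤ Y' / θ := by
    rw [le_div_iff₀ hθ]; linarith
  have h3 : (mh : ℝ) + 1 ≤ 66 * (Y' / θ) := by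
    have : 64 * Y' / θ = 64 * (Y' / θ) := by ring
    linarith
  have h4 : 66 * (Y' / θ) = 66 * 2 ^ p * (Y * Y') * (1 / (2 ^ p * Y * θ)) := by
    have : Y ≠ 0 := by linarith
    field_simp
  calc (mh : ℝ) + 1 ≤ 66 * 2 ^ p * (Y * Y') * (1 / (2 ^ p * Y * θ)) := by rw [← h4]; exact h3
    _ ≤ 66 * 2 ^ p * (Y * Y') * (n + 1) := by
        apply mul_le_mul_of_nonneg_left hn
        have : 0 < Y := by linarith
        have : 0 < Y' := by linarith
        positivity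

end STPaux

open STPaux in
theorem mSTP : StmSTP := by
  classical
  intro p hp Cp A hCp hA
  have hK := KK_pos hp
  have hp13 : (13 : ℝ) ≤ p := by exact_mod_cast hp
  have hp0 : (0 : ℝ) < p := by linarith
  have hq0 : 0 < 13 / (p : ℝ) := by positivity
  obtain ⟨s1, hs1, hs1a, hs1b, hs1c⟩ : ∃ s1 : ℝ, 0 < s1 ∧ s1 < 1 ∧
      s1 ≤ 1 / (2 * (Cp * (A + 1))) ∧ s1 ≤ ((KK p) ^ p)⁻¹ := by
    refine ⟨min (1 / 2) (min (1 / (2 * (Cp * (A + 1)))) ((KK p) ^ p)⁻¹), ?_, ?_, ?_, ?_⟩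
    · refine lt_min (by norm_num) (lt_min (by positivity) (by positivity))
    · exact lt_of_le_of_lt (min_le_left _ _) (by norm_num)
    · exact (min_le_right _ _).trans (min_le_left _ _)
    · exact (min_le_right _ _).trans (min_le_right _ _)
  refine ⟨s1, hs1, hs1a, ?_⟩
  intro M0 σ Θ ε hΘ h1 h2 h3
  -- the error term
  have herr : ∀ s : ℝ, 0 < s → s ≤ s1 → ε ≤ s ^ 2 →
      Cp * (A / (s ^ (-(2 / (p : ℝ)))) ^ p + ε) ≤ s / 2 := by
    intro s hs hss hε
    rw [pow_Y (by omega) hs, div_inv_eq_mul]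
    have h4 : s * (2 * (Cp * (A + 1))) ≤ 1 := by
      rw [← le_div_iff₀ (by positivity)]
      exact hss.trans hs1b
    have h5 : Cp * (A * s ^ 2 + ε) ≤ Cp * (A * s ^ 2 + s ^ 2) :=
      mul_le_mul_of_nonneg_left (by linarith) hCp.le
    have h6 : Cp * (A * s ^ 2 + s ^ 2) = s * (s * (2 * (Cp * (A + 1)))) / 2 := by ring
    have h7 : s * (s * (2 * (Cp * (A + 1)))) ≤ s * 1 := mul_le_mul_of_nonneg_left h4 hs.le
    linarith
  have hall : ∀ (m : ℕ) (s : ℝ), M0 ≤ m → 0 < s → s ≤ s1 → s ≤ σ m →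
      (∀ θ ∈ Θ, s ^ (-(2 / (p : ℝ))) ≤ m * θ / 64) → s ^ 2 < ε := by
    intro m s hm hs hss hσ hpass
    by_contra hc
    push Not at hc
    have h4 := h3 m (s ^ (-(2 / (p : ℝ)))) (one_le_Y hs (hss.trans hs1a.le)) hpass
    have h5 := herr s hs hss hc
    have h6 := le_abs_self (σ m)
    linarith
  have hexp : ∀ (k : ℕ) (s : ℝ), 0 < s → s ≤ 1 →
      (s ^ ((1 + 13 / (p : ℝ)) ^ k)) ^ 2 ≤ s ^ 2 := by
    intro k s hs hs1
    have h4 : (1 : ℝ) ≤ (1 + 13 / (p : ℝ)) ^ k := one_le_pow₀ (by linarith)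
    have h5 : s ^ ((1 + 13 / (p : ℝ)) ^ k) ≤ s := by
      calc s ^ ((1 + 13 / (p : ℝ)) ^ k) ≤ s ^ (1 : ℝ) :=
            Real.rpow_le_rpow_of_exponent_ge hs hs1 h4
        _ = s := Real.rpow_one s
    exact pow_le_pow_left₀ (by positivity) h5 2
  have claim : ∀ k : ℕ, ∀ (m : ℕ) (s : ℝ), M0 ≤ m → 0 < s → s ≤ s1 → s ≤ σ m →
      (Θ.filter (fun θ => ¬ s ^ (-(2 / (p : ℝ))) ≤ m * θ / 64)).card ≤ k →
      (s ^ ((1 + 13 / (p : ℝ)) ^ k)) ^ 2 < ε := by
    intro k
    induction k with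
    | zero =>
      intro m s hm hs hss hσ hcard
      rw [pow_zero, Real.rpow_one]
      apply hall m s hm hs hss hσ
      intro θ hθ
      by_contra hc
      have : θ ∈ Θ.filter (fun θ => ¬ s ^ (-(2 / (p : ℝ))) ≤ m * θ / 64) :=
        mem_filter.2 ⟨hθ, hc⟩
      rw [Finset.card_eq_zero.1 (Nat.le_zero.1 hcard)] at this
      simp at this
    | succ k ih =>
      intro m s hm hs hss hσ hcard
      have hsone : s ≤ 1 := hss.trans hs1a.le
      rcases (Θ.filter (fun θ => ¬ s ^ (-(2 / (p : ℝ))) ≤ m * θ / 64)).eq_empty_or_nonempty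
        with hT | hT
      · refine lt_of_le_of_lt (hexp (k + 1) s hs hsone) (hall m s hm hs hss hσ ?_)
        intro θ hθ
        by_contra hc
        have : θ ∈ Θ.filter (fun θ => ¬ s ^ (-(2 / (p : ℝ))) ≤ m * θ / 64) :=
          mem_filter.2 ⟨hθ, hc⟩
        rw [hT] at this
        simp at this
      by_contra hcon
      push Not at hcon
      have hε : ε ≤ s ^ 2 := hcon.trans (hexp (k + 1) s hs hsone)
      obtain ⟨θ₁, hθ₁T, hmax⟩ : ∃ θ₁ ∈ Θ.filter (fun θ => ¬ s ^ (-(2 / (p : ℝ))) ≤ m * θ / 64),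
          ∀ θ ∈ Θ.filter (fun θ => ¬ s ^ (-(2 / (p : ℝ))) ≤ m * θ / 64), θ ≤ θ₁ :=
        ⟨_, Finset.max'_mem _ hT, fun θ hθ => Finset.le_max' _ θ hθ⟩
      obtain ⟨hθ₁, hθ₁n⟩ := mem_filter.1 hθ₁T
      obtain ⟨hθ₁0, hθ₁1⟩ := hΘ θ₁ hθ₁
      push Not at hθ₁n
      have hs'0 : 0 < s ^ (1 + 13 / (p : ℝ)) := by positivity
      have hs's : s ^ (1 + 13 / (p : ℝ)) ≤ s := by
        calc s ^ (1 + 13 / (p : ℝ)) ≤ s ^ (1 : ℝ) :=
              Real.rpow_le_rpow_of_exponent_ge hs hsone (by linarith)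
          _ = s := Real.rpow_one s
      have hs's1 : s ^ (1 + 13 / (p : ℝ)) ≤ s1 := hs's.trans hss
      have hkey := key hp hs hsone (hss.trans hs1c)
      have hY1 := one_le_Y (p := p) hs hsone
      have hY'1 := one_le_Y (p := p) hs'0 (hs's.trans hsone)
      have hYY' : s ^ (-(2 / (p : ℝ))) ≤ (s ^ (1 + 13 / (p : ℝ))) ^ (-(2 / (p : ℝ))) := by
        apply Real.rpow_le_rpow_of_nonpos hs'0 hs's
        have : 0 ≤ 2 / (p : ℝ) := by positivity
        linarith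
      have herr' := herr s hs hss hε
      have hih : ∀ mh : ℕ, M0 ≤ mh → s ^ (1 + 13 / (p : ℝ)) ≤ σ mh →
          (Θ.filter (fun θ => ¬ (s ^ (1 + 13 / (p : ℝ))) ^ (-(2 / (p : ℝ))) ≤ mh * θ / 64)).card
            ≤ k → False := by
        intro mh hmh hσ' hc
        have h4 := ih mh _ hmh hs'0 hs's1 hσ' hc
        rw [← Real.rpow_mul hs.le, ← pow_succ'] at h4
        linarith
      generalize hY : s ^ (-(2 / (p : ℝ))) = Y at *
      generalize hY' : (s ^ (1 + 13 / (p : ℝ))) ^ (-(2 / (p : ℝ))) = Y' at *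
      generalize hs' : s ^ (1 + 13 / (p : ℝ)) = s' at *
      have h64 : 0 < 64 * Y' / θ₁ := by
        have : 0 < Y' := by linarith
        positivity
      have hmh1 := Nat.le_ceil (64 * Y' / θ₁)
      have hmh2 := (Nat.ceil_lt_add_one h64.le).le
      generalize ⌈64 * Y' / θ₁⌉₊ = mh at *
      have hmmh : m ≤ mh := by
        have h5 : (m : ℝ) < 64 * Y' / θ₁ := by
          rw [lt_div_iff₀ hθ₁0]
          linarith
        exact_mod_cast (h5.le.trans hmh1)
      have hmM : M0 ≤ mh := hm.trans hmmh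
      have hσmh : 0 < σ mh := (h1 mh hmM).1
      -- the count
      have hcount : (Θ.filter (fun θ => ¬ Y' ≤ mh * θ / 64)).card ≤ k := by
        have hsub : Θ.filter (fun θ => ¬ Y' ≤ mh * θ / 64) ⊆
            (Θ.filter (fun θ => ¬ Y ≤ m * θ / 64)).erase θ₁ := by
          intro θ hθ
          obtain ⟨hθ1, hθ2⟩ := mem_filter.1 hθ
          have hlt : θ < θ₁ := by
            by_contra hc
            push Not at hc
            apply hθ2
            rw [le_div_iff₀ (by norm_num)]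
            rw [div_le_iff₀ hθ₁0] at hmh1
            have : (mh : ℝ) * θ₁ ≤ mh * θ := mul_le_mul_of_nonneg_left hc (by positivity)
            linarith
          refine mem_erase.2 ⟨hlt.ne, mem_filter.2 ⟨hθ1, ?_⟩⟩
          intro hc
          have : (m : ℝ) * θ ≤ m * θ₁ := mul_le_mul_of_nonneg_left hlt.le (by positivity)
          linarith
        have h5 := card_le_card hsub
        rw [card_erase_of_mem hθ₁T] at h5
        omega
      refine hih mh hmM ?_ hcount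
      -- the lower bound for `σ mh`
      have hmain : s ≤ KK p * (Y ^ 2 * Y' ^ 2 * σ mh) := by
        have hrat : ∀ n : ℕ, M0 ≤ n → n ≤ mh → 1 / (2 ^ p * Y * θ₁) ≤ (n : ℝ) + 1 →
            σ n ≤ 3 * (66 * 2 ^ p * (Y * Y')) ^ 2 * σ mh := by
          intro n hn hnmh hn1
          have h5 := (h1 n hn).2 mh hnmh
          have h6 := ratio hY1 hY'1 hθ₁0 hθ₁1 hn1 hmh2
          have h7 : (((mh : ℝ) + 1) / (n + 1)) ^ 2 ≤ (66 * 2 ^ p * (Y * Y')) ^ 2 :=
            pow_le_pow_left₀ (by positivity) h6 2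
          calc σ n ≤ 3 * (((mh : ℝ) + 1) / (n + 1)) ^ 2 * σ mh := h5
            _ ≤ 3 * (66 * 2 ^ p * (Y * Y')) ^ 2 * σ mh := by
                apply mul_le_mul_of_nonneg_right _ hσmh.le
                linarith
        have hX : 0 ≤ 3 * (66 * 2 ^ p * (Y * Y')) ^ 2 * σ mh := by positivity
        have hKX : KK p * (Y ^ 2 * Y' ^ 2 * σ mh) =
            2 * (p * 2 ^ p * (3 * (66 * 2 ^ p * (Y * Y')) ^ 2 * σ mh)) := by
          unfold KK; ring
        rw [hKX]
        rcases lt_or_ge (1 / Y) (2 ^ p * m * θ₁) with hA1 | hB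
        · have h5 : 1 / (2 ^ p * Y * θ₁) ≤ (m : ℝ) + 1 := by
            have hY0 : 0 < Y := by linarith
            rw [div_le_iff₀ (by positivity)]
            rw [div_lt_iff₀ hY0] at hA1
            have : 0 ≤ 2 ^ p * Y * θ₁ := by positivity
            nlinarith
          have h6 := hrat m hm hmmh h5
          have h7 : (1 : ℝ) ≤ p * 2 ^ p := by
            have : (1 : ℝ) ≤ 2 ^ p := one_le_pow₀ (by norm_num)
            nlinarith
          nlinarith
        · have hY0 : 0 < Y := by linarith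
          have hY'0 : 0 < Y' := by linarith
          have hq : 0 ≤ 1 / (2 ^ p * Y * θ₁) := by positivity
          have hf1 := Nat.floor_le hq
          have hf2 := (Nat.lt_floor_add_one (1 / (2 ^ p * Y * θ₁))).le
          have hf3 : m ≤ ⌊1 / (2 ^ p * Y * θ₁)⌋₊ := by
            apply Nat.le_floor
            rw [le_div_iff₀ (by positivity)]
            rw [le_div_iff₀ hY0] at hB
            linarith
          generalize ⌊1 / (2 ^ p * Y * θ₁)⌋₊ = m' at *
          have hm'1 : 2 ^ p * m' * θ₁ ≤ 1 / Y := by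
            rw [le_div_iff₀ hY0]
            rw [le_div_iff₀ (by positivity)] at hf1
            linarith
          obtain ⟨j, hj, hj2⟩ := h2 m m' Y hY1 hf3 (by
            intro θ hθ
            by_cases hc : Y ≤ m * θ / 64
            · exact Or.inl hc
            · right
              have hle : θ ≤ θ₁ := hmax θ (mem_filter.2 ⟨hθ, hc⟩)
              have : (2 : ℝ) ^ p * m' * θ ≤ 2 ^ p * m' * θ₁ :=
                mul_le_mul_of_nonneg_left hle (by positivity)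
              linarith)
          have hn0 : m' ≤ 2 ^ j * m' := Nat.le_mul_of_pos_left _ (by positivity)
          have hnM : M0 ≤ 2 ^ j * m' := by omega
          have hnmh : 2 ^ j * m' ≤ mh := by
            have h5 : 2 ^ j * m' ≤ 2 ^ p * m' :=
              Nat.mul_le_mul_right _ (Nat.pow_le_pow_right (by norm_num) hj.le)
            have h6 : ((2 ^ p * m' : ℕ) : ℝ) ≤ mh := by
              push_cast
              refine le_trans ?_ hmh1
              rw [le_div_iff₀ hθ₁0]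
              have : 1 / Y ≤ 1 := by rw [div_le_one hY0]; exact hY1
              linarith
            have h7 : 2 ^ p * m' ≤ mh := by exact_mod_cast h6
            omega
          have h5 : 1 / (2 ^ p * Y * θ₁) ≤ ((2 ^ j * m' : ℕ) : ℝ) + 1 := by
            have : (m' : ℝ) ≤ ((2 ^ j * m' : ℕ) : ℝ) := by exact_mod_cast hn0
            linarith
          have h6 := hrat _ hnM hnmh h5
          have h7 : |σ (2 ^ j * m')| = σ (2 ^ j * m') := abs_of_pos (h1 _ hnM).1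
          rw [h7] at hj2
          have h8 := le_abs_self (σ m)
          have h9 : (p : ℝ) * 2 ^ p * σ (2 ^ j * m') ≤
              p * 2 ^ p * (3 * (66 * 2 ^ p * (Y * Y')) ^ 2 * σ mh) :=
            mul_le_mul_of_nonneg_left h6 (by positivity)
          linarith
      by_contra hc
      push Not at hc
      have h5 : KK p * (Y ^ 2 * Y' ^ 2 * σ mh) < KK p * (Y ^ 2 * Y' ^ 2 * s') := by
        have : 0 < Y := by linarith
        have : 0 < Y' := by linarith
        apply mul_lt_mul_of_pos_left _ hK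
        apply mul_lt_mul_of_pos_left hc
        positivity
      linarith
  intro m0 hm0 s0 hs0 hs1' hσ
  exact claim Θ.card m0 s0 hm0 hs0 hs1' hσ (card_filter_le _ _)

end Pool.Agent.T6.H46.CZ
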