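import Pool.Agent.T6.H46.CZ.Stm2

set_option autoImplicit false

namespace Pool.Agent.T6.H46.CZ

open MeasureTheory

/-- MZ: the constant Fourier coefficient is the mean. -/
def StmMZ : Prop := ∀ (d : ℕ) (φ : (Fin d → UnitAddCircle) → ℝ) (c : (Fin d → ℤ) → ℂ),
  (Summable fun Q => ‖c Q‖) →
  (∀ x : Fin d → ℝ, (φ (fun i => (x i : UnitAddCircle)) : ℂ) = ∑' Q, c Q * e (tf x Q)) →
  ((∫ x : Fin d → UnitAddCircle, φ x : ℝ) : ℂ) = c 0

end Pool.Agent.T6.H46.CZ
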