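import Pool.Agent.T6.H46.CZ.Stm

/-! Module TRU: the sum over the frequencies in a zone without frequencies (helper89). -/

set_option autoImplicit false

namespace Pool.Agent.T6.H46.CZ

open Finset Filter

namespace ModTRU

/-- the weighted sum is small if the weights are small on `F` -/
theorem gen {ι : Type} (b : ι → ℂ) (hb : Summable fun i => ‖b i‖) (F : Set ι) (g : ι → ℝ)
    (A B : ℝ) (hA : 0 ≤ A) (hF : ∀ i ∈ F, |g i| ≤ A) (hFc : ∀ i, |g i| ≤ B) :
    ‖∑' i, b i * (g i : ℂ)‖ ≤ A * (∑' i, ‖b i‖) + B * ∑' i : ↥Fᶜ, ‖b i‖ := by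
  classical
  have hind : Summable (Fᶜ.indicator fun i => ‖b i‖) := hb.indicator _
  have hle : ∀ i, ‖b i * (g i : ℂ)‖ ≤ A * ‖b i‖ + B * Fᶜ.indicator (fun i => ‖b i‖) i := by
    intro i
    rw [norm_mul, Complex.norm_real, Real.norm_eq_abs]
    by_cases hi : i ∈ F
    · have h1 : Fᶜ.indicator (fun i => ‖b i‖) i = 0 := by
        rw [Set.indicator_of_notMem]
        simpa using hi
      rw [h1, mul_zero, add_zero, mul_comm]
      exact mul_le_mul_of_nonneg_right (hF i hi) (norm_nonneg _)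
    · have h1 : Fᶜ.indicator (fun i => ‖b i‖) i = ‖b i‖ := by
        rw [Set.indicator_of_mem]
        simpa using hi
      rw [h1]
      have h2 := mul_le_mul_of_nonneg_right (hFc i) (norm_nonneg (b i))
      have h3 := mul_nonneg hA (norm_nonneg (b i))
      linarith
  have hs : Summable fun i => A * ‖b i‖ + B * Fᶜ.indicator (fun i => ‖b i‖) i :=
    (hb.mul_left A).add (hind.mul_left B)
  have hs0 : Summable fun i => ‖b i * (g i : ℂ)‖ :=
    Summable.of_nonneg_of_le (fun i => norm_nonneg _) hle hs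
  calc ‖∑' i, b i * (g i : ℂ)‖ ≤ ∑' i, ‖b i * (g i : ℂ)‖ := norm_tsum_le_tsum_norm hs0
    _ ≤ ∑' i, (A * ‖b i‖ + B * Fᶜ.indicator (fun i => ‖b i‖) i) := hs0.tsum_le_tsum hle hs
    _ = A * (∑' i, ‖b i‖) + B * ∑' i : ↥Fᶜ, ‖b i‖ := by
      rw [(hb.mul_left A).tsum_add (hind.mul_left B), tsum_mul_left, tsum_mul_left,
        ← _root_.tsum_subtype Fᶜ (fun i => ‖b i‖)]

theorem exp_bd (p : ℕ) (Y : ℝ) (hY : 1 ≤ Y) : Real.exp (-Y) ≤ (p.factorial : ℝ) / Y ^ p := by
  have h1 := Real.pow_div_factorial_le_exp Y (by linarith) p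
  have hf : (0 : ℝ) < p.factorial := by exact_mod_cast p.factorial_pos
  have hYp : 0 < Y ^ p := by positivity
  have h2 : 0 < Y ^ p / p.factorial := by positivity
  rw [Real.exp_neg]
  calc (Real.exp Y)⁻¹ ≤ (Y ^ p / p.factorial)⁻¹ := inv_anti₀ h2 h1
    _ = (p.factorial : ℝ) / Y ^ p := by rw [inv_div]

theorem pow_bd (p m : ℕ) (Y μ : ℝ) (hY : 1 ≤ Y) (h1 : μ ≤ 1) (h : Y ≤ m * μ) :
    (1 - μ) ^ m ≤ (p.factorial : ℝ) / Y ^ p := by
  have h2 : 1 - μ ≤ Real.exp (-μ) := by
    have := Real.add_one_le_exp (-μ)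
    linarith
  calc (1 - μ) ^ m ≤ Real.exp (-μ) ^ m := pow_le_pow_left₀ (by linarith) h2 m
    _ = Real.exp (-(m * μ)) := by rw [← Real.exp_nat_mul]; congr 1; ring
    _ ≤ Real.exp (-Y) := Real.exp_le_exp.2 (by linarith)
    _ ≤ _ := exp_bd p Y hY

end ModTRU

theorem mTRU (hINT : StmINT) : StmTRU := by
  classical
  intro p hp
  have hf1 : (1 : ℝ) ≤ p.factorial := by exact_mod_cast p.factorial_pos
  have hK : (1 : ℝ) ≤ 1 + p * 2 ^ p := by
    have : (0 : ℝ) ≤ p * 2 ^ p := by positivity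
    linarith
  refine ⟨(1 + p * 2 ^ p) * p.factorial, by positivity, ?_⟩
  intro ι b μ hb hμ σ hσ F
  have hpos : 0 ≤ ∑' i : ↥Fᶜ, ‖b i‖ := tsum_nonneg fun i => norm_nonneg _
  have hpos' : 0 ≤ ∑' i, ‖b i‖ := tsum_nonneg fun i => norm_nonneg _
  have hq0 : ∀ i, 0 ≤ 1 - μ i := fun i => by linarith [(hμ i).2]
  have hq1 : ∀ i, 1 - μ i ≤ 1 := fun i => by linarith [(hμ i).1]
  have hsum : ∀ m : ℕ, Summable fun i => b i * (((1 - μ i) ^ m : ℝ) : ℂ) := by
    intro m
    refine Summable.of_norm ?_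
    refine Summable.of_nonneg_of_le (fun i => norm_nonneg _) (fun i => ?_) hb
    rw [norm_mul, Complex.norm_real, Real.norm_eq_abs, abs_of_nonneg (pow_nonneg (hq0 i) m)]
    exact mul_le_of_le_one_right (norm_nonneg _) (pow_le_one₀ (hq0 i) (hq1 i))
  have hσ' : ∀ m : ℕ, (σ m : ℂ) = ∑' i, b i * (((1 - μ i) ^ m : ℝ) : ℂ) := by
    intro m
    rw [hσ m]
    refine tsum_congr fun i => ?_
    push_cast
    rfl
  constructor
  · intro m m' Y hY hmm hF
    obtain ⟨L, hL, hI⟩ := hINT p m m' hp hmm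
    obtain ⟨j, hj, hmax⟩ := Finset.exists_max_image (range p) (fun j => |σ (2 ^ j * m')|)
      ⟨0, Finset.mem_range.2 (by omega)⟩
    refine ⟨j, by simpa using hj, ?_⟩
    set g : ι → ℝ := fun i => (1 - μ i) ^ m - ∑ j ∈ range p, L j * (1 - μ i) ^ (2 ^ j * m')
      with hg
    have hYp : 0 < Y ^ p := by positivity
    -- the crude bound
    have hcr : ∀ i, |g i| ≤ (1 + p * 2 ^ p) * (1 - μ i) ^ m := by
      intro i
      have h1 : |∑ j ∈ range p, L j * (1 - μ i) ^ (2 ^ j * m')| ≤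
          ∑ j ∈ range p, 2 ^ p * (1 - μ i) ^ m := by
        refine (Finset.abs_sum_le_sum_abs _ _).trans (Finset.sum_le_sum fun j _ => ?_)
        rw [abs_mul, abs_of_nonneg (pow_nonneg (hq0 i) _)]
        refine mul_le_mul (hL j) ?_ (pow_nonneg (hq0 i) _) (by positivity)
        refine pow_le_pow_of_le_one (hq0 i) (hq1 i) ?_
        have h2 : 1 ≤ 2 ^ j := Nat.one_le_two_pow
        nlinarith
      rw [Finset.sum_const, card_range, nsmul_eq_mul] at h1
      have h3 : |g i| ≤ |(1 - μ i) ^ m| + |∑ j ∈ range p, L j * (1 - μ i) ^ (2 ^ j * m')| :=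
        abs_sub _ _
      rw [abs_of_nonneg (pow_nonneg (hq0 i) m)] at h3
      calc |g i| ≤ (1 - μ i) ^ m + p * (2 ^ p * (1 - μ i) ^ m) := by linarith
        _ = _ := by ring
    have hB : ∀ i, |g i| ≤ 1 + p * 2 ^ p := by
      intro i
      refine (hcr i).trans ?_
      exact mul_le_of_le_one_right (by linarith) (pow_le_one₀ (hq0 i) (hq1 i))
    have hA : ∀ i ∈ F, |g i| ≤ (1 + p * 2 ^ p) * p.factorial / Y ^ p := by
      intro i hi
      rcases hF i hi with h | h
      · refine (hcr i).trans ?_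
        rw [mul_div_assoc]
        exact mul_le_mul_of_nonneg_left (ModTRU.pow_bd p m Y (μ i) hY (hμ i).2 h) (by linarith)
      · refine (hI (μ i) (hμ i).1 (hμ i).2).trans ?_
        have h4 : (2 ^ p * (m' : ℝ) * μ i) ^ p ≤ (1 / Y) ^ p := by
          refine pow_le_pow_left₀ ?_ h p
          have := (hμ i).1
          positivity
        rw [div_pow, one_pow] at h4
        rw [mul_div_assoc]
        refine mul_le_mul_of_nonneg_left (h4.trans ?_) (by linarith)
        exact div_le_div_of_nonneg_right hf1 hYp.le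
    have hmain := ModTRU.gen b hb F g ((1 + p * 2 ^ p) * p.factorial / Y ^ p) (1 + p * 2 ^ p)
      (by positivity) hA hB
    -- the sum of the weighted terms
    have hD : ∑' i, b i * (g i : ℂ) =
        ((σ m - ∑ j ∈ range p, L j * σ (2 ^ j * m') : ℝ) : ℂ) := by
      have h5 : ∀ i, b i * (g i : ℂ) = b i * (((1 - μ i) ^ m : ℝ) : ℂ) -
          ∑ j ∈ range p, (L j : ℂ) * (b i * (((1 - μ i) ^ (2 ^ j * m') : ℝ) : ℂ)) := by
        intro i
        rw [hg]
        push_cast
        rw [mul_sub, Finset.mul_sum]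
        congr 1
        refine Finset.sum_congr rfl fun j _ => ?_
        ring
      have h6 : Summable fun i => ∑ j ∈ range p,
          (L j : ℂ) * (b i * (((1 - μ i) ^ (2 ^ j * m') : ℝ) : ℂ)) :=
        summable_sum fun j _ => (hsum (2 ^ j * m')).mul_left _
      rw [tsum_congr h5, (hsum m).tsum_sub h6, Summable.tsum_finsetSum
        (fun j _ => (hsum (2 ^ j * m')).mul_left _)]
      rw [Complex.ofReal_sub, Complex.ofReal_sum, hσ' m]
      congr 1
      refine Finset.sum_congr rfl fun j _ => ?_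
      rw [Complex.ofReal_mul, tsum_mul_left, hσ' (2 ^ j * m')]
    rw [hD, Complex.norm_real, Real.norm_eq_abs] at hmain
    have hS : |∑ j ∈ range p, L j * σ (2 ^ j * m')| ≤ p * 2 ^ p * |σ (2 ^ j * m')| := by
      refine (Finset.abs_sum_le_sum_abs _ _).trans ?_
      calc ∑ i ∈ range p, |L i * σ (2 ^ i * m')| ≤ ∑ i ∈ range p, 2 ^ p * |σ (2 ^ j * m')| := by
            refine Finset.sum_le_sum fun i hi => ?_
            rw [abs_mul]
            exact mul_le_mul (hL i) (hmax i hi) (abs_nonneg _) (by positivity)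
        _ = _ := by rw [Finset.sum_const, card_range, nsmul_eq_mul]; ring
    have h7 : |σ m| ≤ |σ m - ∑ j ∈ range p, L j * σ (2 ^ j * m')| +
        |∑ j ∈ range p, L j * σ (2 ^ j * m')| := by
      have := abs_add_le (σ m - ∑ j ∈ range p, L j * σ (2 ^ j * m'))
        (∑ j ∈ range p, L j * σ (2 ^ j * m'))
      rwa [sub_add_cancel] at this
    have h8 : (1 + (p : ℝ) * 2 ^ p) * ∑' i : ↥Fᶜ, ‖b i‖ ≤
        (1 + p * 2 ^ p) * p.factorial * ∑' i : ↥Fᶜ, ‖b i‖ := by
      refine mul_le_mul_of_nonneg_right ?_ hpos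
      exact le_mul_of_one_le_right (by linarith) hf1
    have h9 : (1 + (p : ℝ) * 2 ^ p) * p.factorial / Y ^ p * (∑' i, ‖b i‖) =
        (1 + p * 2 ^ p) * p.factorial * ((∑' i, ‖b i‖) / Y ^ p) := by ring
    rw [h9] at hmain
    calc |σ m| ≤ p * 2 ^ p * |σ (2 ^ j * m')| +
          ((1 + p * 2 ^ p) * p.factorial * ((∑' i, ‖b i‖) / Y ^ p) +
            (1 + p * 2 ^ p) * p.factorial * ∑' i : ↥Fᶜ, ‖b i‖) := by linarith
      _ = _ := by ring
  · intro m Y hY hF
    have hYp : 0 < Y ^ p := by positivity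
    have hmain := ModTRU.gen b hb F (fun i => (1 - μ i) ^ m) ((p.factorial : ℝ) / Y ^ p) 1
      (by positivity)
      (fun i hi => by
        rw [abs_of_nonneg (pow_nonneg (hq0 i) m)]
        exact ModTRU.pow_bd p m Y (μ i) hY (hμ i).2 (hF i hi))
      (fun i => by
        rw [abs_of_nonneg (pow_nonneg (hq0 i) m)]
        exact pow_le_one₀ (hq0 i) (hq1 i))
    rw [← hσ' m, Complex.norm_real, Real.norm_eq_abs] at hmain
    refine hmain.trans ?_
    have h1 : (p.factorial : ℝ) / Y ^ p * (∑' i, ‖b i‖) =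
        p.factorial * ((∑' i, ‖b i‖) / Y ^ p) := by ring
    rw [h1, mul_add]
    have hX : 0 ≤ (∑' i, ‖b i‖) / Y ^ p := by positivity
    refine add_le_add ?_ ?_
    · refine mul_le_mul_of_nonneg_right ?_ hX
      exact le_mul_of_one_le_left (by linarith) hK
    · refine mul_le_mul_of_nonneg_right ?_ hpos
      nlinarith

end Pool.Agent.T6.H46.CZ

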